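import Mathlib

/-!
# Multipliers of multiperfect numbers (MP_495a89_nt): statements of the blocks

Main theorem `Stmt_MAIN`: if `σ(n) / n = a / b`, `v_r(n) ≤ A r ^ 8` for all primes `r`, and
`v_p(n) + 1` has a prime factor `≤ max L √(log p)` for every prime `p ∣ n`, then
`a / b ≤ C (L + log A + log (1 + log a))`; so `k ≤ C (L + log A)` if `n` is `k`-fold perfect.
Plan and paper proof: `BLUEPRINT.md`.
-/

set_option autoImplicit false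

namespace Pool.Agent.Work.MP_495a89_nt

open Finset

/-- the primes `r ∈ (a, b]` with `r ≡ 1` modulo `l` -/
def PR (l a b : ℕ) : Finset ℕ := (Ioc a b).filter (fun r => r.Prime ∧ r % l = 1)

/-- **AP1**: primes `1` modulo the prime `l`, from `exp (C (1 + log l))` on, with a relative error
which is summable over the scales; `ex i` is the exceptional modulus (or `0`) at height
`exp (2 ^ i)`. -/
def Stmt_AP1 : Prop := ∃ c C : ℝ, 0 < c ∧ 1 ≤ C ∧ ∃ ex : ℕ → ℕ,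
  (∀ ε : ℝ, 0 < ε → ∃ K : ℝ, ∀ i : ℕ, ex i ≠ 0 → (2 : ℝ) ^ i ≤ K * (ex i : ℝ) ^ ε) ∧
  ∀ l : ℕ, l.Prime → ∀ (T : ℝ) (i : ℕ), C * (1 + Real.log l) ≤ T →
    (2 : ℝ) ^ i ≤ 3 * √(T * (1 + Real.log l)) → 3 * √(T * (1 + Real.log l)) < 2 ^ (i + 1) →
    ex i ≠ l → ∀ N : ℕ, Real.exp T ≤ N → (N : ℝ) ≤ Real.exp (2 * T) →
      (1 - C * Real.exp (-(c * √(T / (1 + Real.log l))))) * N
        ≤ ((l : ℝ) - 1) * ∑ r ∈ PR l 1 N, Real.log r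

/-- **BTB**: upper bound from Brun-Titchmarsh. -/
def Stmt_BTB : Prop := ∃ C : ℝ, 0 < C ∧ ∀ l : ℕ, l.Prime → ∀ w : ℕ, l ^ 3 ≤ w →
  ((l : ℝ) - 1) * ∑ r ∈ PR l 1 w, Real.log r ≤ C * w

/-- **BTS**: the same with weights `log r / r`. -/
def Stmt_BTS : Prop := ∃ C : ℝ, 0 < C ∧ ∀ l : ℕ, l.Prime → ∀ w z : ℕ, l ^ 3 ≤ w → w ≤ z →
  ((l : ℝ) - 1) * ∑ r ∈ PR l w z, Real.log r / r ≤ C * Real.log z

/-- **AB**: partial summation (`A N = ∑ r ∈ PR l 1 N, log r`, weights `1 / (n log n)`). -/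
def Stmt_AB : Prop := ∀ l : ℕ, l.Prime → ∀ w z : ℕ, 3 ≤ w → w ≤ z → ∀ E B : ℝ, 0 ≤ E → 0 ≤ B →
  (∀ N : ℕ, w ≤ N → N ≤ z → (1 - E) * N ≤ ((l : ℝ) - 1) * ∑ r ∈ PR l 1 N, Real.log r) →
  ((l : ℝ) - 1) * ∑ r ∈ PR l 1 w, Real.log r ≤ B * w →
  (1 - E) * Real.log (Real.log z / Real.log w) - (B + 2) / Real.log w
    ≤ ((l : ℝ) - 1) * ∑ r ∈ PR l w z, 1 / (r : ℝ)

/-- `exp (W l)` is the point from which on the primes `1` modulo `l` have the right density. -/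
structure APW (W : ℕ → ℝ) (C : ℝ) : Prop where
  one_le : 1 ≤ C
  three_le : ∀ l : ℕ, l.Prime → 3 ≤ W l
  log_le : ∀ l : ℕ, l.Prime → 3 * Real.log l ≤ W l
  sum_le : ∀ L : ℕ, ∑ l ∈ (Icc 1 L).filter Nat.Prime, W l ≤ C * L
  lower : ∀ l : ℕ, l.Prime → ∀ w z : ℕ, W l ≤ Real.log w → w ≤ z →
    Real.log (Real.log z / Real.log w) - C ≤ ((l : ℝ) - 1) * ∑ r ∈ PR l w z, 1 / (r : ℝ)

/-- **AP** (from AP1, AB and BTB). -/
def Stmt_AP : Prop := ∃ (W : ℕ → ℝ) (C : ℝ), APW W C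

/-- **SV**: Selberg's sieve, the number of classes `B p` may vary with `p`; only the mean of the
densities is bounded. -/
def Stmt_SV : Prop := ∀ K : ℝ, 0 < K → ∃ D : ℕ, ∀ (Y N M : ℕ) (P : Finset ℕ) (B : ℕ → Finset ℕ),
  3 ≤ Y → (∀ p ∈ P, p.Prime ∧ p ≤ Y ∧ B p ⊆ range p ∧ 2 * (B p).card ≤ p) →
  ∑ p ∈ P, ((B p).card : ℝ) / p * Real.log p ≤ K * Real.log Y → Y ^ D ≤ N →
    ((((Ioc M (M + N)).filter (fun m => ∀ p ∈ P, m % p ∉ B p)).card : ℕ) : ℝ)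
      ≤ 3 * N * ∏ p ∈ P, (1 - ((B p).card : ℝ) / p)

/-- **RT**: the classes `0` and the nontrivial `l`-th roots of unity modulo `r`. -/
def Stmt_RT : Prop := ∀ l r : ℕ, l.Prime → r.Prime → r % l = 1 →
  ((range r).filter (fun c => c = 0 ∨ (c ^ l % r = 1 ∧ c ≠ 1))).card = l

open Classical in
/-- the primes `m ∈ (2 ^ j, 2 ^ (j+1)]` such that `(m ^ l - 1) / (m - 1)` has no prime factor
`r ≡ 1` modulo `l`, `r ≤ 2 ^ (j / M)`, with `m ≢ 1` modulo `r` -/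
noncomputable def RR (l M j : ℕ) : Finset ℕ := (Ioc (2 ^ j) (2 ^ (j + 1))).filter
  (fun m => m.Prime ∧ ∀ r ∈ PR l 1 (2 ^ (j / M)), m ^ l % r = 1 → m % r = 1)

/-- **RL** (from SV, BTS, RT). -/
def Stmt_RL : Prop := ∀ (W : ℕ → ℝ) (C : ℝ), APW W C → ∃ (C' : ℝ) (M : ℕ), 0 < C' ∧ 20 ≤ M ∧
  ∀ l : ℕ, l.Prime → ∀ j : ℕ, 1 ≤ j → ((RR l M j).card : ℝ) ≤ C' * 2 ^ j * W l / (j : ℝ) ^ 2

/-- the prime factors of `n` in `(2 ^ j, 2 ^ (j+1)]` -/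
def SJ (n j : ℕ) : Finset ℕ := n.primeFactors.filter (fun p => 2 ^ j < p ∧ p ≤ 2 ^ (j + 1))

/-- **CMB**: a prime `r` divides `σ(p ^ v_p(n))` for at most `v_r(a) + v_r(n)` primes `p ∣ n`. -/
def Stmt_CMB : Prop := ∀ n a b M j Lb : ℕ, n ≠ 0 → b ≠ 0 →
  ArithmeticFunction.sigma 1 n * b = a * n →
  (∀ p ∈ SJ n j, ∃ l : ℕ, l.Prime ∧ l ≤ Lb ∧ l ∣ n.factorization p + 1) →
  (SJ n j).card ≤ ∑ l ∈ (Icc 1 Lb).filter Nat.Prime, (RR l M j).card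
    + ∑ r ∈ (Icc 1 (2 ^ (j / M))).filter Nat.Prime, (a.factorization r + n.factorization r)

/-- **PP** -/
def Stmt_PP : Prop := ∀ n a b : ℕ, n ≠ 0 → b ≠ 0 → ArithmeticFunction.sigma 1 n * b = a * n →
  Real.log ((a : ℝ) / b) ≤ ∑ p ∈ n.primeFactors, 1 / (p : ℝ) + 1

/-- **MER** -/
def Stmt_MER : Prop := ∃ C : ℝ, ∀ J : ℕ, 1 ≤ J →
  ∑ p ∈ (Icc 1 (2 ^ J)).filter Nat.Prime, 1 / (p : ℝ) ≤ Real.log J + C

/-- **FIN** (from everything): the main theorem. -/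
def Stmt_MAIN : Prop := ∃ C : ℝ, ∀ (n a b : ℕ) (A L : ℝ), n ≠ 0 → b ≠ 0 →
  ArithmeticFunction.sigma 1 n * b = a * n → 1 ≤ A → 1 ≤ L →
  (∀ r : ℕ, r.Prime → (n.factorization r : ℝ) ≤ A * (r : ℝ) ^ 8) →
  (∀ p : ℕ, p.Prime → p ∣ n → ∃ l : ℕ, l.Prime ∧ l ∣ n.factorization p + 1 ∧
    (l : ℝ) ≤ max L √(Real.log p)) →
  (a : ℝ) / b ≤ C * (L + Real.log A + Real.log (1 + Real.log a)) ∧
    (b = 1 → (a : ℝ) ≤ C * (L + Real.log A))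

end Pool.Agent.Work.MP_495a89_nt
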