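import Mathlib
import Pool.Agent.Work.MP_495a89_nt.Interface
import Pool.Agent.Work.MP_b0c12c_nt_shift.WS

/-!
# Block SV: Selberg's sieve with a mean bound on the densities
-/

set_option autoImplicit false

open Finset Nat ArithmeticFunction BoundingSieve
open Pool.Agent.Work.MP_484fb8_nt (GSum selberg_upper_bound)
open Pool.Agent.Work.MP_b0c12c_nt_shift.WS

namespace Pool.Agent.Work.MP_495a89_nt.SVW

section

variable {P : Finset ℕ} {g : ℕ → ℕ → ℝ} {M N : ℕ} (hP : ∀ p ∈ P, p.Prime)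
    (h0 : ∀ p ∈ P, 0 < nuf g p) (h1 : ∀ p ∈ P, nuf g p < 1)
    (hg : ∀ p ∈ P, ∀ c < p, 0 ≤ g p c ∧ g p c ≤ 1)

include hg in
theorem rem_le' {D : Finset ℕ} (hD : D ⊆ P) :
    |(sv P g M N hP h0 h1).rem (∏ p ∈ D, p)| ≤ ∏ p ∈ D, ∑ c ∈ range p, (1 - g p c) := by
  unfold rem
  rw [multSum_prod hP h0 h1 hg hD]
  have hd0 : 0 < ∏ p ∈ D, p := Finset.prod_pos fun p hp => (hP p (hD hp)).pos
  have e1 : (sv P g M N hP h0 h1).nu (∏ p ∈ D, p) * (sv P g M N hP h0 h1).totalMass =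
      (N : ℝ) / (∏ p ∈ D, p : ℕ) * ∑ c ∈ range (∏ p ∈ D, p), ∏ p ∈ D, (1 - g p (c % p)) := by
    change ArithmeticFunction.prodPrimeFactors (nuf g) (∏ p ∈ D, p) * (N : ℝ) = _
    rw [ArithmeticFunction.prodPrimeFactors_apply hd0.ne',
      Nat.primeFactors_prod fun p hp => hP p (hD hp),
      sum_range_prod D (fun p hp => hP p (hD hp)) (fun p c => 1 - g p c)]
    unfold nuf
    rw [prod_div_distrib, Nat.cast_prod]
    ring
  rw [e1]
  have e2 : ∑ k ∈ Ioc M (M + N), ∏ p ∈ D, (1 - g p (k % p)) =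
      ∑ k ∈ Ioc M (M + N), (fun c => ∏ p ∈ D, (1 - g p (c % p))) (k % ∏ p ∈ D, p) := by
    apply sum_congr rfl
    intro k _
    simp only
    apply prod_congr rfl
    intro p hp
    rw [Nat.mod_mod_of_dvd _ (dvd_prod_of_mem _ hp)]
  rw [e2]
  have hnn : ∀ c : ℕ, 0 ≤ ∏ p ∈ D, (1 - g p (c % p)) := by
    intro c
    apply prod_nonneg
    intro p hp
    have := (hg p (hD hp) (c % p) (Nat.mod_lt _ (hP p (hD hp)).pos)).2
    linarith
  refine (sum_periodic M N _ hd0 (fun c => ∏ p ∈ D, (1 - g p (c % p))) fun c _ => hnn c).trans ?_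
  rw [sum_range_prod D (fun p hp => hP p (hD hp)) (fun p c => 1 - g p c)]

include hP h0 h1 in
theorem tail_le' {D : ℕ} (hD : 1 ≤ D) {a : ℝ} (ha : 0 < a) :
    ∑ l ∈ (∏ p ∈ P, p).divisors with ¬ l ≤ D, gm g l ≤
      (∏ p ∈ P, (1 + nuf g p / (1 - nuf g p))) *
        Real.exp (-(a * Real.log D) + ∑ p ∈ P, nuf g p * ((p : ℝ) ^ a - 1)) := by
  have hD0 : (0 : ℝ) < D := by exact_mod_cast hD
  have e1 : ∑ l ∈ (∏ p ∈ P, p).divisors with ¬ l ≤ D, gm g l ≤
      ∑ l ∈ (∏ p ∈ P, p).divisors, Real.exp (-(a * Real.log D)) *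
        ∏ p ∈ l.primeFactors, (p : ℝ) ^ a * (nuf g p / (1 - nuf g p)) := by
    refine le_trans (sum_le_sum fun l hl => ?_)
      (sum_le_sum_of_subset_of_nonneg (filter_subset _ _) fun l hl _ => ?_)
    · rw [mem_filter, not_le] at hl
      have hld : l ∣ ∏ p ∈ P, p := Nat.dvd_of_mem_divisors hl.1
      have hlsq : Squarefree l := (sqf P hP).squarefree_of_dvd hld
      have e1 : ∏ p ∈ l.primeFactors, (p : ℝ) ^ a * (nuf g p / (1 - nuf g p)) =
          (l : ℝ) ^ a * gm g l := by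
        rw [gm, prod_mul_distrib, Real.finsetProd_rpow _ _ (fun p _ => Nat.cast_nonneg p),
          ← Nat.cast_prod, Nat.prod_primeFactors_of_squarefree hlsq]
      rw [e1, ← mul_assoc]
      have e3 : 1 ≤ Real.exp (-(a * Real.log D)) * (l : ℝ) ^ a := by
        have hl0 : (0 : ℝ) < l := lt_trans hD0 (by exact_mod_cast hl.2)
        rw [Real.rpow_def_of_pos hl0, ← Real.exp_add]
        apply Real.one_le_exp
        have : Real.log D ≤ Real.log l := Real.log_le_log hD0 (by exact_mod_cast hl.2.le)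
        nlinarith
      calc gm g l = 1 * gm g l := (one_mul _).symm
        _ ≤ _ := mul_le_mul_of_nonneg_right e3 (gm_nonneg hP h0 h1 hld)
    · apply mul_nonneg (Real.exp_pos _).le
      apply prod_nonneg
      intro p hp
      have hpP := mem_of_mem_primeFactors hP (Nat.dvd_of_mem_divisors hl) hp
      have a := h0 p hpP
      have b := h1 p hpP
      exact mul_nonneg (by positivity) (div_nonneg a.le (by linarith))
  refine e1.trans ?_
  rw [← mul_sum, sum_divisors_prod P hP, Real.exp_add, Real.exp_sum]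
  have h2 : ∏ p ∈ P, (1 + (p : ℝ) ^ a * (nuf g p / (1 - nuf g p))) ≤
      (∏ p ∈ P, (1 + nuf g p / (1 - nuf g p))) *
        ∏ p ∈ P, Real.exp (nuf g p * ((p : ℝ) ^ a - 1)) := by
    rw [← prod_mul_distrib]
    apply prod_le_prod
    · intro p hp
      have a0 := h0 p hp
      have b0 := h1 p hp
      have := mul_nonneg (by positivity : 0 ≤ (p : ℝ) ^ a)
        (div_nonneg a0.le (by linarith : 0 ≤ 1 - nuf g p))
      linarith
    · intro p hp
      have a0 := h0 p hp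
      have b0 := h1 p hp
      have hp2 : 1 - nuf g p ≠ 0 := by linarith
      have e : 1 + (p : ℝ) ^ a * (nuf g p / (1 - nuf g p)) =
          (1 + nuf g p / (1 - nuf g p)) * (1 + nuf g p * ((p : ℝ) ^ a - 1)) := by
        field_simp; ring
      rw [e]
      have h3 : 0 ≤ 1 + nuf g p / (1 - nuf g p) := by
        have := div_nonneg a0.le (by linarith : 0 ≤ 1 - nuf g p)
        linarith
      apply mul_le_mul_of_nonneg_left _ h3
      have h4 := Real.add_one_le_exp (nuf g p * ((p : ℝ) ^ a - 1))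
      linarith
  calc Real.exp (-(a * Real.log D)) * ∏ p ∈ P, (1 + (p : ℝ) ^ a * (nuf g p / (1 - nuf g p))) ≤
      Real.exp (-(a * Real.log D)) * ((∏ p ∈ P, (1 + nuf g p / (1 - nuf g p))) *
        ∏ p ∈ P, Real.exp (nuf g p * ((p : ℝ) ^ a - 1))) :=
        mul_le_mul_of_nonneg_left h2 (Real.exp_pos _).le
    _ = _ := by ring

theorem one_le_log {W : ℕ} (hW : 3 ≤ W) : 1 ≤ Real.log W := by
  have h3 : (3 : ℝ) ≤ W := by exact_mod_cast hW
  rw [Real.le_log_iff_exp_le (by positivity)]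
  have := Real.exp_one_lt_d9
  linarith

include hP h0 in
/-- the Rankin sum -/
theorem rankin' {W : ℕ} (hW : 3 ≤ W) (hPW : ∀ p ∈ P, p ≤ W) {K : ℝ}
    (hK : ∑ p ∈ P, nuf g p * Real.log p ≤ K * Real.log W) :
    ∑ p ∈ P, nuf g p * ((p : ℝ) ^ (1 / Real.log W) - 1) ≤ K * (Real.exp 1 - 1) := by
  have hlz : 1 ≤ Real.log W := one_le_log hW
  have hlz0 : 0 < Real.log W := by linarith
  have he : 0 ≤ Real.exp 1 - 1 := by
    have := Real.one_le_exp (zero_le_one : (0 : ℝ) ≤ 1); linarith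
  calc ∑ p ∈ P, nuf g p * ((p : ℝ) ^ (1 / Real.log W) - 1) ≤
      ∑ p ∈ P, (Real.exp 1 - 1) / Real.log W * (nuf g p * Real.log p) := by
        apply sum_le_sum
        intro p hp
        have hp' := hP p hp
        have hpz := hPW p hp
        have hp0 : (0 : ℝ) < p := by exact_mod_cast hp'.pos
        have hlp : 0 ≤ Real.log p := Real.log_nonneg (by exact_mod_cast hp'.one_lt.le)
        have hlpz : Real.log p ≤ Real.log W := Real.log_le_log hp0 (by exact_mod_cast hpz)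
        have h4 := exp_convex (t := Real.log p / Real.log W) (by positivity)
          (by rw [div_le_one hlz0]; exact hlpz)
        have h5 : (p : ℝ) ^ (1 / Real.log W) = Real.exp (Real.log p / Real.log W) := by
          rw [Real.rpow_def_of_pos hp0]; congr 1; ring
        rw [h5]
        calc nuf g p * (Real.exp (Real.log p / Real.log W) - 1) ≤
            nuf g p * (Real.log p / Real.log W * (Real.exp 1 - 1)) :=
              mul_le_mul_of_nonneg_left h4 (h0 p hp).le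
          _ = _ := by ring
    _ = (Real.exp 1 - 1) / Real.log W * ∑ p ∈ P, nuf g p * Real.log p := by rw [mul_sum]
    _ ≤ (Real.exp 1 - 1) / Real.log W * (K * Real.log W) :=
        mul_le_mul_of_nonneg_left hK (by positivity)
    _ = _ := by field_simp

include hP h0 h1 in
/-- lower bound for `G (W ^ u)` -/
theorem G_ge' {u W : ℕ} {K : ℝ} (hW : 3 ≤ W) (hPW : ∀ p ∈ P, p ≤ W)
    (hK0 : 0 ≤ K) (hu : 2 * K + 1 ≤ u)
    (hK : ∑ p ∈ P, nuf g p * Real.log p ≤ K * Real.log W) :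
    (∏ p ∈ P, (1 + nuf g p / (1 - nuf g p))) / 2 ≤
      ∑ l ∈ (∏ p ∈ P, p).divisors with l ≤ W ^ u, gm g l := by
  set V := ∏ p ∈ P, (1 + nuf g p / (1 - nuf g p)) with hV
  have hV0 : 0 ≤ V := by
    apply prod_nonneg
    intro p hp
    have a := h0 p hp
    have b := h1 p hp
    have := div_nonneg a.le (by linarith : 0 ≤ 1 - nuf g p)
    linarith
  have hlz : 1 ≤ Real.log W := one_le_log hW
  have hlz0 : 0 < Real.log W := by linarith
  have hD : 1 ≤ W ^ u := Nat.one_le_pow _ _ (by omega)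
  have t1 := tail_le' hP h0 h1 hD (a := 1 / Real.log W) (by positivity)
  have t2 : ∑ l ∈ (∏ p ∈ P, p).divisors with l ≤ W ^ u, gm g l +
      ∑ l ∈ (∏ p ∈ P, p).divisors with ¬ l ≤ W ^ u, gm g l = V := by
    rw [sum_filter_add_sum_filter_not]
    exact sum_divisors_prod P hP _
  have t3 : -(1 / Real.log W * Real.log ((W ^ u : ℕ) : ℝ)) +
      ∑ p ∈ P, nuf g p * ((p : ℝ) ^ (1 / Real.log W) - 1) ≤ -1 := by
    have r := rankin' hP h0 hW hPW hK
    push_cast
    rw [Real.log_pow]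
    have e1 : 1 / Real.log W * (u * Real.log W) = u := by
      field_simp
    rw [e1]
    have := Real.exp_one_lt_d9
    nlinarith
  have t4 : Real.exp (-(1 / Real.log W * Real.log ((W ^ u : ℕ) : ℝ)) +
      ∑ p ∈ P, nuf g p * ((p : ℝ) ^ (1 / Real.log W) - 1)) ≤ 1 / 2 := by
    refine (Real.exp_le_exp.2 t3).trans ?_
    rw [Real.exp_neg, inv_eq_one_div]
    apply one_div_le_one_div_of_le (by norm_num)
    have := Real.add_one_le_exp (1 : ℝ)
    linarith
  have t5 := mul_le_mul_of_nonneg_left t4 hV0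
  linarith

include hP h0 h1 in
theorem V_le' {W : ℕ} {K : ℝ} (hW : 3 ≤ W) (hhalf : ∀ p ∈ P, nuf g p ≤ 1 / 2)
    (hK : ∑ p ∈ P, nuf g p * Real.log p ≤ K * Real.log W) :
    ∏ p ∈ P, (1 + nuf g p / (1 - nuf g p)) ≤ Real.exp (3 * K * Real.log W) := by
  have hlz : 1 ≤ Real.log W := one_le_log hW
  have e1 : ∀ p ∈ P, 1 + nuf g p / (1 - nuf g p) ≤ Real.exp (3 * (nuf g p * Real.log p)) := by
    intro p hp
    have a := h0 p hp
    have b := h1 p hp
    have c := hhalf p hp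
    have hp2 : (2 : ℝ) ≤ p := by exact_mod_cast (hP p hp).two_le
    have hl2 : (2 : ℝ) / 3 ≤ Real.log p := by
      have h3 : Real.log 2 ≤ Real.log p := Real.log_le_log (by norm_num) hp2
      have := Real.log_two_gt_d9
      linarith
    have e2 : 1 + nuf g p / (1 - nuf g p) = 1 / (1 - nuf g p) := by
      have : 1 - nuf g p ≠ 0 := by linarith
      field_simp
      ring
    rw [e2, div_le_iff₀ (by linarith)]
    have h4 : Real.exp (2 * nuf g p) ≤ Real.exp (3 * (nuf g p * Real.log p)) := by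
      rw [Real.exp_le_exp]
      nlinarith
    have h5 := Real.add_one_le_exp (2 * nuf g p)
    calc (1 : ℝ) ≤ (2 * nuf g p + 1) * (1 - nuf g p) := by nlinarith
      _ ≤ Real.exp (2 * nuf g p) * (1 - nuf g p) :=
          mul_le_mul_of_nonneg_right h5 (by linarith)
      _ ≤ Real.exp (3 * (nuf g p * Real.log p)) * (1 - nuf g p) :=
          mul_le_mul_of_nonneg_right h4 (by linarith)
  calc ∏ p ∈ P, (1 + nuf g p / (1 - nuf g p)) ≤
      ∏ p ∈ P, Real.exp (3 * (nuf g p * Real.log p)) := by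
        apply prod_le_prod _ e1
        intro p hp
        have a := h0 p hp
        have b := h1 p hp
        have := div_nonneg a.le (by linarith : 0 ≤ 1 - nuf g p)
        linarith
    _ = Real.exp (3 * ∑ p ∈ P, nuf g p * Real.log p) := by rw [← Real.exp_sum, mul_sum]
    _ ≤ _ := by
        rw [Real.exp_le_exp]
        nlinarith

end

/-- The sieve bound when all densities are positive. -/
theorem main_pos' {u k W N M : ℕ} {K : ℝ} {P : Finset ℕ} {g : ℕ → ℕ → ℝ} (hW : 3 ≤ W)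
    (hK0 : 0 ≤ K) (hu : 2 * K + 1 ≤ u) (hk : 3 * K ≤ k)
    (hP : ∀ p ∈ P, p.Prime ∧ p ≤ W) (hN : W ^ (4 * u + k) ≤ N)
    (hg : ∀ p ∈ P, ∀ c < p, 0 ≤ g p c ∧ g p c ≤ 1)
    (h0 : ∀ p ∈ P, 0 < ∑ c ∈ range p, (1 - g p c))
    (hhalf : ∀ p ∈ P, nuf g p ≤ 1 / 2)
    (hK : ∑ p ∈ P, nuf g p * Real.log p ≤ K * Real.log W) :
    ∑ k ∈ Ioc M (M + N), ∏ p ∈ P, g p (k % p) ≤ 3 * N * ∏ p ∈ P, (1 - nuf g p) := by
  have hPp : ∀ p ∈ P, p.Prime := fun p hp => (hP p hp).1
  have hp0 : ∀ p ∈ P, (0 : ℝ) < p := fun p hp => by exact_mod_cast (hPp p hp).pos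
  have hn0 : ∀ p ∈ P, 0 < nuf g p := fun p hp => div_pos (h0 p hp) (hp0 p hp)
  have hn1 : ∀ p ∈ P, nuf g p < 1 := by
    intro p hp
    have := hhalf p hp
    linarith
  set V := ∏ p ∈ P, (1 + nuf g p / (1 - nuf g p)) with hV
  have hVinv : ∏ p ∈ P, (1 - nuf g p) = V⁻¹ := by
    rw [hV, ← prod_inv_distrib]
    apply prod_congr rfl
    intro p hp
    have : 1 - nuf g p ≠ 0 := by have := hn1 p hp; linarith
    field_simp
    ring
  have hV0 : 0 < V := by
    apply prod_pos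
    intro p hp
    have := div_nonneg (hn0 p hp).le (by have := hn1 p hp; linarith : 0 ≤ 1 - nuf g p)
    linarith
  have hD : 1 ≤ W ^ u := Nat.one_le_pow _ _ (by omega)
  have s1 := selberg_upper_bound (s := sv P g M N hPp hn0 hn1) hD
  rw [siftedSum_eq hPp hn0 hn1 hg, GSum_eq hPp hn0 hn1] at s1
  have s2 := G_ge' hPp hn0 hn1 hW (fun p hp => (hP p hp).2) hK0 hu hK
  have s3 : (sv P g M N hPp hn0 hn1).totalMass * (∑ l ∈ (∏ p ∈ P, p).divisors with
      l ≤ W ^ u, gm g l)⁻¹ ≤ 2 * N * V⁻¹ := by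
    change (N : ℝ) * _ ≤ _
    have : (∑ l ∈ (∏ p ∈ P, p).divisors with l ≤ W ^ u, gm g l)⁻¹ ≤ (V / 2)⁻¹ :=
      inv_anti₀ (by positivity) s2
    calc (N : ℝ) * (∑ l ∈ (∏ p ∈ P, p).divisors with l ≤ W ^ u, gm g l)⁻¹ ≤
        N * (V / 2)⁻¹ := mul_le_mul_of_nonneg_left this (Nat.cast_nonneg _)
      _ = _ := by rw [inv_div]; ring
  -- the remainder
  have hW0 : (0 : ℝ) < W := by
    have : 0 < W := by omega
    exact_mod_cast this
  have s4 : ∀ d1 ∈ (sv P g M N hPp hn0 hn1).prodPrimes.divisors.filter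
      (fun d => d ≤ W ^ u), ∀ d2 ∈ (sv P g M N hPp hn0 hn1).prodPrimes.divisors.filter
      (fun d => d ≤ W ^ u),
      |(sv P g M N hPp hn0 hn1).rem (Nat.lcm d1 d2)| ≤ (W : ℝ) ^ (2 * u) := by
    intro d1 hd1 d2 hd2
    rw [mem_filter, mem_divisors] at hd1 hd2
    have hl : Nat.lcm d1 d2 ∣ ∏ p ∈ P, p := Nat.lcm_dvd hd1.1.1 hd2.1.1
    have hsq : Squarefree (Nat.lcm d1 d2) := (sqf P hPp).squarefree_of_dvd hl
    have hsub : (Nat.lcm d1 d2).primeFactors ⊆ P := fun p hp =>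
      mem_of_mem_primeFactors hPp hl hp
    have e1 := rem_le' hPp hn0 hn1 (M := M) (N := N) hg hsub
    rw [Nat.prod_primeFactors_of_squarefree hsq] at e1
    refine e1.trans ?_
    have e2 : ∏ p ∈ (Nat.lcm d1 d2).primeFactors, ∑ c ∈ range p, (1 - g p c) ≤
        (Nat.lcm d1 d2 : ℝ) := by
      conv_rhs => rw [← Nat.prod_primeFactors_of_squarefree hsq]
      rw [Nat.cast_prod]
      apply prod_le_prod
      · intro p hp
        exact (h0 p (hsub hp)).le
      · intro p hp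
        have h2 := hhalf p (hsub hp)
        unfold nuf at h2
        rw [div_le_iff₀ (hp0 p (hsub hp))] at h2
        have := hp0 p (hsub hp)
        linarith
    have e3 : Nat.lcm d1 d2 ≤ d1 * d2 := Nat.le_of_dvd
      (Nat.mul_pos (Nat.pos_of_ne_zero (ne_zero_of_dvd_ne_zero hd1.1.2 hd1.1.1))
        (Nat.pos_of_ne_zero (ne_zero_of_dvd_ne_zero hd2.1.2 hd2.1.1))) (Nat.lcm_dvd_mul d1 d2)
    have e4 : d1 * d2 ≤ W ^ (2 * u) := by
      calc d1 * d2 ≤ W ^ u * W ^ u := Nat.mul_le_mul hd1.2 hd2.2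
        _ = _ := by rw [← pow_add]; congr 1; ring
    refine e2.trans ?_
    exact_mod_cast e3.trans e4
  have hcard : #((sv P g M N hPp hn0 hn1).prodPrimes.divisors.filter
      (fun d => d ≤ W ^ u)) ≤ W ^ u := by
    have hsub : (sv P g M N hPp hn0 hn1).prodPrimes.divisors.filter (fun d => d ≤ W ^ u) ⊆
        Icc 1 (W ^ u) := by
      intro d hd
      rw [mem_filter, mem_divisors] at hd
      rw [mem_Icc]
      exact ⟨Nat.pos_of_ne_zero (ne_zero_of_dvd_ne_zero hd.1.2 hd.1.1), hd.2⟩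
    have := card_le_card hsub
    simpa using this
  have hcard' : (#((sv P g M N hPp hn0 hn1).prodPrimes.divisors.filter
      (fun d => d ≤ W ^ u)) : ℝ) ≤ (W : ℝ) ^ u := by
    exact_mod_cast hcard
  have s5 : ∑ d1 ∈ (sv P g M N hPp hn0 hn1).prodPrimes.divisors with d1 ≤ W ^ u,
      ∑ d2 ∈ (sv P g M N hPp hn0 hn1).prodPrimes.divisors with d2 ≤ W ^ u,
        |(sv P g M N hPp hn0 hn1).rem (Nat.lcm d1 d2)| ≤ (W : ℝ) ^ (4 * u) := by
    calc _ ≤ ∑ d1 ∈ (sv P g M N hPp hn0 hn1).prodPrimes.divisors with d1 ≤ W ^ u,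
        ∑ d2 ∈ (sv P g M N hPp hn0 hn1).prodPrimes.divisors with d2 ≤ W ^ u,
          (W : ℝ) ^ (2 * u) :=
          sum_le_sum fun d1 hd1 => sum_le_sum fun d2 hd2 => s4 d1 hd1 d2 hd2
      _ = (#((sv P g M N hPp hn0 hn1).prodPrimes.divisors.filter
            (fun d => d ≤ W ^ u)) : ℝ) *
          ((#((sv P g M N hPp hn0 hn1).prodPrimes.divisors.filter
            (fun d => d ≤ W ^ u)) : ℝ) * (W : ℝ) ^ (2 * u)) := by
          rw [sum_const, sum_const, nsmul_eq_mul, nsmul_eq_mul]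
      _ ≤ (W : ℝ) ^ u * ((W : ℝ) ^ u * (W : ℝ) ^ (2 * u)) := by gcongr
      _ = (W : ℝ) ^ (4 * u) := by rw [← pow_add, ← pow_add]; congr 1; ring
  have s6 : (W : ℝ) ^ (4 * u) ≤ N * V⁻¹ := by
    rw [← div_eq_mul_inv, le_div_iff₀ hV0]
    calc (W : ℝ) ^ (4 * u) * V ≤ (W : ℝ) ^ (4 * u) * (W : ℝ) ^ k := by
          apply mul_le_mul_of_nonneg_left _ (by positivity)
          refine (V_le' hPp hn0 hn1 hW hhalf hK).trans ?_
          rw [← Real.rpow_natCast, Real.rpow_def_of_pos hW0, Real.exp_le_exp]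
          have := one_le_log hW
          nlinarith
      _ = (W : ℝ) ^ (4 * u + k) := by rw [← pow_add]
      _ ≤ N := by exact_mod_cast hN
  rw [hVinv]
  have hfin := s1.trans (_root_.add_le_add s3 s5)
  calc _ ≤ _ := hfin
    _ ≤ 2 * N * V⁻¹ + N * V⁻¹ := by linarith
    _ = _ := by ring

end SVW

open SVW in
/-- Block SV. -/
theorem stmt_SV : Stmt_SV := by
  intro K hK
  refine ⟨4 * (⌈2 * K + 1⌉₊) + ⌈3 * K⌉₊, ?_⟩
  intro Y N M P B hY hP hsum hN
  classical
  set P' := P.filter (fun p => (B p).Nonempty) with hP'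
  have hsub : P' ⊆ P := filter_subset _ _
  set g : ℕ → ℕ → ℝ := fun p c => if c ∈ B p then 0 else 1 with hgdef
  have hgs : ∀ p ∈ P, ∑ c ∈ range p, (1 - g p c) = (B p).card := by
    intro p hp
    obtain ⟨_, _, hB, _⟩ := hP p hp
    have e1 : ∀ c ∈ range p, 1 - g p c = if c ∈ B p then (1 : ℝ) else 0 := by
      intro c _
      simp only [hgdef]
      split_ifs <;> norm_num
    rw [sum_congr rfl e1, ← sum_filter, sum_const, nsmul_eq_mul, mul_one]
    congr 2
    ext c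
    rw [mem_filter]
    exact ⟨fun h => h.2, fun h => ⟨hB h, h⟩⟩
  have hnu : ∀ p ∈ P, nuf g p = ((B p).card : ℝ) / p := by
    intro p hp
    unfold nuf
    rw [hgs p hp]
  have hhalf : ∀ p ∈ P', nuf g p ≤ 1 / 2 := by
    intro p hp
    obtain ⟨hpp, _, _, h2⟩ := hP p (hsub hp)
    have hp0 : (0 : ℝ) < p := by exact_mod_cast hpp.pos
    rw [hnu p (hsub hp), div_le_div_iff₀ hp0 (by norm_num)]
    have : ((2 * (B p).card : ℕ) : ℝ) ≤ p := by exact_mod_cast h2
    push_cast at this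
    linarith
  have hlog : ∑ p ∈ P', nuf g p * Real.log p ≤ K * Real.log Y := by
    refine le_trans ?_ hsum
    calc ∑ p ∈ P', nuf g p * Real.log p = ∑ p ∈ P', ((B p).card : ℝ) / p * Real.log p := by
          apply sum_congr rfl
          intro p hp
          rw [hnu p (hsub hp)]
      _ ≤ _ := by
          apply sum_le_sum_of_subset_of_nonneg hsub
          intro p _ _
          have := Real.log_natCast_nonneg p
          positivity
  have main := main_pos' (M := M) (N := N) (P := P') (g := g) hY hK.le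
    (Nat.le_ceil (2 * K + 1)) (Nat.le_ceil (3 * K))
    (fun p hp => ⟨(hP p (hsub hp)).1, (hP p (hsub hp)).2.1⟩) hN
    (fun p _ c _ => by simp only [hgdef]; split_ifs <;> norm_num)
    (fun p hp => by
      rw [hgs p (hsub hp)]
      exact_mod_cast Finset.card_pos.2 (mem_filter.1 hp).2) hhalf hlog
  have e1 : ∑ k ∈ Ioc M (M + N), ∏ p ∈ P', g p (k % p) =
      ((((Ioc M (M + N)).filter (fun m => ∀ p ∈ P, m % p ∉ B p)).card : ℕ) : ℝ) := by
    rw [card_eq_sum_ones, Nat.cast_sum, sum_filter]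
    apply sum_congr rfl
    intro k _
    split_ifs with h
    · rw [Nat.cast_one]
      apply prod_eq_one
      intro p hp
      simp only [hgdef]
      rw [if_neg (h p (hsub hp))]
    · push Not at h
      obtain ⟨p, hp, hpk⟩ := h
      apply prod_eq_zero (i := p) (mem_filter.2 ⟨hp, ⟨_, hpk⟩⟩)
      simp only [hgdef]
      rw [if_pos hpk]
  have e2 : ∏ p ∈ P', (1 - nuf g p) = ∏ p ∈ P, (1 - ((B p).card : ℝ) / p) := by
    rw [← prod_subset hsub (f := fun p => 1 - ((B p).card : ℝ) / p)]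
    · apply prod_congr rfl
      intro p hp
      rw [hnu p (hsub hp)]
    · intro p hp hp'
      have : B p = ∅ := by
        by_contra hne
        exact hp' (mem_filter.2 ⟨hp, Finset.nonempty_iff_ne_empty.2 hne⟩)
      rw [this]
      simp
  rw [e1, e2] at main
  exact main

end Pool.Agent.Work.MP_495a89_nt
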