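import Pool.Agent.Work.MP_495a89_nt.Interface

/-! # Block AB: partial summation -/

set_option autoImplicit false

namespace Pool.Agent.Work.MP_495a89_nt

open Finset

/-- the chosen summand at `n + 1` -/
noncomputable def AB_chi (l n : ℕ) : ℝ := if (n + 1).Prime ∧ (n + 1) % l = 1 then 1 else 0

lemma AB_succ (l w z : ℕ) (hwz : w ≤ z) (f : ℕ → ℝ) :
    ∑ r ∈ PR l w (z + 1), f r = ∑ r ∈ PR l w z, f r + AB_chi l z * f (z + 1) := by
  unfold PR AB_chi
  have h : Ioc w (z + 1) = insert (z + 1) (Ioc w z) := by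
    ext x
    simp only [mem_Ioc, mem_insert]
    omega
  rw [h, filter_insert]
  split_ifs with hp
  · rw [sum_insert (by simp)]
    ring
  · ring

lemma AB_loglog (n : ℕ) (hn : 3 ≤ n) :
    Real.log (Real.log ((n : ℝ) + 1)) - Real.log (Real.log n) ≤ 1 / (n * Real.log n) := by
  have hn0 : (0 : ℝ) < n := by exact_mod_cast (by omega : 0 < n)
  have hn1 : (1 : ℝ) < n := by exact_mod_cast (by omega : 1 < n)
  have hlog : 0 < Real.log n := Real.log_pos hn1
  have hlog1 : 0 < Real.log ((n : ℝ) + 1) := Real.log_pos (by linarith)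
  rw [← Real.log_div hlog1.ne' hlog.ne']
  have h1 : Real.log (Real.log ((n : ℝ) + 1) / Real.log n) ≤
      Real.log ((n : ℝ) + 1) / Real.log n - 1 := by
    have := Real.log_le_sub_one_of_pos (div_pos hlog1 hlog)
    exact this
  have h2 : Real.log ((n : ℝ) + 1) - Real.log n ≤ 1 / n := by
    rw [← Real.log_div (by linarith) hn0.ne']
    have := Real.log_le_sub_one_of_pos (show (0 : ℝ) < ((n : ℝ) + 1) / n by positivity)
    refine this.trans (le_of_eq ?_)
    field_simp
    ring
  refine h1.trans ?_
  have h3 : Real.log ((n : ℝ) + 1) / Real.log n - 1 =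
      (Real.log ((n : ℝ) + 1) - Real.log n) / Real.log n := by
    field_simp
  rw [h3, div_le_div_iff₀ hlog (by positivity)]
  have h4 : (Real.log ((n : ℝ) + 1) - Real.log n) * n ≤ 1 := by
    calc _ ≤ 1 / (n : ℝ) * n := mul_le_mul_of_nonneg_right h2 hn0.le
      _ = 1 := by field_simp
  nlinarith

theorem stmt_AB : Stmt_AB := by
  intro l hl w z hw hwz E B hE hB hlow hup
  have hl1 : (0 : ℝ) ≤ (l : ℝ) - 1 := by
    have : (1 : ℝ) ≤ l := by exact_mod_cast hl.one_le
    linarith
  have hw1 : (1 : ℝ) < w := by exact_mod_cast (by omega : 1 < w)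
  have hw0 : (0 : ℝ) < w := by linarith
  have hlw : 0 < Real.log w := Real.log_pos hw1
  have hzw : (w : ℝ) ≤ z := by exact_mod_cast hwz
  have hlz : Real.log w ≤ Real.log z := Real.log_le_log hw0 hzw
  have hlz0 : 0 < Real.log z := lt_of_lt_of_le hlw hlz
  have hS0 : 0 ≤ ((l : ℝ) - 1) * ∑ r ∈ PR l w z, 1 / (r : ℝ) :=
    mul_nonneg hl1 (sum_nonneg fun r _ => by positivity)
  have hLL : 0 ≤ Real.log (Real.log z / Real.log w) :=
    Real.log_nonneg (by rw [le_div_iff₀ hlw]; linarith)
  by_cases hE1 : 1 ≤ E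
  · have h1 : (1 - E) * Real.log (Real.log z / Real.log w) ≤ 0 :=
      mul_nonpos_of_nonpos_of_nonneg (by linarith) hLL
    have h2 : 0 ≤ (B + 2) / Real.log w := by positivity
    linarith
  push Not at hE1
  have hE2 : 0 ≤ 1 - E := by linarith
  set a : ℕ → ℝ := fun n => ((l : ℝ) - 1) * ∑ r ∈ PR l 1 n, Real.log r with ha
  set g : ℕ → ℝ := fun n => 1 / ((n : ℝ) * Real.log n) with hg
  set S : ℕ → ℝ := fun n => ((l : ℝ) - 1) * ∑ r ∈ PR l w n, 1 / (r : ℝ) with hS
  have key : ∀ m : ℕ, w ≤ m → m ≤ z →
      (1 - E) * (Real.log (Real.log m) - Real.log (Real.log w) - g w + g m)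
        - (a w - (1 - E) * w) * g w ≤ S m - (a m - (1 - E) * m) * g m := by
    intro m hm
    induction m, hm using Nat.le_induction with
    | base =>
      intro _
      have : S w = 0 := by
        simp [hS, PR]
      rw [this]
      apply le_of_eq
      ring
    | succ m hm ih =>
      intro hmz
      have ih' := ih (by omega)
      have hm3 : 3 ≤ m := by omega
      have hm1 : (1 : ℝ) < m := by exact_mod_cast (by omega : 1 < m)
      have hlm : 0 < Real.log m := Real.log_pos hm1
      have hlm1 : 0 < Real.log ((m : ℝ) + 1) := Real.log_pos (by linarith)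
      have e1 : S (m + 1) = S m + ((l : ℝ) - 1) * (AB_chi l m * (1 / ((m : ℝ) + 1))) := by
        simp only [hS]
        rw [AB_succ l w m (by omega) (fun r => 1 / (r : ℝ))]
        push_cast
        ring
      have e2 : a (m + 1) = a m + ((l : ℝ) - 1) * (AB_chi l m * Real.log ((m : ℝ) + 1)) := by
        simp only [ha]
        rw [AB_succ l 1 m (by omega) (fun r => Real.log r)]
        push_cast
        ring
      have e3 : g (m + 1) = 1 / (((m : ℝ) + 1) * Real.log ((m : ℝ) + 1)) := by
        simp only [hg]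
        push_cast
        ring
      have hgm : g (m + 1) ≤ g m := by
        rw [e3]
        simp only [hg]
        apply one_div_le_one_div_of_le (by positivity)
        apply mul_le_mul (by linarith) (Real.log_le_log (by linarith) (by linarith)) hlm.le
          (by linarith)
      have e4 : Real.log ((m : ℝ) + 1) * g (m + 1) = 1 / ((m : ℝ) + 1) := by
        rw [e3]
        field_simp
      have hll := AB_loglog m hm3
      have hgm' : g m = 1 / ((m : ℝ) * Real.log m) := rfl
      rw [← hgm'] at hll
      have ham : (1 - E) * m ≤ a m := hlow m hm (by omega)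
      push_cast
      set LL1 := Real.log (Real.log ((m : ℝ) + 1)) with hLL1
      set X := ((l : ℝ) - 1) * AB_chi l m with hX
      have e5 : S (m + 1) - (a (m + 1) - (1 - E) * ((m : ℝ) + 1)) * g (m + 1) =
          (S m - (a m - (1 - E) * m) * g m) + (a m - (1 - E) * m) * (g m - g (m + 1)) +
            (1 - E) * g (m + 1) := by
        have e6 : S (m + 1) = S m + X * (Real.log ((m : ℝ) + 1) * g (m + 1)) := by
          rw [e4, e1, hX]; ring
        rw [e6, e2]
        rw [hX]
        ring
      rw [e5]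
      have h1 : 0 ≤ (a m - (1 - E) * m) * (g m - g (m + 1)) :=
        mul_nonneg (by linarith) (by linarith)
      have h2 : (1 - E) * (LL1 - Real.log (Real.log m)) ≤ (1 - E) * g m :=
        mul_le_mul_of_nonneg_left hll hE2
      nlinarith
  have hk := key z hwz le_rfl
  have hgz : 0 ≤ g z := by
    simp only [hg]
    have : (0 : ℝ) < z := by linarith
    positivity
  have haz : (1 - E) * z ≤ a z := hlow z hwz le_rfl
  have hwg : (w : ℝ) * g w = 1 / Real.log w := by
    simp only [hg]
    field_simp
  have hgw0 : 0 ≤ g w := by simp only [hg]; positivity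
  have hgw : g w ≤ 1 / Real.log w := by
    rw [← hwg]
    nlinarith
  have haw : a w ≤ B * w := hup
  have h3 : (a w - (1 - E) * w) * g w ≤ B * (1 / Real.log w) := by
    have h4 : a w * g w ≤ B * w * g w := mul_le_mul_of_nonneg_right haw hgw0
    have h5 : 0 ≤ (1 - E) * w * g w := by positivity
    have h6 : B * w * g w = B * (1 / Real.log w) := by rw [mul_assoc, hwg]
    nlinarith
  have h7 : 0 ≤ (a z - (1 - E) * z) * g z := mul_nonneg (by linarith) hgz
  have h8 : (1 - E) * g w ≤ 1 / Real.log w := by
    calc (1 - E) * g w ≤ 1 * g w := mul_le_mul_of_nonneg_right (by linarith) hgw0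
      _ ≤ _ := by rw [one_mul]; exact hgw
  have h9 : 0 ≤ (1 - E) * g z := mul_nonneg hE2 hgz
  have h10 : (B + 2) / Real.log w = B * (1 / Real.log w) + 2 * (1 / Real.log w) := by ring
  have h11 : 0 < 1 / Real.log w := by positivity
  rw [Real.log_div hlz0.ne' hlw.ne', h10]
  have : S z = ((l : ℝ) - 1) * ∑ r ∈ PR l w z, 1 / (r : ℝ) := rfl
  rw [← this]
  nlinarith

end Pool.Agent.Work.MP_495a89_nt
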