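import Mathlib
import Pool.Agent.Work.MP_495a89_nt.Interface

/-!
# Block AP: the density of the primes `1` modulo `l`
-/

set_option autoImplicit false

open Finset

namespace Pool.Agent.Work.MP_495a89_nt.APX

theorem pr_union {l a b c : ℕ} (h1 : a ≤ b) (h2 : b ≤ c) :
    PR l a c = PR l a b ∪ PR l b c := by
  ext r
  simp only [PR, mem_union, mem_filter, mem_Ioc]
  constructor
  · rintro ⟨⟨h3, h4⟩, h5⟩
    by_cases h : r ≤ b
    · exact Or.inl ⟨⟨h3, h⟩, h5⟩
    · exact Or.inr ⟨⟨by omega, h4⟩, h5⟩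
  · rintro (⟨⟨h3, h4⟩, h5⟩ | ⟨⟨h3, h4⟩, h5⟩)
    · exact ⟨⟨h3, by omega⟩, h5⟩
    · exact ⟨⟨by omega, h4⟩, h5⟩

theorem pr_disj {l a b c : ℕ} : Disjoint (PR l a b) (PR l b c) := by
  rw [Finset.disjoint_left]
  intro r h1 h2
  simp only [PR, mem_filter, mem_Ioc] at h1 h2
  omega

theorem pr_sum {l a b c : ℕ} (h1 : a ≤ b) (h2 : b ≤ c) (f : ℕ → ℝ) :
    ∑ r ∈ PR l a c, f r = ∑ r ∈ PR l a b, f r + ∑ r ∈ PR l b c, f r := by
  rw [pr_union h1 h2, sum_union pr_disj]

/-- the exceptional part of `W` -/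
noncomputable def EX (ex : ℕ → ℕ) (K : ℝ) (l : ℕ) : ℝ :=
  ∑ i ∈ (range ⌈K * (l : ℝ) ^ (1 / 4 : ℝ)⌉₊).filter (fun i => ex i = l), (4 : ℝ) ^ (i + 1)

theorem ex_nonneg (ex : ℕ → ℕ) (K : ℝ) (l : ℕ) : 0 ≤ EX ex K l :=
  sum_nonneg fun i _ => by positivity

theorem ex_mem {ex : ℕ → ℕ} {K : ℝ}
    (hK : ∀ i : ℕ, ex i ≠ 0 → (2 : ℝ) ^ i ≤ K * (ex i : ℝ) ^ (1 / 4 : ℝ)) {l i : ℕ} (hl : l ≠ 0)
    (h : ex i = l) : (4 : ℝ) ^ (i + 1) ≤ EX ex K l := by
  have h1 := hK i (h ▸ hl)
  rw [h] at h1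
  have h2 : i < ⌈K * (l : ℝ) ^ (1 / 4 : ℝ)⌉₊ := by
    rw [Nat.lt_ceil]
    refine lt_of_lt_of_le ?_ h1
    exact_mod_cast Nat.lt_two_pow_self
  unfold EX
  exact single_le_sum (f := fun i => (4 : ℝ) ^ (i + 1)) (fun i _ => by positivity)
    (mem_filter.2 ⟨mem_range.2 h2, h⟩)

theorem ex_sum {ex : ℕ → ℕ} {K : ℝ} (hK1 : 1 ≤ K)
    (hK : ∀ i : ℕ, ex i ≠ 0 → (2 : ℝ) ^ i ≤ K * (ex i : ℝ) ^ (1 / 4 : ℝ)) (L : ℕ) :
    ∑ l ∈ (Icc 1 L).filter Nat.Prime, EX ex K l ≤ 4 * K ^ 2 * (K + 1) * L := by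
  rcases Nat.eq_zero_or_pos L with h0 | hL
  · subst h0
    simp
  set x : ℝ := (L : ℝ) ^ (1 / 4 : ℝ) with hx
  have hL1 : (1 : ℝ) ≤ L := by exact_mod_cast hL
  have hx1 : 1 ≤ x := Real.one_le_rpow hL1 (by norm_num)
  have hx4 : x ^ 4 = L := by
    rw [hx, ← Real.rpow_natCast, ← Real.rpow_mul (by positivity)]
    norm_num
  set I := (range ⌈K * x⌉₊).filter (fun i => (2 : ℝ) ^ i ≤ K * x) with hI
  have e1 : ∀ l ∈ (Icc 1 L).filter Nat.Prime, EX ex K l ≤
      ∑ i ∈ I, if ex i = l then (4 : ℝ) ^ (i + 1) else 0 := by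
    intro l hl
    rw [mem_filter, mem_Icc] at hl
    unfold EX
    rw [← sum_filter]
    apply sum_le_sum_of_subset_of_nonneg
    · intro i hi
      rw [mem_filter, mem_range] at hi
      have h1 := hK i (by rw [hi.2]; exact hl.2.ne_zero)
      rw [hi.2] at h1
      have h2 : (l : ℝ) ^ (1 / 4 : ℝ) ≤ x :=
        Real.rpow_le_rpow (Nat.cast_nonneg _) (by exact_mod_cast hl.1.2) (by norm_num)
      have h3 : (2 : ℝ) ^ i ≤ K * x :=
        h1.trans (mul_le_mul_of_nonneg_left h2 (by linarith))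
      rw [mem_filter, hI, mem_filter, mem_range]
      refine ⟨⟨?_, h3⟩, hi.2⟩
      rw [Nat.lt_ceil]
      refine lt_of_lt_of_le ?_ h3
      exact_mod_cast Nat.lt_two_pow_self
    · intro i _ _
      positivity
  refine (sum_le_sum e1).trans ?_
  rw [sum_comm]
  have e2 : ∀ i ∈ I, ∑ l ∈ (Icc 1 L).filter Nat.Prime,
      (if ex i = l then (4 : ℝ) ^ (i + 1) else 0) ≤ 4 * (K * x) ^ 2 := by
    intro i hi
    rw [hI, mem_filter] at hi
    rw [sum_ite_eq]
    have h4 : (4 : ℝ) ^ (i + 1) ≤ 4 * (K * x) ^ 2 := by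
      have e : (4 : ℝ) ^ (i + 1) = 4 * ((2 : ℝ) ^ i) ^ 2 := by
        rw [pow_succ, ← pow_mul, mul_comm i 2, pow_mul]
        norm_num
        ring
      rw [e]
      have := hi.2
      gcongr
    split_ifs
    · exact h4
    · positivity
  refine (sum_le_sum e2).trans ?_
  rw [sum_const, nsmul_eq_mul]
  have hc : (I.card : ℝ) ≤ K * x + 1 := by
    have h5 : I.card ≤ ⌈K * x⌉₊ := by
      refine (card_le_card (filter_subset _ _)).trans ?_
      rw [card_range]
    have h6 : (⌈K * x⌉₊ : ℝ) < K * x + 1 := Nat.ceil_lt_add_one (by positivity)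
    have h7 : (I.card : ℝ) ≤ (⌈K * x⌉₊ : ℝ) := by exact_mod_cast h5
    linarith
  calc (I.card : ℝ) * (4 * (K * x) ^ 2) ≤ (K * x + 1) * (4 * (K * x) ^ 2) :=
        mul_le_mul_of_nonneg_right hc (by positivity)
    _ ≤ (K * x + x) * (4 * (K * x) ^ 2) := by gcongr
    _ = 4 * K ^ 2 * (K + 1) * x ^ 3 := by ring
    _ ≤ 4 * K ^ 2 * (K + 1) * x ^ 4 := by
        apply mul_le_mul_of_nonneg_left _ (by positivity)
        exact pow_le_pow_right₀ hx1 (by norm_num)
    _ = _ := by rw [hx4]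

theorem log_sum (L : ℕ) : ∑ l ∈ (Icc 1 L).filter Nat.Prime, (1 + Real.log l) ≤ 3 * L := by
  rw [sum_add_distrib]
  have h1 : ∑ l ∈ (Icc 1 L).filter Nat.Prime, (1 : ℝ) ≤ L := by
    rw [sum_const, nsmul_eq_mul, mul_one]
    have : ((Icc 1 L).filter Nat.Prime).card ≤ L := by
      refine (card_le_card (filter_subset _ _)).trans ?_
      simp
    exact_mod_cast this
  have h2 : ∑ l ∈ (Icc 1 L).filter Nat.Prime, Real.log l ≤ Real.log 4 * L := by
    have h3 := Chebyshev.theta_le_log4_mul_x (x := (L : ℝ)) (Nat.cast_nonneg _)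
    refine le_trans (le_of_eq ?_) h3
    unfold Chebyshev.theta
    rw [Nat.floor_natCast]
    apply sum_congr _ (fun _ _ => rfl)
    ext p
    simp only [mem_filter, mem_Icc, mem_Ioc]
    constructor
    · rintro ⟨⟨h4, h5⟩, h6⟩
      exact ⟨⟨h6.pos, h5⟩, h6⟩
    · rintro ⟨⟨h4, h5⟩, h6⟩
      exact ⟨⟨h6.pos, h5⟩, h6⟩
  have h4 : Real.log 4 ≤ 2 := by
    have e : (4 : ℝ) = 2 ^ 2 := by norm_num
    rw [e, Real.log_pow]
    have := Real.log_two_lt_d9
    push_cast
    linarith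
  have h5 : Real.log 4 * L ≤ 2 * L := mul_le_mul_of_nonneg_right h4 (Nat.cast_nonneg _)
  linarith

/-- One block. -/
theorem block {c C K B : ℝ} {ex : ℕ → ℕ} (hc : 0 < c) (hC : 1 ≤ C) (hB : 0 ≤ B)
    (hK : ∀ i : ℕ, ex i ≠ 0 → (2 : ℝ) ^ i ≤ K * (ex i : ℝ) ^ (1 / 4 : ℝ))
    (hAB : Stmt_AB)
    (h1 : ∀ l : ℕ, l.Prime → ∀ (T : ℝ) (i : ℕ), C * (1 + Real.log l) ≤ T →
      (2 : ℝ) ^ i ≤ 3 * √(T * (1 + Real.log l)) → 3 * √(T * (1 + Real.log l)) < 2 ^ (i + 1) →
      ex i ≠ l → ∀ N : ℕ, Real.exp T ≤ N → (N : ℝ) ≤ Real.exp (2 * T) →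
      (1 - C * Real.exp (-(c * √(T / (1 + Real.log l))))) * N
        ≤ ((l : ℝ) - 1) * ∑ r ∈ PR l 1 N, Real.log r)
    (hBTB : ∀ l : ℕ, l.Prime → ∀ w : ℕ, l ^ 3 ≤ w →
      ((l : ℝ) - 1) * ∑ r ∈ PR l 1 w, Real.log r ≤ B * w)
    {l : ℕ} (hl : l.Prime) {w : ℕ} (hw : 2 ≤ w) {s : ℝ} (hs : 1 ≤ s)
    (hW1 : s * (C + 3) * (1 + Real.log l) ≤ Real.log w)
    (hW2 : EX ex K l ≤ Real.log w) :
    Real.log 2 - (2 * C * Real.log 2 / c ^ 2 + B + 2) / s
      ≤ ((l : ℝ) - 1) * ∑ r ∈ PR l w (w ^ 2), 1 / (r : ℝ) := by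
  set lam : ℝ := 1 + Real.log l with hlam
  have hlog0 : 0 ≤ Real.log l := Real.log_natCast_nonneg l
  have hlam1 : 1 ≤ lam := by linarith
  set T := Real.log w with hT
  have hw0 : (0 : ℝ) < w := by
    have : 0 < w := by omega
    exact_mod_cast this
  have hCs : (C + 3) * lam ≤ T := by
    refine le_trans ?_ hW1
    have : 0 ≤ (C + 3) * lam := by positivity
    nlinarith
  have hT4 : 4 ≤ T := by nlinarith
  have hTs : s ≤ T := by
    refine le_trans ?_ hW1
    have h2 : 1 ≤ (C + 3) * lam := by nlinarith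
    calc s = s * 1 := (mul_one s).symm
      _ ≤ s * ((C + 3) * lam) := mul_le_mul_of_nonneg_left h2 (by linarith)
      _ = _ := by ring
  have hTl : s ≤ T / lam := by
    rw [le_div_iff₀ (by linarith)]
    refine le_trans ?_ hW1
    have h2 : lam ≤ (C + 3) * lam := by nlinarith
    calc s * lam ≤ s * ((C + 3) * lam) := mul_le_mul_of_nonneg_left h2 (by linarith)
      _ = _ := by ring
  have hlog2 : 0 < Real.log 2 := Real.log_pos (by norm_num)
  -- the exceptional index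
  have hx : 1 ≤ 3 * √(T * lam) := by
    have h2 : 1 ≤ √(T * lam) := by
      rw [Real.one_le_sqrt]
      nlinarith
    linarith
  obtain ⟨i, hi1, hi2⟩ := exists_nat_pow_near hx (by norm_num : (1 : ℝ) < 2)
  have hex : ex i ≠ l := by
    intro h
    have h3 := (ex_mem hK hl.ne_zero h).trans hW2
    have h4 : (3 * √(T * lam)) ^ 2 < (2 ^ (i + 1)) ^ 2 :=
      pow_lt_pow_left₀ hi2 (by positivity) (by norm_num)
    rw [mul_pow, Real.sq_sqrt (by positivity)] at h4
    have h5 : ((2 : ℝ) ^ (i + 1)) ^ 2 = 4 ^ (i + 1) := by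
      rw [← pow_mul, mul_comm, pow_mul]
      norm_num
    rw [h5] at h4
    nlinarith
  have hw3 : 3 ≤ w := by
    by_contra hlt
    have : w = 2 := by omega
    rw [hT, this] at hT4
    have := Real.log_two_lt_d9
    push_cast at hT4
    linarith
  have hwz : w ≤ w ^ 2 := by nlinarith
  have hexp : Real.exp T = w := Real.exp_log hw0
  have hl3 : l ^ 3 ≤ w := by
    have hl0 : (0 : ℝ) < l := by exact_mod_cast hl.pos
    have : ((l : ℝ)) ^ 3 ≤ w := by
      rw [← hexp, ← Real.exp_log hl0, ← Real.exp_nat_mul, Real.exp_le_exp]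
      push_cast
      nlinarith
    exact_mod_cast this
  set E : ℝ := C * Real.exp (-(c * √(T / lam))) with hE
  have hE0 : 0 ≤ E := by positivity
  have key := hAB l hl w (w ^ 2) hw3 hwz E B hE0 hB (fun N hN1 hN2 => by
      refine h1 l hl T i ?_ hi1 hi2 hex N ?_ ?_
      · nlinarith
      · rw [hexp]
        exact_mod_cast hN1
      · rw [two_mul, Real.exp_add, hexp]
        calc (N : ℝ) ≤ ((w ^ 2 : ℕ) : ℝ) := by exact_mod_cast hN2
          _ = _ := by push_cast; ring) (hBTB l hl w hl3)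
  refine le_trans ?_ key
  have h6 : Real.log ((w ^ 2 : ℕ) : ℝ) / Real.log w = 2 := by
    push_cast
    rw [Real.log_pow]
    have : Real.log w ≠ 0 := by
      rw [← hT]; linarith
    field_simp
    norm_num
  rw [h6]
  -- the error terms
  have h7 : E ≤ 2 * C / c ^ 2 / s := by
    set y := c * √(T / lam) with hy
    have hy0 : 0 < y := by
      have : 0 < √(T / lam) := Real.sqrt_pos.2 (by linarith)
      positivity
    have hy2 : c ^ 2 * s ≤ y ^ 2 := by
      rw [hy, mul_pow, Real.sq_sqrt (by linarith)]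
      have : 0 < c ^ 2 := by positivity
      nlinarith
    have h8 : Real.exp (-y) ≤ 2 / (c ^ 2 * s) := by
      rw [Real.exp_neg, inv_eq_one_div, div_le_div_iff₀ (Real.exp_pos _) (by positivity)]
      have := Real.quadratic_le_exp_of_nonneg hy0.le
      nlinarith
    calc E = C * Real.exp (-y) := rfl
      _ ≤ C * (2 / (c ^ 2 * s)) := mul_le_mul_of_nonneg_left h8 (by linarith)
      _ = _ := by
        have : 0 < s := by linarith
        field_simp
  have h9 : (B + 2) / Real.log w ≤ (B + 2) / s :=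
    div_le_div_of_nonneg_left (by linarith) (by linarith) hTs
  have h10 : E * Real.log 2 ≤ 2 * C / c ^ 2 / s * Real.log 2 :=
    mul_le_mul_of_nonneg_right h7 hlog2.le
  have h11 : (2 * C * Real.log 2 / c ^ 2 + B + 2) / s =
      2 * C / c ^ 2 / s * Real.log 2 + (B + 2) / s := by
    ring
  rw [h11]
  linarith

end APX

open APX in
/-- Block AP. -/
theorem stmt_AP (h1 : Stmt_AP1) (h2 : Stmt_AB) (h3 : Stmt_BTB) : Stmt_AP := by
  obtain ⟨c, C, hc, hC, ex, hex, hmain⟩ := h1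
  obtain ⟨B, hB, hBTB⟩ := h3
  obtain ⟨K0, hK0⟩ := hex (1 / 4) (by norm_num)
  set K := max K0 1 with hKdef
  have hK1 : 1 ≤ K := le_max_right _ _
  have hK : ∀ i : ℕ, ex i ≠ 0 → (2 : ℝ) ^ i ≤ K * (ex i : ℝ) ^ (1 / 4 : ℝ) := by
    intro i hi
    exact (hK0 i hi).trans (mul_le_mul_of_nonneg_right (le_max_left _ _) (by positivity))
  set D : ℝ := 2 * C * Real.log 2 / c ^ 2 + B + 2 with hD
  have hlog2 : 0 < Real.log 2 := Real.log_pos (by norm_num)
  have hD0 : 0 < D := by positivity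
  set C1 : ℝ := 3 * (C + 3) + 4 * K ^ 2 * (K + 1) with hC1
  set C2 : ℝ := Real.log 2 + 2 * D with hC2
  refine ⟨fun l => (C + 3) * (1 + Real.log l) + EX ex K l, C1 + C2, ?_⟩
  have hC1' : 1 ≤ C1 := by
    have : 0 ≤ 4 * K ^ 2 * (K + 1) := by positivity
    linarith
  have hC2' : 0 ≤ C2 := by positivity
  refine ⟨by linarith, ?_, ?_, ?_, ?_⟩
  · intro l hl
    have h4 := ex_nonneg ex K l
    have h5 : 0 ≤ Real.log l := Real.log_natCast_nonneg l
    nlinarith
  · intro l hl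
    have h4 := ex_nonneg ex K l
    have h5 : 0 ≤ Real.log l := Real.log_natCast_nonneg l
    nlinarith
  · intro L
    rw [sum_add_distrib, ← mul_sum]
    have h4 := log_sum L
    have h5 := ex_sum hK1 hK L
    have h6 : (C + 3) * ∑ l ∈ (Icc 1 L).filter Nat.Prime, (1 + Real.log l) ≤
        (C + 3) * (3 * L) := mul_le_mul_of_nonneg_left h4 (by linarith)
    have h7 : 0 ≤ C2 * L := by positivity
    have h8 : (C1 + C2) * L = (C + 3) * (3 * L) + 4 * K ^ 2 * (K + 1) * L + C2 * L := by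
      rw [hC1]; ring
    linarith
  · intro l hl w z hW hwz
    have hex0 := ex_nonneg ex K l
    have hlog0 : 0 ≤ Real.log l := Real.log_natCast_nonneg l
    have hl1 : (0 : ℝ) ≤ (l : ℝ) - 1 := by
      have : (1 : ℝ) ≤ l := by exact_mod_cast hl.one_lt.le
      linarith
    have hlw4 : 4 ≤ Real.log w := by nlinarith
    have hlw0 : 0 < Real.log w := by linarith
    have hw2 : 2 ≤ w := by
      by_contra hlt
      have : w = 0 ∨ w = 1 := by omega
      rcases this with h | h <;> rw [h] at hlw4 <;> simp at hlw4 <;> linarith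
    have hw0 : (0 : ℝ) < w := by
      have : 0 < w := by omega
      exact_mod_cast this
    -- the blocks
    have blocks : ∀ J : ℕ, (J : ℝ) * Real.log 2 - 2 * D * (1 - 1 / 2 ^ J) ≤
        ((l : ℝ) - 1) * ∑ r ∈ PR l w (w ^ 2 ^ J), 1 / (r : ℝ) := by
      intro J
      induction J with
      | zero =>
        simp only [Nat.cast_zero, zero_mul, pow_zero, pow_one]
        have : 0 ≤ ((l : ℝ) - 1) * ∑ r ∈ PR l w w, 1 / (r : ℝ) := by
          apply mul_nonneg hl1
          exact sum_nonneg fun r _ => by positivity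
        linarith
      | succ J ih =>
        have hwJ : 2 ≤ w ^ 2 ^ J := by
          calc 2 ≤ w := hw2
            _ = w ^ 1 := (pow_one w).symm
            _ ≤ w ^ 2 ^ J := Nat.pow_le_pow_right (by omega) Nat.one_le_two_pow
        have hle1 : w ≤ w ^ 2 ^ J := by
          calc w = w ^ 1 := (pow_one w).symm
            _ ≤ w ^ 2 ^ J := Nat.pow_le_pow_right (by omega) Nat.one_le_two_pow
        have hlogJ : Real.log ((w ^ 2 ^ J : ℕ) : ℝ) = 2 ^ J * Real.log w := by
          push_cast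
          rw [Real.log_pow]
          push_cast
          ring
        have h2J : (1 : ℝ) ≤ 2 ^ J := one_le_pow₀ (by norm_num)
        have hb := block (c := c) (C := C) (K := K) (B := B) (ex := ex) hc hC hB.le hK h2 hmain
          hBTB hl (w := w ^ 2 ^ J) hwJ (s := 2 ^ J) h2J
          (by
            rw [hlogJ, mul_assoc]
            apply mul_le_mul_of_nonneg_left _ (by positivity)
            linarith)
          (by
            rw [hlogJ]
            have h9 : EX ex K l ≤ Real.log w := by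
              have : 0 ≤ (C + 3) * (1 + Real.log l) := by positivity
              linarith
            nlinarith)
        have e1 : (w ^ 2 ^ J) ^ 2 = w ^ 2 ^ (J + 1) := by
          rw [← pow_mul, ← pow_succ]
        rw [e1] at hb
        have hle2 : w ^ 2 ^ J ≤ w ^ 2 ^ (J + 1) :=
          Nat.pow_le_pow_right (by omega) (Nat.pow_le_pow_right (by norm_num) (by omega))
        rw [pr_sum hle1 hle2, mul_add ((l : ℝ) - 1)]
        have e2 : ((J + 1 : ℕ) : ℝ) * Real.log 2 - 2 * D * (1 - 1 / 2 ^ (J + 1)) =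
            ((J : ℝ) * Real.log 2 - 2 * D * (1 - 1 / 2 ^ J)) + (Real.log 2 - D / 2 ^ J) := by
          push_cast
          rw [pow_succ]
          field_simp
          ring
        rw [e2]
        exact _root_.add_le_add ih hb
    have hz0 : (0 : ℝ) < z := by
      have : 0 < z := by omega
      exact_mod_cast this
    have hlogle : Real.log w ≤ Real.log z := Real.log_le_log hw0 (by exact_mod_cast hwz)
    have hq : 1 ≤ Real.log z / Real.log w := by rwa [one_le_div hlw0]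
    obtain ⟨J, hJ1, hJ2⟩ := exists_nat_pow_near hq (by norm_num : (1 : ℝ) < 2)
    have hwJ : w ^ 2 ^ J ≤ z := by
      have h5 : 2 ^ J * Real.log w ≤ Real.log z := by
        rwa [le_div_iff₀ hlw0] at hJ1
      have h6 : ((w : ℝ)) ^ 2 ^ J ≤ z := by
        rw [← Real.exp_log hz0]
        calc ((w : ℝ)) ^ 2 ^ J = Real.exp (Real.log w) ^ 2 ^ J := by rw [Real.exp_log hw0]
          _ = Real.exp (2 ^ J * Real.log w) := by
              rw [← Real.exp_nat_mul]
              push_cast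
              ring_nf
          _ ≤ _ := Real.exp_le_exp.2 h5
      exact_mod_cast h6
    have h7 : Real.log (Real.log z / Real.log w) ≤ ((J : ℝ) + 1) * Real.log 2 := by
      have h8 := Real.log_le_log (by linarith) hJ2.le
      rw [Real.log_pow] at h8
      push_cast at h8
      exact h8
    have hle1 : w ≤ w ^ 2 ^ J := by
      calc w = w ^ 1 := (pow_one w).symm
        _ ≤ w ^ 2 ^ J := Nat.pow_le_pow_right (by omega) Nat.one_le_two_pow
    have h9 := blocks J
    rw [pr_sum hle1 hwJ, mul_add ((l : ℝ) - 1)]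
    have h10 : 0 ≤ ((l : ℝ) - 1) * ∑ r ∈ PR l (w ^ 2 ^ J) z, 1 / (r : ℝ) := by
      apply mul_nonneg hl1
      exact sum_nonneg fun r _ => by positivity
    have h11 : 2 * D * (1 - 1 / 2 ^ J) ≤ 2 * D := by
      have : (0 : ℝ) ≤ 1 / 2 ^ J := by positivity
      nlinarith
    have h12 : C1 + C2 ≥ Real.log 2 + 2 * D := by linarith
    linarith

end Pool.Agent.Work.MP_495a89_nt
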