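import Pool.Agent.Work.MP_495a89_nt.Interface
import Pool.Agent.Work.MP_2738db_nt_Z_helper49.SUP

/-!
Block AP1 (helper91): primes `1` modulo a prime `l` from `exp (C (1 + log l))` on, with a relative
error summable over the scales, for all `l` outside one exceptional modulus at each height.
-/

set_option autoImplicit false

namespace Pool.Agent.Work.MP_495a89_nt

open Finset ArithmeticFunction
open Pool.Agent.PS
open Pool.Agent.Work.MP_2738db_nt_Z.helper49 (psi_ap chi_pr zsum pr_one_eq)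
open scoped Classical

/-- `SUP.core` with a general bound `g` for the sum over the zeros -/
theorem core' {Z : ℕ} (hZ : 1 ≤ Z) (d : ℕ) (hd : 0 < d) (hdZ : d ≤ Z) (Y : ℝ)
    (hY : 1 ≤ Y) (E g : ℝ)
    (hEF : ∀ x ∈ Fam Z,
      ‖∑ n ∈ Ioc ⌊(1 : ℝ)⌋₊ ⌊Y⌋₊, (Λ n : ℂ) * x.2 (n : ZMod x.1)
          - (if x.2 = 1 then ((Y - 1 : ℝ) : ℂ) else 0)
          + ((zl x Z).map fun ρ => Complex.exp (ρ ^ 2 / (2 * Z)) *
              (((Y : ℂ) ^ ρ - (((1 : ℝ) : ℂ)) ^ ρ) / ρ)).sum‖ ≤ E)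
    (G : Ch → ℝ) (hG : ∀ x, 0 ≤ G x) (hGs : ∑ x ∈ Fam Z, G x ≤ g)
    (hGx : ∀ x ∈ Fam Z, x.1 ∣ d → zs (zl x Z) Y ≤ G x) :
    (1 - 5 * g) * Y - 1 - d.totient * (E + Real.log d * Real.log ⌊Y⌋₊ / Real.log 2)
      ≤ d.totient * ∑ n ∈ (Ioc 1 ⌊Y⌋₊).filter (fun n => n % d = 1 % d), Λ n := by
  have : NeZero d := ⟨hd.ne'⟩
  set N := ⌊Y⌋₊ with hN
  set B := Real.log d * Real.log N / Real.log 2 with hB
  have hZr : (1 : ℝ) ≤ Z := by exact_mod_cast hZ
  have h1 := congrArg Complex.re (psi_ap d hd (Ioc 1 N))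
  have h2 : ((d.totient : ℂ) * ∑ n ∈ (Ioc 1 N).filter (fun n => n % d = 1 % d), (Λ n : ℂ)).re
      = d.totient * ∑ n ∈ (Ioc 1 N).filter (fun n => n % d = 1 % d), Λ n := by
    rw [← Complex.ofReal_sum, ← Complex.ofReal_natCast, ← Complex.ofReal_mul, Complex.ofReal_re]
  rw [h2, Complex.re_sum] at h1
  rw [← h1]
  have h3 : ∀ χ : DirichletCharacter ℂ d,
      (if χ = 1 then Y - 1 else 0) - 5 * Y * G (pr χ) - (E + B)
        ≤ (∑ n ∈ Ioc 1 N, (Λ n : ℂ) * χ (n : ZMod d)).re := by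
    intro χ
    have hx : pr χ ∈ Fam Z := pr_mem hd hdZ χ
    have e1 := hEF (pr χ) hx
    rw [Nat.floor_one] at e1
    have e2 := chi_pr d N hd χ
    have e3 : ‖((zl (pr χ) Z).map fun ρ => Complex.exp (ρ ^ 2 / (2 * Z)) *
        (((Y : ℂ) ^ ρ - (((1 : ℝ) : ℂ)) ^ ρ) / ρ)).sum‖ ≤ 5 * Y * zs (zl (pr χ) Z) Y := by
      refine zsum _ (fun ρ hρ => ?_) Z Y hZr hY
      have h := (stmt_ZSPEC Z (pr χ) (Fam_pos hx).1.ne').2.2 ρ hρ
      exact ⟨h.2.1, h.2.2.1.le⟩
    have e4 : zs (zl (pr χ) Z) Y ≤ G (pr χ) := hGx _ hx χ.conductor_dvd_level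
    have e5 : 5 * Y * zs (zl (pr χ) Z) Y ≤ 5 * Y * G (pr χ) := by gcongr
    set S := ∑ n ∈ Ioc 1 N, (Λ n : ℂ) * χ (n : ZMod d)
    set S' := ∑ n ∈ Ioc 1 N, (Λ n : ℂ) * (pr χ).2 (n : ZMod (pr χ).1)
    set U := ((zl (pr χ) Z).map fun ρ => Complex.exp (ρ ^ 2 / (2 * Z)) *
        (((Y : ℂ) ^ ρ - (((1 : ℝ) : ℂ)) ^ ρ) / ρ)).sum
    have a1 : |(S - S').re| ≤ B := (Complex.abs_re_le_norm _).trans e2
    have a2 : |U.re| ≤ 5 * Y * G (pr χ) := (Complex.abs_re_le_norm _).trans (e3.trans e5)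
    have a3 := (Complex.abs_re_le_norm _).trans e1
    rw [abs_le] at a1 a2 a3
    rw [Complex.sub_re] at a1
    rw [Complex.add_re, Complex.sub_re] at a3
    have a4 : (if χ = 1 then Y - 1 else 0) ≤ (if (pr χ).2 = 1 then ((Y - 1 : ℝ) : ℂ) else 0).re := by
      by_cases hc : χ = 1
      · subst hc
        rw [if_pos rfl, if_pos (pr_one_eq d hd), Complex.ofReal_re]
      · rw [if_neg hc]
        split_ifs
        · rw [Complex.ofReal_re]; linarith
        · simp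
    linarith [a1.1, a2.1, a2.2, a3.1]
  have h4 := sum_le_sum (s := (univ : Finset (DirichletCharacter ℂ d))) fun χ _ => h3 χ
  refine le_trans ?_ h4
  rw [sum_sub_distrib, sum_sub_distrib, ← mul_sum, sum_const, card_univ, Fintype.card_eq_nat_card,
    DirichletCharacter.card_eq_totient_of_hasEnoughRootsOfUnity ℂ d, nsmul_eq_mul,
    sum_ite_eq' univ (1 : DirichletCharacter ℂ d), if_pos (mem_univ _)]
  have h5 := (sum_pr_le hd hdZ G hG).trans hGs
  have h6 : 5 * Y * ∑ χ : DirichletCharacter ℂ d, G (pr χ) ≤ 5 * Y * g := by gcongr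
  linarith

/-- from `Λ` to primes -/
theorem sum_pr (l N : ℕ) (hl : l.Prime) (hN : 1 ≤ N) :
    ∑ n ∈ (Ioc 1 N).filter (fun n => n % l = 1 % l), Λ n
      ≤ ∑ r ∈ PR l 1 N, Real.log r + 2 * √(N : ℝ) * Real.log N := by
  have h1l : 1 % l = 1 := Nat.mod_eq_of_lt hl.one_lt
  have h1 : ∑ n ∈ (Ioc 1 N).filter (fun n => n % l = 1 % l), Λ n
      ≤ ∑ n ∈ PR l 1 N, Real.log n + ∑ b ∈ (Ioc 0 N).filter (fun b => ¬ b.Prime), Λ b := by
    rw [← sum_filter_add_sum_filter_not ((Ioc 1 N).filter (fun n => n % l = 1 % l))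
      (fun n => n.Prime)]
    refine add_le_add ?_ ?_
    · refine (sum_congr rfl (g := fun n : ℕ => Real.log n) fun n hn => ?_).le.trans ?_
      · rw [mem_filter] at hn
        exact vonMangoldt_apply_prime hn.2
      · refine sum_le_sum_of_subset_of_nonneg ?_ fun n _ _ => Real.log_natCast_nonneg n
        intro n hn
        rw [mem_filter, mem_filter, h1l] at hn
        unfold PR
        rw [mem_filter]
        exact ⟨hn.1.1, hn.2, hn.1.2⟩
    · refine sum_le_sum_of_subset_of_nonneg ?_ fun n _ _ => vonMangoldt_nonneg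
      intro n hn
      rw [mem_filter, mem_filter, mem_Ioc] at hn
      rw [mem_filter, mem_Ioc]
      exact ⟨⟨by omega, hn.1.1.2⟩, hn.2⟩
  exact h1.trans (add_le_add le_rfl (nonprime_sum N hN))

/-- the sum over the zeros at a large height, from a small one -/
theorem zs_pow (N Y0 : ℝ) (m : ℕ) (hY0 : 1 ≤ Y0) (hm : 1 ≤ m) (hN : Y0 ^ m ≤ N)
    (L : List ℂ) (h1 : ∀ ρ ∈ L, ρ.re < 1) (s : ℝ) (hs : zs L Y0 ≤ s) :
    zs L N ≤ s ^ (m - 1) * zs L Y0 := by
  have hY : 0 < Y0 := by linarith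
  have hterm : ∀ ρ ∈ L, Y0 ^ (ρ.re - 1) ≤ s := by
    intro ρ hρ
    refine le_trans ?_ hs
    unfold zs
    refine List.single_le_sum ?_ _ (List.mem_map.2 ⟨ρ, hρ, rfl⟩)
    intro x hx
    obtain ⟨y, _, rfl⟩ := List.mem_map.1 hx
    exact Real.rpow_nonneg hY.le _
  have hstep : ∀ ρ ∈ L, N ^ (ρ.re - 1) ≤ s ^ (m - 1) * Y0 ^ (ρ.re - 1) := by
    intro ρ hρ
    have e1 : N ^ (ρ.re - 1) ≤ (Y0 ^ m) ^ (ρ.re - 1) :=
      Real.rpow_le_rpow_of_nonpos (by positivity) hN (by linarith [h1 ρ hρ])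
    have e2 : (Y0 ^ m) ^ (ρ.re - 1) = (Y0 ^ (ρ.re - 1)) ^ m := by
      rw [← Real.rpow_natCast, ← Real.rpow_mul hY.le, mul_comm, Real.rpow_mul hY.le,
        Real.rpow_natCast]
    have e3 : (Y0 ^ (ρ.re - 1)) ^ m = (Y0 ^ (ρ.re - 1)) ^ (m - 1) * Y0 ^ (ρ.re - 1) := by
      rw [← pow_succ, Nat.sub_add_cancel hm]
    rw [e2, e3] at e1
    refine e1.trans ?_
    have e4 : 0 ≤ Y0 ^ (ρ.re - 1) := Real.rpow_nonneg hY.le _
    have e5 := hterm ρ hρ
    gcongr
  clear hterm hs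
  unfold zs
  induction L with
  | nil => simp
  | cons a L ih =>
    have i1 := ih (fun ρ hρ => h1 ρ (List.mem_cons_of_mem _ hρ))
      (fun ρ hρ => hstep ρ (List.mem_cons_of_mem _ hρ))
    have i2 := hstep a List.mem_cons_self
    simp only [List.map_cons, List.sum_cons, mul_add]
    linarith

theorem lin (lam s A : ℝ) (hlam : 1 ≤ lam) (hs : 0 ≤ s) (h : s ≤ A) : s ≤ lam * A := by
  nlinarith

/-- the numbers -/
theorem num' (κ C0 s lam T N : ℝ) (l Z : ℕ) (hC : 0 ≤ C0) (hlam : 1 ≤ lam)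
    (hs : 400 ≤ s) (hT : T = s ^ 2 * lam) (hl : (l : ℝ) ≤ Real.exp lam)
    (hlog : Real.log l ≤ lam) (hZ1 : Real.log Z ≤ 3 * s * lam)
    (hZ2 : 4 / 3 * s * lam ≤ Real.log Z) (hZ0 : (0 : ℝ) < Z) (hN : Real.exp T ≤ N)
    (P g : ℝ) (hg : g ≤ 100 * Real.exp (-(κ / 3 * s)))
    (hcore : (1 - 5 * g) * N - 1 - l.totient *
      (C0 * (N * (Z : ℝ) ^ (-(1 / 3) : ℝ) + (Z : ℝ) ^ 5 * N ^ (19 / 20 : ℝ))
        + Real.log l * Real.log N / Real.log 2)
      ≤ l.totient * (P + 2 * √N * Real.log N)) :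
    (1 - (513 + 2 * C0) * Real.exp (-(min (κ / 3) (1 / 9) * s))) * N ≤ l.totient * P := by
  have hs0 : 0 ≤ s := by linarith
  have hN0 : 0 < N := (Real.exp_pos T).trans_le hN
  set t := Real.log N with ht
  have hNt : N = Real.exp t := (Real.exp_log hN0).symm
  have hTt : T ≤ t := by rw [hNt] at hN; exact Real.exp_le_exp.1 hN
  have hφ : (l.totient : ℝ) ≤ Real.exp lam := (Nat.cast_le.2 (Nat.totient_le l)).trans hl
  have hφ0 : (0 : ℝ) ≤ l.totient := Nat.cast_nonneg _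
  set e := Real.exp (-(min (κ / 3) (1 / 9) * s)) with he
  have hmin1 : min (κ / 3) (1 / 9) ≤ κ / 3 := min_le_left _ _
  have hmin2 : min (κ / 3) (1 / 9) ≤ 1 / 9 := min_le_right _ _
  have hE1 : Real.exp (-(κ / 3 * s)) ≤ e := Real.exp_le_exp.2 (by nlinarith)
  have hE2 : Real.exp (-(1 / 9 * s)) ≤ e := Real.exp_le_exp.2 (by nlinarith)
  have hE3 : Real.exp (-s) ≤ e := (Real.exp_le_exp.2 (by linarith)).trans hE2
  have ht0 : 0 ≤ t := by
    have : 0 ≤ T := by rw [hT]; positivity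
    linarith
  have hss : 400 * s ≤ s ^ 2 := by nlinarith
  have hpos : 0 < Real.exp t := Real.exp_pos t
  -- (i)
  have a1 : 5 * g * N ≤ 500 * e * N := by
    apply mul_le_mul_of_nonneg_right _ hN0.le
    linarith
  -- (ii)
  have a2 : l.totient * (C0 * (N * (Z : ℝ) ^ (-(1 / 3) : ℝ))) ≤ C0 * e * N := by
    have e1 : (Z : ℝ) ^ (-(1 / 3) : ℝ) ≤ Real.exp (-(4 / 9 * s * lam)) := by
      rw [Real.rpow_def_of_pos hZ0]
      apply Real.exp_le_exp.2
      linarith
    have e2 : Real.exp lam * Real.exp (-(4 / 9 * s * lam)) ≤ e := by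
      rw [← Real.exp_add]
      refine (Real.exp_le_exp.2 ?_).trans hE2
      have := lin lam (1 / 9 * s) (4 / 9 * s - 1) hlam (by linarith) (by linarith)
      linarith
    calc l.totient * (C0 * (N * (Z : ℝ) ^ (-(1 / 3) : ℝ)))
        ≤ Real.exp lam * (C0 * (N * Real.exp (-(4 / 9 * s * lam)))) := by gcongr
      _ = C0 * N * (Real.exp lam * Real.exp (-(4 / 9 * s * lam))) := by ring
      _ ≤ C0 * N * e := by gcongr
      _ = _ := by ring
  -- (iii)
  have a3 : l.totient * (C0 * ((Z : ℝ) ^ 5 * N ^ (19 / 20 : ℝ))) ≤ C0 * e * N := by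
    have e1 : N ^ (19 / 20 : ℝ) = Real.exp t * Real.exp (-(t / 20)) := by
      rw [hNt, ← Real.exp_mul, ← Real.exp_add]; congr 1; ring
    have e2 : (Z : ℝ) ^ 5 ≤ Real.exp (15 * s * lam) := by
      have : (Z : ℝ) = Real.exp (Real.log Z) := (Real.exp_log hZ0).symm
      rw [this, ← Real.exp_nat_mul]
      apply Real.exp_le_exp.2
      push_cast
      linarith
    have e3 : Real.exp lam * (Real.exp (15 * s * lam) * Real.exp (-(t / 20))) ≤ e := by
      rw [← Real.exp_add, ← Real.exp_add]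
      refine (Real.exp_le_exp.2 ?_).trans hE3
      have : lam + (15 * s * lam + -(T / 20)) ≤ -s := by
        rw [hT]
        have := lin lam s (s ^ 2 / 20 - 15 * s - 1) hlam hs0 (by linarith)
        linarith
      linarith
    calc l.totient * (C0 * ((Z : ℝ) ^ 5 * N ^ (19 / 20 : ℝ)))
        ≤ Real.exp lam * (C0 * (Real.exp (15 * s * lam) * (Real.exp t * Real.exp (-(t / 20))))) := by
          rw [e1]; gcongr
      _ = C0 * Real.exp t * (Real.exp lam * (Real.exp (15 * s * lam) * Real.exp (-(t / 20)))) := by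
          ring
      _ ≤ C0 * Real.exp t * e := by gcongr
      _ = _ := by rw [← hNt]; ring
  -- (iv)
  have a4 : l.totient * (Real.log l * t / Real.log 2) ≤ 4 * e * N := by
    have hlog2 : 1 / 2 ≤ Real.log 2 := by linarith [Real.log_two_gt_d9]
    have e5 : 0 ≤ Real.log l := Real.log_natCast_nonneg _
    have e1 : Real.log l * t / Real.log 2 ≤ 4 * (Real.exp lam * Real.exp (t / 2)) := by
      rw [div_le_iff₀ (by linarith)]
      have e2 : t ≤ 2 * Real.exp (t / 2) := by linarith [Real.add_one_le_exp (t / 2)]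
      have e3 : Real.log l ≤ Real.exp lam := by linarith [Real.add_one_le_exp lam]
      calc Real.log l * t ≤ Real.exp lam * (2 * Real.exp (t / 2)) :=
            mul_le_mul e3 e2 ht0 (Real.exp_pos _).le
        _ = 4 * (Real.exp lam * Real.exp (t / 2)) * (1 / 2) := by ring
        _ ≤ 4 * (Real.exp lam * Real.exp (t / 2)) * Real.log 2 := by gcongr
    have e4 : Real.exp lam * (Real.exp lam * Real.exp (-(t / 2))) ≤ e := by
      rw [← Real.exp_add, ← Real.exp_add]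
      refine (Real.exp_le_exp.2 ?_).trans hE3
      have : lam + (lam + -(T / 2)) ≤ -s := by
        rw [hT]
        have := lin lam s (s ^ 2 / 2 - 2) hlam hs0 (by linarith)
        linarith
      linarith
    have e6 : Real.exp (t / 2) = Real.exp t * Real.exp (-(t / 2)) := by
      rw [← Real.exp_add]; congr 1; ring
    calc l.totient * (Real.log l * t / Real.log 2)
        ≤ Real.exp lam * (4 * (Real.exp lam * Real.exp (t / 2))) := by gcongr
      _ = 4 * Real.exp t * (Real.exp lam * (Real.exp lam * Real.exp (-(t / 2)))) := by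
          rw [e6]; ring
      _ ≤ 4 * Real.exp t * e := by gcongr
      _ = _ := by rw [← hNt]; ring
  -- (v)
  have a5 : l.totient * (2 * √N * t) ≤ 8 * e * N := by
    have e1 : √N = Real.exp (t / 2) := by rw [hNt, ← Real.exp_half]
    have e2 : t ≤ 4 * Real.exp (t / 4) := by linarith [Real.add_one_le_exp (t / 4)]
    have e4 : Real.exp lam * Real.exp (-(t / 4)) ≤ e := by
      rw [← Real.exp_add]
      refine (Real.exp_le_exp.2 ?_).trans hE3
      have : lam + -(T / 4) ≤ -s := by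
        rw [hT]
        have := lin lam s (s ^ 2 / 4 - 1) hlam hs0 (by linarith)
        linarith
      linarith
    have e6 : Real.exp (t / 2) * Real.exp (t / 4) = Real.exp t * Real.exp (-(t / 4)) := by
      rw [← Real.exp_add, ← Real.exp_add]; congr 1; ring
    calc l.totient * (2 * √N * t)
        ≤ Real.exp lam * (2 * Real.exp (t / 2) * (4 * Real.exp (t / 4))) := by
          rw [e1]; gcongr
      _ = 8 * (Real.exp (t / 2) * Real.exp (t / 4)) * Real.exp lam := by ring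
      _ = 8 * Real.exp t * (Real.exp lam * Real.exp (-(t / 4))) := by
          rw [e6]; ring
      _ ≤ 8 * Real.exp t * e := by gcongr
      _ = _ := by rw [← hNt]; ring
  -- (vi)
  have a6 : 1 ≤ e * N := by
    have e1 : Real.exp (-s) * Real.exp T ≤ e * N := mul_le_mul hE3 hN (Real.exp_pos _).le
      ((Real.exp_pos _).le)
    refine le_trans ?_ e1
    rw [← Real.exp_add]
    apply Real.one_le_exp
    rw [hT]
    have := lin lam s (s ^ 2) hlam hs0 (by linarith)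
    linarith
  have a7 : l.totient *
      (C0 * (N * (Z : ℝ) ^ (-(1 / 3) : ℝ) + (Z : ℝ) ^ 5 * N ^ (19 / 20 : ℝ))
        + Real.log l * t / Real.log 2) =
      l.totient * (C0 * (N * (Z : ℝ) ^ (-(1 / 3) : ℝ)))
      + l.totient * (C0 * ((Z : ℝ) ^ 5 * N ^ (19 / 20 : ℝ)))
      + l.totient * (Real.log l * t / Real.log 2) := by ring
  rw [a7, mul_add] at hcore
  nlinarith

/-- the height -/
noncomputable def Zi (i : ℕ) : ℕ := ⌊Real.exp (2 ^ i)⌋₊

theorem Zi_le (i : ℕ) : (Zi i : ℝ) ≤ Real.exp (2 ^ i) := Nat.floor_le (Real.exp_pos _).le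

theorem Zi_log (i : ℕ) : (2 : ℝ) ^ i / 4 ≤ Real.log (Zi i) := by
  set t : ℝ := 2 ^ i with ht
  have ht1 : 1 ≤ t := one_le_pow₀ (by norm_num)
  set x := Real.exp (t / 4) with hx
  have hx1 : 5 / 4 ≤ x := by linarith [Real.add_one_le_exp (t / 4)]
  have hx4 : Real.exp t = x ^ 4 := by
    rw [hx, ← Real.exp_nat_mul]; congr 1; push_cast; ring
  have h1 : Real.exp t < Zi i + 1 := Nat.lt_floor_add_one _
  have h2 : x + 1 ≤ x ^ 4 := by
    have h3 : (5 / 4 : ℝ) ^ 3 ≤ x ^ 3 := by gcongr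
    have h4 : x ^ 4 = x * x ^ 3 := by ring
    rw [h4]
    nlinarith
  have h3 : x ≤ Zi i := by linarith
  calc t / 4 = Real.log x := (Real.log_exp _).symm
    _ ≤ Real.log (Zi i) := Real.log_le_log (Real.exp_pos _) h3

theorem Zi_pos (i : ℕ) : 1 ≤ Zi i := by
  apply Nat.le_floor
  rw [Nat.cast_one]
  exact Real.one_le_exp (by positivity)

/-- one height -/
theorem height (κ : ℝ) (hκ : 0 < κ) (Z0 : ℕ)
    (hzs : ∀ Z : ℕ, Z0 ≤ Z → ∀ Y : ℝ, 1 ≤ Y → (Z : ℝ) ≤ Y ^ κ →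
      ∑ x ∈ Fam Z, zs (zl x Z) Y ≤ 1 / 100 ∨
      ∃ (y : Ch) (δ : ℝ), Exc Z y δ ∧ δ ≤ 1 / Real.log Z ∧
        ∑ x ∈ Fam Z, zs (zx Z y δ x) Y ≤ 1 / 100 * min 1 (δ * Real.log Y)) (i : ℕ) :
    ∃ e : ℕ, (e ≠ 0 → ∃ (y : Ch) (δ : ℝ), Exc (Zi i) y δ ∧ δ ≤ 1 / Real.log (Zi i) ∧ y.1 = e) ∧
      (Z0 ≤ Zi i → ∃ Lx : Ch → List ℂ,
        ∑ x ∈ Fam (Zi i), zs (Lx x) (Real.exp (Real.log (Zi i) / κ)) ≤ 1 / 100 ∧
        ∀ x : Ch, x.1 = 1 ∨ x.1 ≠ e → Lx x = zl x (Zi i)) := by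
  by_cases hZ : Z0 ≤ Zi i
  · have hlog : 0 ≤ Real.log (Zi i) := Real.log_natCast_nonneg _
    have hY1 : 1 ≤ Real.exp (Real.log (Zi i) / κ) := Real.one_le_exp (by positivity)
    have hZY : (Zi i : ℝ) ≤ Real.exp (Real.log (Zi i) / κ) ^ κ := by
      rw [← Real.exp_mul, div_mul_cancel₀ _ hκ.ne', Real.exp_log]
      exact_mod_cast Zi_pos i
    rcases hzs (Zi i) hZ _ hY1 hZY with h | ⟨y, δ, hE, hδ, h⟩
    · exact ⟨0, fun h0 => absurd rfl h0, fun _ => ⟨fun x => zl x (Zi i), h, fun x _ => rfl⟩⟩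
    · refine ⟨y.1, fun _ => ⟨y, δ, hE, hδ, rfl⟩, fun _ => ⟨fun x => zx (Zi i) y δ x, ?_, ?_⟩⟩
      · refine h.trans ?_
        have : min 1 (δ * Real.log (Real.exp (Real.log (Zi i) / κ))) ≤ 1 := min_le_left _ _
        linarith
      · intro x hx
        have hxy : x ≠ y := by
          rintro rfl
          rcases hx with hx | hx
          · have h2 : ∀ z : Ch, z.1 = 1 → z.2 = 1 := by
              rintro ⟨q, χ⟩ h
              simp only at h
              subst h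
              exact DirichletCharacter.level_one χ
            exact hE.ne (h2 _ hx)
          · exact hx rfl
        show zx (Zi i) y δ x = zl x (Zi i)
        unfold zx
        rw [if_neg hxy]
  · exact ⟨0, fun h0 => absurd rfl h0, fun h => absurd h hZ⟩

theorem stmt_AP1 : Stmt_AP1 := by
  obtain ⟨κ, hκ, Z0, hzs⟩ := main_zs (1 / 100) (by norm_num)
  obtain ⟨C0, hC0, hef⟩ := main_ef
  choose ex hex1 hex2 using height κ hκ Z0 hzs
  obtain ⟨S0, hS1, hS2, hS3⟩ : ∃ S0 : ℝ, 400 ≤ S0 ∧ 6 / κ ≤ S0 ∧ ((Z0 + ⌈C0⌉₊ + 3 : ℕ) : ℝ) ≤ S0 :=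
    ⟨max 400 (max (6 / κ) ((Z0 + ⌈C0⌉₊ + 3 : ℕ) : ℝ)), le_max_left _ _,
      (le_max_left _ _).trans (le_max_right _ _), (le_max_right _ _).trans (le_max_right _ _)⟩
  refine ⟨min (κ / 3) (1 / 9), S0 ^ 2 + 513 + 2 * C0, by positivity, by nlinarith, ex, ?_, ?_⟩
  · intro ε hε
    obtain ⟨c, hc, hsieg⟩ := stmt_SIEG ε hε
    refine ⟨4 / c, fun i hi => ?_⟩
    obtain ⟨y, δ, hE, hδ, hy⟩ := hex1 i hi
    have h1 := hsieg _ y δ hE
    rw [hy] at h1
    have h2 := Zi_log i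
    have h3 : (0 : ℝ) < 2 ^ i := by positivity
    have h4 : 0 < Real.log (Zi i) := by linarith
    have he : (0 : ℝ) < ex i := by exact_mod_cast Nat.pos_of_ne_zero hi
    have h5 : c * (ex i : ℝ) ^ (-ε) ≤ 1 / Real.log (Zi i) := h1.trans hδ
    rw [Real.rpow_neg he.le, le_div_iff₀ h4] at h5
    have h6 : 0 < (ex i : ℝ) ^ ε := Real.rpow_pos_of_pos he _
    have h7 : c * Real.log (Zi i) ≤ (ex i : ℝ) ^ ε := by
      calc c * Real.log (Zi i)
          = (c * ((ex i : ℝ) ^ ε)⁻¹ * Real.log (Zi i)) * (ex i : ℝ) ^ ε := by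
            field_simp
        _ ≤ 1 * (ex i : ℝ) ^ ε := by gcongr
        _ = _ := one_mul _
    rw [div_mul_eq_mul_div, le_div_iff₀ hc]
    nlinarith
  · intro l hl T i hT h1 h2 hexl N hN1 hN2
    set lam := 1 + Real.log l with hlam
    have hl2 : (2 : ℝ) ≤ l := by exact_mod_cast hl.two_le
    have hlogl : 0.69 ≤ Real.log l := by
      have := Real.log_le_log (by norm_num : (0 : ℝ) < 2) hl2
      linarith [Real.log_two_gt_d9]
    have hlam1 : 1.69 ≤ lam := by linarith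
    have hlam0 : 0 < lam := by linarith
    set s := √(T / lam) with hs
    have hTl : S0 ^ 2 ≤ T / lam := by
      rw [le_div_iff₀ hlam0]
      nlinarith
    have hss : s ^ 2 = T / lam := Real.sq_sqrt (by nlinarith)
    have hTs : T = s ^ 2 * lam := by rw [hss]; field_simp
    have hsS : S0 ≤ s := Real.le_sqrt_of_sq_le hTl
    have hs400 : 400 ≤ s := hS1.trans hsS
    have hsq : √(T * lam) = s * lam := by
      rw [hTs, show s ^ 2 * lam * lam = (s * lam) ^ 2 by ring]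
      exact Real.sqrt_sq (by positivity)
    rw [hsq] at h1 h2
    rw [pow_succ] at h2
    set Z := Zi i with hZd
    have hslam : s ≤ s * lam := by nlinarith
    have hZM : Z0 + ⌈C0⌉₊ + 3 ≤ Z := by
      apply Nat.le_floor
      have := Real.add_one_le_exp ((2 : ℝ) ^ i)
      linarith
    have hZr : (3 : ℝ) ≤ Z := by exact_mod_cast (by omega : 3 ≤ Z)
    have hZ0 : (0 : ℝ) < Z := by linarith
    have hZC : C0 ≤ Z := (Nat.le_ceil C0).trans (by exact_mod_cast (by omega : ⌈C0⌉₊ ≤ Z))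
    have hZ1 : Real.log Z ≤ 3 * s * lam := by
      have : Real.log Z ≤ 2 ^ i := by
        rw [← Real.log_exp (2 ^ i)]
        exact Real.log_le_log hZ0 (Zi_le i)
      linarith
    have hZ2 : 4 / 3 * s * lam ≤ Real.log Z := by
      have e1 : Real.exp (2 ^ i) < Z + 1 := Nat.lt_floor_add_one _
      have e2 : Real.exp (2 ^ i) ≤ 2 * Z := by linarith
      have e3 : (2 : ℝ) ^ i ≤ Real.log 2 + Real.log Z := by
        rw [← Real.log_mul (by norm_num) hZ0.ne', ← Real.log_exp (2 ^ i)]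
        exact Real.log_le_log (Real.exp_pos _) e2
      linarith [Real.log_two_lt_d9]
    have hlogZ : 0 < Real.log Z := by nlinarith
    have hlexp : (l : ℝ) ≤ Real.exp lam := by
      rw [hlam, Real.exp_add, Real.exp_log (by linarith)]
      nlinarith [Real.add_one_le_exp (1 : ℝ)]
    have hlZ : l ≤ Z := by
      have e1 : Real.log l ≤ Real.log Z := by nlinarith
      have e2 : (l : ℝ) ≤ Z := (Real.log_le_log_iff (by linarith) hZ0).1 e1
      exact_mod_cast e2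
    obtain ⟨Lx, hLx1, hLx2⟩ := hex2 i (by omega)
    set Y0 := Real.exp (Real.log Z / κ) with hY0
    have hY1 : 1 ≤ Y0 := Real.one_le_exp (by positivity)
    set m := ⌊T / (Real.log Z / κ)⌋₊ with hm
    have hT0 : 0 < T := by rw [hTs]; positivity
    have hquot : κ / 3 * s ≤ T / (Real.log Z / κ) := by
      rw [le_div_iff₀ (by positivity), hTs]
      calc κ / 3 * s * (Real.log Z / κ) = s * Real.log Z / 3 := by field_simp
        _ ≤ s * (3 * s * lam) / 3 := by gcongr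
        _ = s ^ 2 * lam := by ring
    have hκs : 2 ≤ κ / 3 * s := by
      have : 6 / κ ≤ s := hS2.trans hsS
      rw [div_le_iff₀ hκ] at this
      linarith
    have hm1 : 1 ≤ m := by
      apply Nat.le_floor
      rw [Nat.cast_one]
      linarith
    have hm2 : κ / 3 * s ≤ m + 1 := by
      have : T / (Real.log Z / κ) < m + 1 := Nat.lt_floor_add_one _
      linarith
    have hYN : Y0 ^ m ≤ N := by
      refine le_trans ?_ hN1
      rw [hY0, ← Real.exp_nat_mul]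
      apply Real.exp_le_exp.2
      have : (m : ℝ) ≤ T / (Real.log Z / κ) := Nat.floor_le (by positivity)
      rwa [le_div_iff₀ (by positivity)] at this
    have hNr : (1 : ℝ) ≤ N := le_trans (Real.one_le_exp hT0.le) hN1
    have hN1' : 1 ≤ N := by exact_mod_cast hNr
    have hG0 : ∀ x : Ch, 0 ≤ (1 / 100 : ℝ) ^ (m - 1) * zs (Lx x) Y0 := fun x =>
      mul_nonneg (by positivity) (zs_nonneg _ _ (by linarith))
    have hGs : ∑ x ∈ Fam Z, (1 / 100 : ℝ) ^ (m - 1) * zs (Lx x) Y0 ≤ (1 / 100) ^ m := by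
      rw [← mul_sum]
      calc (1 / 100 : ℝ) ^ (m - 1) * ∑ x ∈ Fam Z, zs (Lx x) Y0
          ≤ (1 / 100 : ℝ) ^ (m - 1) * (1 / 100) := by gcongr
        _ = (1 / 100) ^ m := by rw [← pow_succ, Nat.sub_add_cancel hm1]
    have hGx : ∀ x ∈ Fam Z, x.1 ∣ l →
        zs (zl x Z) (N : ℝ) ≤ (1 / 100 : ℝ) ^ (m - 1) * zs (Lx x) Y0 := by
      intro x hx hxl
      have e1 : x.1 = 1 ∨ x.1 ≠ ex i := by
        rcases (Nat.dvd_prime hl).1 hxl with h | h
        · exact Or.inl h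
        · right; rw [h]; exact fun h => hexl h.symm
      have e2 : zs (Lx x) Y0 ≤ 1 / 100 :=
        (single_le_sum (f := fun x => zs (Lx x) Y0)
          (fun x _ => zs_nonneg _ _ (by linarith)) hx).trans hLx1
      rw [hLx2 x e1] at e2 ⊢
      exact zs_pow N Y0 m hY1 hm1 hYN _
        (fun ρ hρ => ((stmt_ZSPEC Z x (Fam_pos hx).1.ne').2.2 ρ hρ).2.2.1) _ e2
    have hNZ : (N : ℝ) ≤ Real.exp ((Real.log Z) ^ 2) := by
      refine hN2.trans (Real.exp_le_exp.2 ?_)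
      have e1 : (4 / 3 * s * lam) ^ 2 ≤ (Real.log Z) ^ 2 := by gcongr
      have e2 : (4 / 3 * s * lam) ^ 2 = 16 / 9 * lam * T := by rw [hTs]; ring
      rw [e2] at e1
      nlinarith
    have hcore := core' (by omega : 1 ≤ Z) l hl.pos hlZ (N : ℝ) hNr _ ((1 / 100) ^ m)
      (fun x hx => hef Z hZC x hx 1 N le_rfl hNr hNZ) _ hG0 hGs hGx
    rw [Nat.floor_natCast] at hcore
    have hpr := sum_pr l N hl hN1'
    have hφ0 : (0 : ℝ) ≤ l.totient := Nat.cast_nonneg _
    have hg : ((1 : ℝ) / 100) ^ m ≤ 100 * Real.exp (-(κ / 3 * s)) := by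
      have e1 : ((1 : ℝ) / 100) ^ m = 100 * (1 / 100) ^ (m + 1) := by rw [pow_succ]; ring
      have e2 : (1 : ℝ) / 100 ≤ Real.exp (-1) := by
        rw [Real.exp_neg, ← one_div]
        exact one_div_le_one_div_of_le (Real.exp_pos _) (by linarith [Real.exp_one_lt_d9])
      rw [e1]
      apply mul_le_mul_of_nonneg_left _ (by norm_num)
      calc ((1 : ℝ) / 100) ^ (m + 1) ≤ Real.exp (-1) ^ (m + 1) := by gcongr
        _ = Real.exp (-(m + 1)) := by rw [← Real.exp_nat_mul]; congr 1; push_cast; ring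
        _ ≤ Real.exp (-(κ / 3 * s)) := Real.exp_le_exp.2 (by linarith)
    have hfin := num' κ C0 s lam T N l Z (by linarith) (by linarith) hs400 hTs hlexp
      (by linarith) hZ1 hZ2 hZ0 hN1 (∑ r ∈ PR l 1 N, Real.log r) _ hg
      (hcore.trans (mul_le_mul_of_nonneg_left hpr hφ0))
    rw [Nat.totient_prime hl, Nat.cast_sub hl.one_lt.le, Nat.cast_one] at hfin
    refine le_trans ?_ hfin
    apply mul_le_mul_of_nonneg_right _ (by linarith)
    have e1 := Real.exp_pos (-(min (κ / 3) (1 / 9) * s))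
    nlinarith [sq_nonneg S0]

end Pool.Agent.Work.MP_495a89_nt
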