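import Pool.Agent.Work.MP_495a89_nt.Interface
import Pool.Agent.Work.MP_2738db_nt_V.BTAP

/-! # Block BTB: upper bound from Brun-Titchmarsh -/

set_option autoImplicit false

namespace Pool.Agent.Work.MP_495a89_nt

open Finset

theorem stmt_BTB : Stmt_BTB := by
  refine ⟨330, by norm_num, ?_⟩
  intro l hl w hw
  have hl2 : 2 ≤ l := hl.two_le
  have hlw : l ≤ w := by
    refine le_trans ?_ hw
    calc l = l ^ 1 := (pow_one l).symm
      _ ≤ l ^ 3 := Nat.pow_le_pow_right (by omega) (by norm_num)
  have hw8 : 8 ≤ w := by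
    refine le_trans ?_ hw
    calc 8 = 2 ^ 3 := by norm_num
      _ ≤ l ^ 3 := Nat.pow_le_pow_left hl2 3
  have hl0 : (0 : ℝ) < l := by exact_mod_cast hl.pos
  have hl1 : (1 : ℝ) ≤ l := by exact_mod_cast hl.one_le
  have hw0 : (0 : ℝ) < w := by exact_mod_cast (by omega : 0 < w)
  have hw1 : (1 : ℝ) < w := by exact_mod_cast (by omega : 1 < w)
  have hlogw : 0 < Real.log w := Real.log_pos hw1
  have hbt := Pool.Agent.Work.MP_2738db_nt_V.bt_ap hl 0 w hlw
  rw [Nat.zero_add] at hbt
  set h : ℕ := w / l + 1 with hh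
  have hhlow : (w : ℝ) / l ≤ h := by
    rw [hh]
    push_cast
    exact (Nat.lt_floor_add_one ((w : ℝ) / l)).le.trans (by rw [Nat.floor_div_natCast, Nat.floor_natCast])
  have hhup : (h : ℝ) ≤ 2 * (w / l) := by
    have h1 : ((w / l : ℕ) : ℝ) ≤ (w : ℝ) / l := Nat.cast_div_le
    have h2 : (1 : ℝ) ≤ (w : ℝ) / l := by
      rw [le_div_iff₀ hl0, one_mul]
      exact_mod_cast hlw
    rw [hh]
    push_cast
    linarith
  have hlogh : 2 / 3 * Real.log w ≤ Real.log h := by
    have h1 : Real.log ((w : ℝ) / l) ≤ Real.log h :=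
      Real.log_le_log (by positivity) hhlow
    rw [Real.log_div hw0.ne' hl0.ne'] at h1
    have h2 : 3 * Real.log l ≤ Real.log w := by
      have h3 : Real.log ((l : ℝ) ^ 3) ≤ Real.log w :=
        Real.log_le_log (by positivity) (by exact_mod_cast hw)
      rw [Real.log_pow] at h3
      push_cast at h3
      linarith
    linarith
  have hlogh0 : 0 < Real.log h := by nlinarith
  have hcard : ((PR l 1 w).card : ℝ) ≤ 110 * (h : ℝ) / Real.log h := by
    refine le_trans ?_ hbt
    exact_mod_cast card_le_card (by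
      unfold PR
      apply filter_subset_filter
      intro x hx
      rw [mem_Ioc] at hx ⊢
      omega)
  have hsum : ∑ r ∈ PR l 1 w, Real.log r ≤ (PR l 1 w).card * Real.log w := by
    have h1 : ∀ r ∈ PR l 1 w, Real.log r ≤ Real.log w := by
      intro r hr
      unfold PR at hr
      rw [mem_filter, mem_Ioc] at hr
      apply Real.log_le_log
      · exact_mod_cast (by omega : 0 < r)
      · exact_mod_cast hr.1.2
    have := sum_le_card_nsmul (PR l 1 w) (fun r => Real.log r) (Real.log w) h1
    rwa [nsmul_eq_mul] at this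
  have h5 : ∑ r ∈ PR l 1 w, Real.log r ≤ 165 * h := by
    refine hsum.trans ?_
    calc ((PR l 1 w).card : ℝ) * Real.log w ≤ (110 * (h : ℝ) / Real.log h) * Real.log w :=
          mul_le_mul_of_nonneg_right hcard hlogw.le
      _ = 110 * (h : ℝ) * (Real.log w / Real.log h) := by ring
      _ ≤ 110 * (h : ℝ) * (3 / 2) := by
          apply mul_le_mul_of_nonneg_left _ (by positivity)
          rw [div_le_iff₀ hlogh0]
          linarith
      _ = 165 * h := by ring
  calc ((l : ℝ) - 1) * ∑ r ∈ PR l 1 w, Real.log r ≤ ((l : ℝ) - 1) * (165 * h) :=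
        mul_le_mul_of_nonneg_left h5 (by linarith)
    _ ≤ (l : ℝ) * (165 * (2 * (w / l))) := by
        apply mul_le_mul (by linarith) (by linarith) (by positivity) hl0.le
    _ = 330 * w := by field_simp; ring

end Pool.Agent.Work.MP_495a89_nt
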