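import Pool.Agent.Work.MP_495a89_nt.Interface
import Pool.Agent.Work.MP_2738db_nt_V.BTAP

/-!
Block BTS: Brun-Titchmarsh upper bound with weights `log r / r` (dyadic intervals).
-/

set_option autoImplicit false

namespace Pool.Agent.Work.MP_495a89_nt

open Finset

lemma bts_block {l : ℕ} (hl : l.Prime) (w z j : ℕ) (hw : l ^ 3 ≤ w) :
    ((l : ℝ) - 1) * ∑ r ∈ (PR l w z).filter (fun r => Nat.log 2 r = j), Real.log r / r ≤ 880 := by
  classical
  set P := (PR l w z).filter (fun r => Nat.log 2 r = j) with hP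
  have hl2 : 2 ≤ l := hl.two_le
  have hlR : (2 : ℝ) ≤ l := by exact_mod_cast hl2
  have hmem : ∀ p ∈ P, 2 ^ j ≤ p ∧ p < 2 ^ (j + 1) ∧ p.Prime ∧ p % l = 1 ∧ w < p := by
    intro p hp
    rw [hP, mem_filter] at hp
    unfold PR at hp
    rw [mem_filter, mem_Ioc] at hp
    have h3 : 2 ^ Nat.log 2 p ≤ p := Nat.pow_log_le_self 2 (by omega)
    have h4 : p < 2 ^ (Nat.log 2 p + 1) := Nat.lt_pow_succ_log_self (by norm_num) p
    rw [hp.2] at h3 h4
    exact ⟨h3, h4, hp.1.2.1, hp.1.2.2, hp.1.1.1⟩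
  rcases P.eq_empty_or_nonempty with hPe | ⟨p0, hp0⟩
  · rw [hPe]; simp
  obtain ⟨a1, a2, a3, a4, a5⟩ := hmem p0 hp0
  have hlsq : l ^ 2 ≤ 2 ^ j := by
    have h1 : l ^ 3 < 2 ^ (j + 1) := by omega
    have h2 : l ^ 3 = l ^ 2 * l := by ring
    have h3 : l ^ 2 * 2 ≤ l ^ 2 * l := Nat.mul_le_mul_left _ hl2
    rw [pow_succ 2 j] at h1
    omega
  have hlle : l ≤ 2 ^ j := by nlinarith
  have hj1 : 1 ≤ j := by
    rcases Nat.eq_zero_or_pos j with h | h
    · subst h
      simp at hlsq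
      omega
    · exact h
  have hjR : (1 : ℝ) ≤ j := by exact_mod_cast hj1
  have hlog2 : 0 < Real.log 2 := Real.log_pos (by norm_num)
  have hcard : (P.card : ℝ) ≤ 110 * ((2 ^ j / l + 1 : ℕ) : ℝ) / Real.log ((2 ^ j / l + 1 : ℕ) : ℝ) := by
    refine le_trans ?_ (MP_2738db_nt_V.bt_ap hl (2 ^ j - 1) (2 ^ j) hlle)
    have h5 : P ⊆ (Ioc (2 ^ j - 1) (2 ^ j - 1 + 2 ^ j)).filter (fun p => p.Prime ∧ p % l = 1) := by
      intro p hp
      obtain ⟨e1, e2, e3, e4, e5⟩ := hmem p hp
      rw [mem_filter, mem_Ioc]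
      have h6 : 1 ≤ 2 ^ j := Nat.one_le_two_pow
      rw [pow_succ] at e2
      exact ⟨⟨by omega, by omega⟩, e3, e4⟩
    exact_mod_cast card_le_card h5
  set H := 2 ^ j / l + 1 with hH
  have h2jR : (0 : ℝ) < 2 ^ j := by positivity
  have hl0 : (0 : ℝ) < l := by linarith
  have hHle : (H : ℝ) ≤ 2 * (2 ^ j / l) := by
    have h5 : ((2 ^ j / l : ℕ) : ℝ) ≤ (2 : ℝ) ^ j / l := by
      have := Nat.cast_div_le (α := ℝ) (m := 2 ^ j) (n := l)
      push_cast at this
      exact this
    have h6 : (1 : ℝ) ≤ 2 ^ j / l := by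
      rw [one_le_div hl0]
      exact_mod_cast hlle
    rw [hH]; push_cast at h5 ⊢; linarith
  have hHge : (2 : ℝ) ^ j / l ≤ H := by
    rw [div_le_iff₀ hl0]
    have h5 : 2 ^ j < (2 ^ j / l + 1) * l := by
      have := Nat.lt_div_mul_add (a := 2 ^ j) hl.pos
      rw [add_mul, one_mul]; omega
    rw [← hH] at h5
    exact_mod_cast h5.le
  have hlogH : j * Real.log 2 / 2 ≤ Real.log H := by
    have h5 : Real.log ((2 : ℝ) ^ j / l) ≤ Real.log H := Real.log_le_log (by positivity) hHge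
    rw [Real.log_div (by positivity) (by positivity), Real.log_pow] at h5
    have h6 : 2 * Real.log l ≤ j * Real.log 2 := by
      have h7 : (l : ℝ) ^ 2 ≤ 2 ^ j := by exact_mod_cast hlsq
      have h8 := Real.log_le_log (by positivity) h7
      rw [Real.log_pow, Real.log_pow] at h8
      push_cast at h8
      exact h8
    linarith
  have hjl : 0 < j * Real.log 2 / 2 := by positivity
  have hcard2 : (P.card : ℝ) ≤ 440 * (2 ^ j / l) / (j * Real.log 2) := by
    calc (P.card : ℝ) ≤ 110 * (H : ℝ) / Real.log H := hcard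
      _ ≤ 110 * (2 * (2 ^ j / l)) / (j * Real.log 2 / 2) := by
          apply div_le_div₀ (by positivity) _ hjl hlogH
          linarith
      _ = 440 * (2 ^ j / l) / (j * Real.log 2) := by
          field_simp
          ring
  have hsum : ∑ r ∈ P, Real.log r / r ≤ P.card * ((j + 1) * Real.log 2 / 2 ^ j) := by
    rw [← nsmul_eq_mul]
    apply Finset.sum_le_card_nsmul
    intro p hp
    obtain ⟨e1, e2, e3, e4, e5⟩ := hmem p hp
    have hp0 : (0 : ℝ) < p := by exact_mod_cast e3.pos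
    have h1 : Real.log p ≤ (j + 1) * Real.log 2 := by
      have h2 : (p : ℝ) ≤ 2 ^ (j + 1) := by exact_mod_cast e2.le
      have h3 := Real.log_le_log hp0 h2
      rw [Real.log_pow] at h3
      push_cast at h3
      exact h3
    have h2 : (2 : ℝ) ^ j ≤ p := by exact_mod_cast e1
    apply div_le_div₀ (by positivity) h1 (by positivity) h2
  have hlm1 : (0 : ℝ) ≤ (l : ℝ) - 1 := by linarith
  have hS : ∑ r ∈ P, Real.log r / r ≤ 880 / l := by
    calc ∑ r ∈ P, Real.log r / r ≤ P.card * ((j + 1) * Real.log 2 / 2 ^ j) := hsum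
      _ ≤ (440 * (2 ^ j / l) / (j * Real.log 2)) * ((j + 1) * Real.log 2 / 2 ^ j) := by
          apply mul_le_mul_of_nonneg_right hcard2; positivity
      _ = 440 / l * ((j + 1) / j) := by
          field_simp
      _ ≤ 440 / l * 2 := by
          apply mul_le_mul_of_nonneg_left _ (by positivity)
          rw [div_le_iff₀ (by linarith)]
          linarith
      _ = 880 / l := by ring
  calc ((l : ℝ) - 1) * ∑ r ∈ P, Real.log r / r ≤ ((l : ℝ) - 1) * (880 / l) :=
        mul_le_mul_of_nonneg_left hS hlm1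
    _ ≤ 880 := by
        rw [mul_div_assoc', div_le_iff₀ hl0]
        nlinarith

theorem stmt_BTS : Stmt_BTS := by
  classical
  refine ⟨2640, by norm_num, ?_⟩
  intro l hl w z hw hwz
  have hl2 : 2 ≤ l := hl.two_le
  have hz8 : 8 ≤ z := by
    have h1 : 2 ^ 3 ≤ l ^ 3 := Nat.pow_le_pow_left hl2 3
    omega
  set J := Nat.log 2 z with hJ
  have hmaps : ∀ r ∈ PR l w z, Nat.log 2 r ∈ range (J + 1) := by
    intro r hr
    unfold PR at hr
    rw [mem_filter, mem_Ioc] at hr
    rw [mem_range, hJ]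
    have := Nat.log_mono_right (b := 2) hr.1.2
    omega
  rw [← Finset.sum_fiberwise_of_maps_to hmaps, Finset.mul_sum]
  have h1 : ∑ j ∈ range (J + 1), ((l : ℝ) - 1) *
      ∑ r ∈ (PR l w z).filter (fun r => Nat.log 2 r = j), Real.log r / r ≤ (J + 1) * 880 := by
    have h2 := Finset.sum_le_card_nsmul (range (J + 1)) (fun j => ((l : ℝ) - 1) *
      ∑ r ∈ (PR l w z).filter (fun r => Nat.log 2 r = j), Real.log r / r) 880
      (fun j _ => bts_block hl w z j hw)
    rw [card_range, nsmul_eq_mul] at h2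
    push_cast at h2
    exact h2
  refine le_trans h1 ?_
  have hlog2 : (1 : ℝ) / 2 ≤ Real.log 2 := by
    have := Real.log_two_gt_d9
    linarith
  have hJle : J * Real.log 2 ≤ Real.log z := by
    have h3 : (2 : ℝ) ^ J ≤ z := by
      exact_mod_cast Nat.pow_log_le_self 2 (by omega)
    have h4 := Real.log_le_log (by positivity) h3
    rwa [Real.log_pow] at h4
  have hz1 : 1 ≤ Real.log z := by
    have h3 : (8 : ℝ) ≤ z := by exact_mod_cast hz8
    have h4 := Real.log_le_log (by norm_num) h3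
    have h5 : Real.log 8 = 3 * Real.log 2 := by
      rw [show (8 : ℝ) = 2 ^ 3 by norm_num, Real.log_pow]; norm_num
    linarith
  have hJ0 : (0 : ℝ) ≤ J := by positivity
  have : (J : ℝ) ≤ 2 * Real.log z := by nlinarith
  linarith

end Pool.Agent.Work.MP_495a89_nt
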