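import Pool.Agent.Work.MP_495a89_nt.Interface

/-!
# Block CMB: counting the primes `p ∣ n` in a dyadic interval
-/

set_option autoImplicit false

namespace Pool.Agent.Work.MP_495a89_nt

open Finset

/-- if `l ∣ e + 1`, `p ^ l = 1` and `p ≠ 1` modulo `r` then `r ∣ σ(p ^ e)` -/
theorem cmb_dvd (p e l r : ℕ) (hp : p.Prime) (hr : r.Prime) (hl : l ∣ e + 1)
    (h1 : p ^ l % r = 1) (h2 : p % r ≠ 1) : r ∣ ArithmeticFunction.sigma 1 (p ^ e) := by
  haveI : Fact r.Prime := ⟨hr⟩
  rw [ArithmeticFunction.sigma_one_apply_prime_pow hp]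
  have hcast : ((p : ZMod r)) ^ l = 1 := by
    have h := (ZMod.natCast_eq_natCast_iff' (p ^ l) 1 r).2 (by
      rw [h1, Nat.mod_eq_of_lt hr.one_lt])
    push_cast at h
    exact h
  have hp1 : (p : ZMod r) ≠ 1 := by
    intro h
    have h3 := (ZMod.natCast_eq_natCast_iff' p 1 r).1 (by rw [h, Nat.cast_one])
    rw [Nat.mod_eq_of_lt hr.one_lt] at h3
    exact h2 h3
  obtain ⟨m, hm⟩ := hl
  have hpe : (p : ZMod r) ^ (e + 1) = 1 := by rw [hm, pow_mul, hcast, one_pow]
  have hg := geom_sum_mul (p : ZMod r) (e + 1)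
  rw [hpe, sub_self] at hg
  have h0 : ∑ i ∈ range (e + 1), (p : ZMod r) ^ i = 0 :=
    (mul_eq_zero.1 hg).resolve_right (sub_ne_zero.2 hp1)
  rw [← ZMod.natCast_eq_zero_iff]
  push_cast
  exact h0

/-- a prime `r` divides `σ(p ^ v_p(n))` for at most `v_r(σ(n))` primes `p ∣ n` -/
theorem cmb_card (n r : ℕ) (hn : n ≠ 0) (hr : r.Prime) (T : Finset ℕ) (hT : T ⊆ n.primeFactors)
    (h : ∀ p ∈ T, r ∣ ArithmeticFunction.sigma 1 (p ^ n.factorization p)) :
    T.card ≤ (ArithmeticFunction.sigma 1 n).factorization r := by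
  have hne : ∀ p ∈ n.primeFactors, ArithmeticFunction.sigma 1 (p ^ n.factorization p) ≠ 0 := by
    intro p hp
    have hpp := Nat.prime_of_mem_primeFactors hp
    rw [ArithmeticFunction.sigma_one_apply_prime_pow hpp]
    refine (sum_pos' (fun i _ => Nat.zero_le _) ⟨0, by simp, by simp⟩).ne'
  have hfac : (ArithmeticFunction.sigma 1 n).factorization
      = ∑ p ∈ n.primeFactors,
        (ArithmeticFunction.sigma 1 (p ^ n.factorization p)).factorization := by
    have h1 := ArithmeticFunction.IsMultiplicative.multiplicative_factorization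
      (ArithmeticFunction.sigma 1) ArithmeticFunction.isMultiplicative_sigma hn
    rw [h1, Finsupp.prod, Nat.support_factorization]
    exact Nat.factorization_prod hne
  rw [hfac, Finsupp.finsetSum_apply]
  calc T.card = ∑ p ∈ T, 1 := by simp
    _ ≤ ∑ p ∈ T, (ArithmeticFunction.sigma 1 (p ^ n.factorization p)).factorization r := by
        refine sum_le_sum (fun p hp => ?_)
        exact (hr.dvd_iff_one_le_factorization (hne p (hT hp))).1 (h p hp)
    _ ≤ ∑ p ∈ n.primeFactors,
        (ArithmeticFunction.sigma 1 (p ^ n.factorization p)).factorization r :=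
        sum_le_sum_of_subset hT

theorem cmb_mem_RR {l M j m : ℕ} : m ∈ RR l M j ↔ (2 ^ j < m ∧ m ≤ 2 ^ (j + 1)) ∧
    m.Prime ∧ ∀ r ∈ PR l 1 (2 ^ (j / M)), m ^ l % r = 1 → m % r = 1 := by
  unfold RR
  simp only [mem_filter, mem_Ioc]

theorem stmt_CMB : Stmt_CMB := by
  classical
  intro n a b M j Lb hn hb hab hex
  have hσ : ArithmeticFunction.sigma 1 n ≠ 0 := by
    have : 0 < ArithmeticFunction.sigma 1 n := by
      rw [ArithmeticFunction.sigma_pos_iff]
      exact Nat.pos_of_ne_zero hn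
    exact this.ne'
  have ha : a ≠ 0 := by
    rintro rfl
    rw [zero_mul] at hab
    exact (mul_ne_zero hσ hb) hab
  have hval : ∀ r : ℕ, (ArithmeticFunction.sigma 1 n).factorization r
      ≤ a.factorization r + n.factorization r := by
    intro r
    have h1 := congrArg (fun m : ℕ => m.factorization r) hab
    simp only [Nat.factorization_mul hσ hb, Nat.factorization_mul ha hn,
      Finsupp.add_apply] at h1
    omega
  set T : ℕ → Finset ℕ := fun r =>
    (SJ n j).filter (fun p => r ∣ ArithmeticFunction.sigma 1 (p ^ n.factorization p)) with hTdef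
  have hsub : SJ n j ⊆ ((Icc 1 Lb).filter Nat.Prime).biUnion (fun l => RR l M j)
      ∪ ((Icc 1 (2 ^ (j / M))).filter Nat.Prime).biUnion T := by
    intro p hp
    obtain ⟨l, hl, hlL, hle⟩ := hex p hp
    have hp' := hp
    rw [SJ, mem_filter] at hp'
    obtain ⟨hpf, hp1, hp2⟩ := hp'
    have hpp := Nat.prime_of_mem_primeFactors hpf
    rw [mem_union]
    by_cases hR : p ∈ RR l M j
    · left
      rw [mem_biUnion]
      exact ⟨l, by rw [mem_filter, mem_Icc]; exact ⟨⟨hl.one_lt.le, hlL⟩, hl⟩, hR⟩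
    · right
      have : ∃ r ∈ PR l 1 (2 ^ (j / M)), p ^ l % r = 1 ∧ p % r ≠ 1 := by
        by_contra hcon
        push Not at hcon
        apply hR
        exact cmb_mem_RR.2 ⟨⟨hp1, hp2⟩, hpp, fun r hr h => hcon r hr h⟩
      obtain ⟨r, hr, h1, h2⟩ := this
      rw [PR, mem_filter, mem_Ioc] at hr
      obtain ⟨⟨hr1, hr2⟩, hrp, -⟩ := hr
      rw [mem_biUnion]
      refine ⟨r, by rw [mem_filter, mem_Icc]; exact ⟨⟨hr1.le, hr2⟩, hrp⟩, ?_⟩
      rw [hTdef, mem_filter]
      exact ⟨hp, cmb_dvd p _ l r hpp hrp hle h1 h2⟩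
  refine (card_le_card hsub).trans ((card_union_le _ _).trans ?_)
  refine Nat.add_le_add card_biUnion_le (card_biUnion_le.trans ?_)
  refine sum_le_sum (fun r hr => ?_)
  rw [mem_filter] at hr
  refine (cmb_card n r hn hr.2 (T r) ?_ ?_).trans (hval r)
  · intro p hp
    exact (mem_filter.1 (mem_filter.1 hp).1).1
  · intro p hp
    exact (mem_filter.1 hp).2

end Pool.Agent.Work.MP_495a89_nt
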