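import Pool.Agent.Work.MP_495a89_nt.Interface2
import Pool.Agent.Work.MP_495a89_nt.CMB

/-!
# Block CMB2: counting the primes `p ∣ n` in a dyadic interval, with forbidden primes `r`
-/

set_option autoImplicit false

namespace Pool.Agent.Work.MP_495a89_nt

open Finset

theorem cmb_mem_RR2 {l M j R m : ℕ} {H : Finset ℕ} : m ∈ RR2 l M j R H ↔
    (2 ^ j < m ∧ m ≤ 2 ^ (j + 1)) ∧
    m.Prime ∧ ∀ r ∈ PR l R (2 ^ (j / M)), r ∉ H → m ^ l % r = 1 → m % r = 1 := by
  unfold RR2
  simp only [mem_filter, mem_Ioc]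

theorem stmt_CMB2 : Stmt_CMB2 := by
  classical
  intro n a b M j Lb R H G hn hb hR hab hex
  have hσ : ArithmeticFunction.sigma 1 n ≠ 0 := by
    have : 0 < ArithmeticFunction.sigma 1 n := by
      rw [ArithmeticFunction.sigma_pos_iff]
      exact Nat.pos_of_ne_zero hn
    exact this.ne'
  have ha : a ≠ 0 := by
    rintro rfl
    rw [zero_mul] at hab
    exact (mul_ne_zero hσ hb) hab
  have hval : ∀ r : ℕ, (ArithmeticFunction.sigma 1 n).factorization r
      ≤ a.factorization r + n.factorization r := by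
    intro r
    have h1 := congrArg (fun m : ℕ => m.factorization r) hab
    simp only [Nat.factorization_mul hσ hb, Nat.factorization_mul ha hn,
      Finsupp.add_apply] at h1
    omega
  set T : ℕ → Finset ℕ := fun r =>
    (SJ n j).filter (fun p => r ∣ ArithmeticFunction.sigma 1 (p ^ n.factorization p)) with hTdef
  have hsub : SJ n j ⊆ ((Icc 1 Lb).filter (fun l => l.Prime ∧ G l)).biUnion
        (fun l => RR2 l M j R H)
      ∪ ((Ioc R (2 ^ (j / M))).filter (fun r => r.Prime ∧ r ∉ H)).biUnion T := by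
    intro p hp
    obtain ⟨l, hl, hG, hlL, hle⟩ := hex p hp
    have hp' := hp
    rw [SJ, mem_filter] at hp'
    obtain ⟨hpf, hp1, hp2⟩ := hp'
    have hpp := Nat.prime_of_mem_primeFactors hpf
    rw [mem_union]
    by_cases hRR : p ∈ RR2 l M j R H
    · left
      rw [mem_biUnion]
      exact ⟨l, by rw [mem_filter, mem_Icc]; exact ⟨⟨hl.one_lt.le, hlL⟩, hl, hG⟩, hRR⟩
    · right
      have : ∃ r ∈ PR l R (2 ^ (j / M)), r ∉ H ∧ p ^ l % r = 1 ∧ p % r ≠ 1 := by
        by_contra hcon
        push Not at hcon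
        apply hRR
        exact cmb_mem_RR2.2 ⟨⟨hp1, hp2⟩, hpp, fun r hr hH h => hcon r hr hH h⟩
      obtain ⟨r, hr, hH, h1, h2⟩ := this
      rw [PR, mem_filter, mem_Ioc] at hr
      obtain ⟨⟨hr1, hr2⟩, hrp, -⟩ := hr
      rw [mem_biUnion]
      refine ⟨r, by rw [mem_filter, mem_Ioc]; exact ⟨⟨hr1, hr2⟩, hrp, hH⟩, ?_⟩
      rw [hTdef, mem_filter]
      exact ⟨hp, cmb_dvd p _ l r hpp hrp hle h1 h2⟩
  have h3 := (card_le_card hsub).trans ((card_union_le _ _).trans
    (Nat.add_le_add card_biUnion_le (card_biUnion_le.trans (sum_le_sum (g := fun r =>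
      a.factorization r + n.factorization r) fun r hr => ?_))))
  · convert h3 using 4
  · rw [mem_filter] at hr
    refine (cmb_card n r hn hr.2.1 (T r) ?_ ?_).trans (hval r)
    · intro p hp
      exact (mem_filter.1 (mem_filter.1 hp).1).1
    · intro p hp
      exact (mem_filter.1 hp).2

end Pool.Agent.Work.MP_495a89_nt
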