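import Pool.Agent.Work.MP_495a89_nt.Interface

/-!
# Block FIN of MP_495a89_nt: the main theorem from AP, RL, CMB, PP and MER
-/

set_option autoImplicit false

namespace Pool.Agent.Work.MP_495a89_nt

open Finset

namespace FIN

/-- dyadic decomposition of a sum over the prime factors -/
lemma split (n J : ℕ) (f : ℕ → ℝ) (N : ℕ) (h : J ≤ N) :
    ∑ p ∈ n.primeFactors.filter (fun p => p ≤ 2 ^ N), f p
      = ∑ p ∈ n.primeFactors.filter (fun p => p ≤ 2 ^ J), f p
        + ∑ j ∈ Ico J N, ∑ p ∈ SJ n j, f p := by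
  induction N, h using Nat.le_induction with
  | base => simp
  | succ N hN ih =>
    rw [Finset.sum_Ico_succ_top hN, ← add_assoc, ← ih]
    rw [← Finset.sum_union]
    · apply Finset.sum_congr _ (fun _ _ => rfl)
      ext p
      simp only [SJ, Finset.mem_union, Finset.mem_filter]
      have h1 : 2 ^ N ≤ 2 ^ (N + 1) := Nat.pow_le_pow_right (by norm_num) (by omega)
      constructor
      · rintro ⟨h2, h3⟩
        by_cases h4 : p ≤ 2 ^ N
        · exact Or.inl ⟨h2, h4⟩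
        · exact Or.inr ⟨h2, by omega, h3⟩
      · rintro (⟨h2, h3⟩ | ⟨h2, h3, h4⟩)
        · exact ⟨h2, by omega⟩
        · exact ⟨h2, h4⟩
    · rw [Finset.disjoint_left]
      intro p hp hp'
      simp only [SJ, Finset.mem_filter] at hp hp'
      omega

lemma full (n : ℕ) (N : ℕ) (h : n ≤ N) :
    n.primeFactors.filter (fun p => p ≤ 2 ^ N) = n.primeFactors := by
  apply Finset.filter_true_of_mem
  intro p hp
  rcases Nat.eq_zero_or_pos n with h0 | h0
  · simp [h0] at hp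
  · have h1 : p ≤ n := Nat.le_of_dvd h0 (Nat.dvd_of_mem_primeFactors hp)
    have h2 : N < 2 ^ N := Nat.lt_two_pow_self
    omega

lemma sum_sq (J N : ℕ) (hJ : 1 ≤ J) (h : J ≤ N) :
    ∑ j ∈ Ico J N, 1 / (j : ℝ) ^ 2 ≤ 2 / (J : ℝ) - 2 / (N : ℝ) := by
  induction N, h using Nat.le_induction with
  | base => simp
  | succ N hN ih =>
    rw [Finset.sum_Ico_succ_top hN]
    have hN' : (1 : ℝ) ≤ N := by exact_mod_cast hJ.trans hN
    have h1 : 1 / (N : ℝ) ^ 2 ≤ 2 / N - 2 / ((N + 1 : ℕ) : ℝ) := by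
      push_cast
      rw [div_sub_div _ _ (by positivity) (by positivity), div_le_div_iff₀ (by positivity)
        (by positivity)]
      nlinarith [mul_nonneg (sub_nonneg.2 hN') (by positivity : (0 : ℝ) ≤ N)]
    linarith

lemma sum_sqrt (J N : ℕ) (hJ : 1 ≤ J) (h : J ≤ N) :
    ∑ j ∈ Ico J N, √((j : ℝ) + 1) / (j : ℝ) ^ 2 ≤ 8 / √(J : ℝ) - 8 / √(N : ℝ) := by
  induction N, h using Nat.le_induction with
  | base => simp
  | succ N hN ih =>
    rw [Finset.sum_Ico_succ_top hN]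
    have hN' : (1 : ℝ) ≤ N := by exact_mod_cast hJ.trans hN
    have h1 : √((N : ℝ) + 1) / (N : ℝ) ^ 2 ≤ 8 / √(N : ℝ) - 8 / √((N + 1 : ℕ) : ℝ) := by
      push_cast
      set u := √(N : ℝ) with hu
      set v := √((N : ℝ) + 1) with hv
      have hu1 : 1 ≤ u := by
        rw [hu]; exact Real.one_le_sqrt.2 hN'
      have huv : u ≤ v := Real.sqrt_le_sqrt (by linarith)
      have hu2 : u ^ 2 = N := Real.sq_sqrt (by linarith)
      have hv2 : v ^ 2 = N + 1 := Real.sq_sqrt (by linarith)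
      have hv2' : v ^ 2 = u ^ 2 + 1 := by rw [hu2, hv2]
      have e1 : (v - u) * (v + u) = 1 := by nlinarith
      have e2 : v ^ 2 ≤ 2 * u ^ 2 := by nlinarith
      have e3 : v - u = 1 / (v + u) := by
        rw [eq_div_iff (by positivity)]; exact e1
      have e7 : 8 / u - 8 / v = 8 / ((v + u) * (u * v)) := by
        rw [div_sub_div _ _ (by positivity) (by positivity),
          show 8 * v - u * 8 = 8 * (v - u) by ring, e3, mul_one_div, div_div]
      rw [← hu2, e7, div_le_div_iff₀ (by positivity) (by positivity)]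
      have e4 : v * ((v + u) * (u * v)) ≤ 8 * (u ^ 2) ^ 2 := by
        have e5 : v * ((v + u) * (u * v)) = v ^ 2 * (u * v + u ^ 2) := by ring
        have e6 : u * v ≤ 2 * u ^ 2 := by
          have : v ≤ 2 * u := by nlinarith
          nlinarith
        rw [e5]
        calc v ^ 2 * (u * v + u ^ 2) ≤ (2 * u ^ 2) * (3 * u ^ 2) := by
              apply mul_le_mul e2 (by linarith) (by positivity) (by positivity)
          _ ≤ 8 * (u ^ 2) ^ 2 := by nlinarith [sq_nonneg (u ^ 2)]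
      linarith [e4]
    linarith

lemma sum_geo (J N : ℕ) (h : J ≤ N) :
    ∑ j ∈ Ico J N, ((3 : ℝ) / 4) ^ j ≤ 4 * (3 / 4) ^ J - 4 * (3 / 4) ^ N := by
  induction N, h using Nat.le_induction with
  | base => simp
  | succ N hN ih =>
    rw [Finset.sum_Ico_succ_top hN, pow_succ]
    linarith

lemma half_le (j : ℕ) : (1 : ℝ) / 2 ^ j ≤ (3 / 4) ^ j := by
  have : (1 : ℝ) / 2 ^ j = (1 / 2) ^ j := by rw [one_div_pow]
  rw [this]
  exact pow_le_pow_left₀ (by norm_num) (by norm_num) j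

lemma z_le (M j : ℕ) (hM : 20 ≤ M) : (((2 : ℝ) ^ (j / M)) ^ 9) / 2 ^ j ≤ (3 / 4) ^ j := by
  have h1 : 18 * (j / M) ≤ j := by
    have h2 : j / M * M ≤ j := Nat.div_mul_le_self j M
    nlinarith
  have h3 : ((((2 : ℝ) ^ (j / M)) ^ 9) / 2 ^ j) ^ 2 ≤ ((3 / 4) ^ j) ^ 2 := by
    have e1 : (((((2 : ℝ) ^ (j / M)) ^ 9) / 2 ^ j)) ^ 2 = 2 ^ (18 * (j / M)) / 2 ^ j * (1 / 2 ^ j) := by
      rw [div_pow, ← pow_mul, ← pow_mul, ← pow_mul, div_mul_div_comm, mul_one, ← pow_add]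
      congr 2 <;> ring
    rw [e1]
    have e2 : (2 : ℝ) ^ (18 * (j / M)) / 2 ^ j ≤ 1 := by
      rw [div_le_one (by positivity)]
      exact pow_le_pow_right₀ (by norm_num) h1
    have e3 : (1 : ℝ) / 2 ^ j ≤ ((3 / 4) ^ j) ^ 2 := by
      rw [← one_div_pow, ← pow_mul, mul_comm j 2, pow_mul]
      exact pow_le_pow_left₀ (by norm_num) (by norm_num) j
    calc (2 : ℝ) ^ (18 * (j / M)) / 2 ^ j * (1 / 2 ^ j) ≤ 1 * (1 / 2 ^ j) := by
          apply mul_le_mul_of_nonneg_right e2 (by positivity)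
      _ ≤ _ := by rw [one_mul]; exact e3
  exact le_of_sq_le_sq h3 (by positivity)
where
  le_of_sq_le_sq {x y : ℝ} (h : x ^ 2 ≤ y ^ 2) (hy : 0 ≤ y) : x ≤ y := by
    exact le_of_abs_le (by simpa [abs_of_nonneg hy] using sq_le_sq.1 h)

lemma fac_a (a z : ℕ) :
    ∑ r ∈ (Icc 1 z).filter Nat.Prime, (a.factorization r : ℝ) ≤ 2 * Real.log a := by
  have h0 : ∑ r ∈ (Icc 1 z).filter Nat.Prime, (a.factorization r : ℝ)
      ≤ ∑ r ∈ (Icc 1 z).filter Nat.Prime, 2 * ((a.factorization r : ℝ) * Real.log r) := by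
    apply Finset.sum_le_sum
    intro r hr
    have hr' : r.Prime := (Finset.mem_filter.1 hr).2
    have h2 : (2 : ℝ) ≤ r := by exact_mod_cast hr'.two_le
    have h3 : Real.log 2 ≤ Real.log r := Real.log_le_log (by norm_num) h2
    have h4 := Real.log_two_gt_d9
    have h5 : (0 : ℝ) ≤ a.factorization r := by positivity
    nlinarith
  have h1 : ∑ r ∈ (Icc 1 z).filter Nat.Prime, 2 * ((a.factorization r : ℝ) * Real.log r)
      ≤ ∑ r ∈ a.primeFactors, 2 * ((a.factorization r : ℝ) * Real.log r) := by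
    rw [← Finset.sum_filter_ne_zero]
    apply Finset.sum_le_sum_of_subset_of_nonneg
    · intro r hr
      have hne := (Finset.mem_filter.1 hr).2
      rw [← Nat.support_factorization, Finsupp.mem_support_iff]
      intro h
      apply hne
      simp [h]
    · intro r _ _
      have := Real.log_natCast_nonneg r
      positivity
  rw [Real.log_nat_eq_sum_factorization, Finsupp.sum, Nat.support_factorization, Finset.mul_sum]
  exact h0.trans h1

lemma fac_n (n z : ℕ) (A : ℝ) (hA : 0 ≤ A)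
    (h : ∀ r : ℕ, r.Prime → (n.factorization r : ℝ) ≤ A * (r : ℝ) ^ 8) :
    ∑ r ∈ (Icc 1 z).filter Nat.Prime, (n.factorization r : ℝ) ≤ A * (z : ℝ) ^ 9 := by
  calc ∑ r ∈ (Icc 1 z).filter Nat.Prime, (n.factorization r : ℝ)
      ≤ ∑ r ∈ (Icc 1 z).filter Nat.Prime, A * (z : ℝ) ^ 8 := by
        apply Finset.sum_le_sum
        intro r hr
        have hr' := Finset.mem_filter.1 hr
        have h2 : (r : ℝ) ≤ z := by exact_mod_cast (Finset.mem_Icc.1 hr'.1).2
        calc (n.factorization r : ℝ) ≤ A * (r : ℝ) ^ 8 := h r hr'.2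
          _ ≤ A * (z : ℝ) ^ 8 := by gcongr
    _ = (((Icc 1 z).filter Nat.Prime).card : ℝ) * (A * (z : ℝ) ^ 8) := by
        rw [Finset.sum_const, nsmul_eq_mul]
    _ ≤ (z : ℝ) * (A * (z : ℝ) ^ 8) := by
        gcongr
        have := Finset.card_filter_le (Icc 1 z) Nat.Prime
        rw [Nat.card_Icc] at this
        simpa using this
    _ = A * (z : ℝ) ^ 9 := by ring

/-- one dyadic block -/
lemma block (W : ℕ → ℝ) (C C' : ℝ) (M : ℕ) (hW : APW W C) (hC' : 0 < C') (hM : 20 ≤ M)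
    (hRL : ∀ l : ℕ, l.Prime → ∀ j : ℕ, 1 ≤ j →
      ((RR l M j).card : ℝ) ≤ C' * 2 ^ j * W l / (j : ℝ) ^ 2)
    (h3 : Stmt_CMB) (n a b : ℕ) (A L : ℝ) (hn : n ≠ 0) (hb : b ≠ 0)
    (hs : ArithmeticFunction.sigma 1 n * b = a * n) (hA : 1 ≤ A) (hL : 1 ≤ L)
    (hv : ∀ r : ℕ, r.Prime → (n.factorization r : ℝ) ≤ A * (r : ℝ) ^ 8)
    (hl : ∀ p : ℕ, p.Prime → p ∣ n → ∃ l : ℕ, l.Prime ∧ l ∣ n.factorization p + 1 ∧
      (l : ℝ) ≤ max L √(Real.log p)) (j : ℕ) (hj : 1 ≤ j) :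
    ∑ p ∈ SJ n j, 1 / (p : ℝ) ≤ C' * C * L * (1 / (j : ℝ) ^ 2)
      + C' * C * (√((j : ℝ) + 1) / (j : ℝ) ^ 2) + (A + 2 * Real.log a) * (3 / 4) ^ j := by
  have hC : 0 ≤ C := le_trans zero_le_one hW.one_le
  have hj' : (1 : ℝ) ≤ j := by exact_mod_cast hj
  have hla : 0 ≤ Real.log a := Real.log_natCast_nonneg a
  set Lj : ℝ := L + √((j : ℝ) + 1) with hLj
  have hLj0 : 0 ≤ Lj := by positivity
  set Lb : ℕ := ⌊Lj⌋₊ with hLb
  have hcmb := h3 n a b M j Lb hn hb hs (by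
    intro p hp
    simp only [SJ, Finset.mem_filter] at hp
    obtain ⟨hp1, hp2, hp3⟩ := hp
    obtain ⟨l, hl1, hl2, hl3⟩ := hl p (Nat.prime_of_mem_primeFactors hp1)
      (Nat.dvd_of_mem_primeFactors hp1)
    refine ⟨l, hl1, ?_, hl2⟩
    apply Nat.le_floor
    refine hl3.trans ?_
    apply max_le
    · have := Real.sqrt_nonneg ((j : ℝ) + 1)
      linarith
    · have h5 : Real.log p ≤ (j : ℝ) + 1 := by
        have h6 : Real.log p ≤ Real.log ((2 : ℝ) ^ (j + 1)) := by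
          apply Real.log_le_log
          · exact_mod_cast (Nat.prime_of_mem_primeFactors hp1).pos
          · exact_mod_cast hp3
        rw [Real.log_pow] at h6
        have h7 := Real.log_two_lt_d9
        push_cast at h6
        nlinarith
      have h8 := Real.sqrt_le_sqrt h5
      linarith)
  have hcmb' : ((SJ n j).card : ℝ) ≤ ∑ l ∈ (Icc 1 Lb).filter Nat.Prime, ((RR l M j).card : ℝ)
      + ∑ r ∈ (Icc 1 (2 ^ (j / M))).filter Nat.Prime,
        ((a.factorization r : ℝ) + (n.factorization r : ℝ)) := by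
    exact_mod_cast hcmb
  have hA1 : ∑ l ∈ (Icc 1 Lb).filter Nat.Prime, ((RR l M j).card : ℝ)
      ≤ C' * 2 ^ j / (j : ℝ) ^ 2 * (C * Lj) := by
    calc ∑ l ∈ (Icc 1 Lb).filter Nat.Prime, ((RR l M j).card : ℝ)
        ≤ ∑ l ∈ (Icc 1 Lb).filter Nat.Prime, C' * 2 ^ j / (j : ℝ) ^ 2 * W l := by
          apply Finset.sum_le_sum
          intro l hl'
          refine (hRL l (Finset.mem_filter.1 hl').2 j hj).trans (le_of_eq ?_)
          ring
      _ = C' * 2 ^ j / (j : ℝ) ^ 2 * ∑ l ∈ (Icc 1 Lb).filter Nat.Prime, W l := by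
          rw [Finset.mul_sum]
      _ ≤ C' * 2 ^ j / (j : ℝ) ^ 2 * (C * Lj) := by
          apply mul_le_mul_of_nonneg_left _ (by positivity)
          refine (hW.sum_le Lb).trans ?_
          exact mul_le_mul_of_nonneg_left (Nat.floor_le hLj0) hC
  have hA2 : ∑ r ∈ (Icc 1 (2 ^ (j / M))).filter Nat.Prime,
        ((a.factorization r : ℝ) + (n.factorization r : ℝ))
      ≤ 2 * Real.log a + A * (((2 : ℝ) ^ (j / M)) ^ 9) := by
    rw [Finset.sum_add_distrib]
    have e1 := fac_a a (2 ^ (j / M))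
    have e2 := fac_n n (2 ^ (j / M)) A (by linarith) hv
    push_cast at e2
    linarith
  have hsum : ∑ p ∈ SJ n j, 1 / (p : ℝ) ≤ ((SJ n j).card : ℝ) / 2 ^ j := by
    calc ∑ p ∈ SJ n j, 1 / (p : ℝ) ≤ ∑ p ∈ SJ n j, 1 / (2 : ℝ) ^ j := by
          apply Finset.sum_le_sum
          intro p hp
          simp only [SJ, Finset.mem_filter] at hp
          apply one_div_le_one_div_of_le (by positivity)
          exact_mod_cast hp.2.1.le
      _ = ((SJ n j).card : ℝ) / 2 ^ j := by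
          rw [Finset.sum_const, nsmul_eq_mul]; ring
  have h2j : (0 : ℝ) < 2 ^ j := by positivity
  have hz := z_le M j hM
  have hh := half_le j
  calc ∑ p ∈ SJ n j, 1 / (p : ℝ) ≤ ((SJ n j).card : ℝ) / 2 ^ j := hsum
    _ ≤ (C' * 2 ^ j / (j : ℝ) ^ 2 * (C * Lj)
        + (2 * Real.log a + A * (((2 : ℝ) ^ (j / M)) ^ 9))) / 2 ^ j := by
        apply div_le_div_of_nonneg_right _ h2j.le
        linarith
    _ = C' * C * L * (1 / (j : ℝ) ^ 2) + C' * C * (√((j : ℝ) + 1) / (j : ℝ) ^ 2)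
        + (2 * Real.log a) * (1 / 2 ^ j) + A * ((((2 : ℝ) ^ (j / M)) ^ 9) / 2 ^ j) := by
        rw [hLj]
        field_simp
        ring
    _ ≤ C' * C * L * (1 / (j : ℝ) ^ 2) + C' * C * (√((j : ℝ) + 1) / (j : ℝ) ^ 2)
        + (2 * Real.log a) * ((3 / 4) ^ j) + A * ((3 / 4) ^ j) := by
        gcongr
    _ = _ := by ring

lemma pow_bound (J : ℕ) (x : ℝ) (hx : 0 < x) (h : 4 * Real.log x ≤ J) :
    x * (3 / 4 : ℝ) ^ J ≤ 1 := by
  have h1 : Real.log ((3 / 4 : ℝ)) ≤ -(1 / 4) := by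
    have := Real.log_le_sub_one_of_pos (by norm_num : (0 : ℝ) < 3 / 4)
    linarith
  have h2 : Real.log (x * (3 / 4 : ℝ) ^ J) ≤ 0 := by
    rw [Real.log_mul (by positivity) (by positivity), Real.log_pow]
    have hJ : (0 : ℝ) ≤ J := by positivity
    nlinarith
  have h3 := (Real.log_nonpos_iff (by positivity)).1 h2
  exact h3

/-- the tail of the dyadic blocks -/
lemma tail (W : ℕ → ℝ) (C C' : ℝ) (M : ℕ) (hW : APW W C) (hC' : 0 < C') (hM : 20 ≤ M)
    (hRL : ∀ l : ℕ, l.Prime → ∀ j : ℕ, 1 ≤ j →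
      ((RR l M j).card : ℝ) ≤ C' * 2 ^ j * W l / (j : ℝ) ^ 2)
    (h3 : Stmt_CMB) (n a b : ℕ) (A L : ℝ) (hn : n ≠ 0) (hb : b ≠ 0)
    (hs : ArithmeticFunction.sigma 1 n * b = a * n) (hA : 1 ≤ A) (hL : 1 ≤ L)
    (hv : ∀ r : ℕ, r.Prime → (n.factorization r : ℝ) ≤ A * (r : ℝ) ^ 8)
    (hl : ∀ p : ℕ, p.Prime → p ∣ n → ∃ l : ℕ, l.Prime ∧ l ∣ n.factorization p + 1 ∧
      (l : ℝ) ≤ max L √(Real.log p)) (J : ℕ) (hJ1 : 1 ≤ J) (hJL : L ≤ J)
    (hJA : 4 * Real.log A ≤ J) (hJa : 4 * Real.log (1 + Real.log a) ≤ J) (N : ℕ) (hN : J ≤ N) :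
    ∑ j ∈ Ico J N, ∑ p ∈ SJ n j, 1 / (p : ℝ) ≤ 10 * (C' * C) + 12 := by
  have hC : 0 ≤ C := le_trans zero_le_one hW.one_le
  have hla : 0 ≤ Real.log a := Real.log_natCast_nonneg a
  have hJ0 : (1 : ℝ) ≤ J := by exact_mod_cast hJ1
  have h1 : ∑ j ∈ Ico J N, ∑ p ∈ SJ n j, 1 / (p : ℝ)
      ≤ C' * C * L * ∑ j ∈ Ico J N, 1 / (j : ℝ) ^ 2
        + C' * C * ∑ j ∈ Ico J N, √((j : ℝ) + 1) / (j : ℝ) ^ 2
        + (A + 2 * Real.log a) * ∑ j ∈ Ico J N, ((3 : ℝ) / 4) ^ j := by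
    rw [Finset.mul_sum, Finset.mul_sum, Finset.mul_sum, ← Finset.sum_add_distrib,
      ← Finset.sum_add_distrib]
    apply Finset.sum_le_sum
    intro j hj
    exact block W C C' M hW hC' hM hRL h3 n a b A L hn hb hs hA hL hv hl j
      (hJ1.trans (Finset.mem_Ico.1 hj).1)
  have h2 : ∑ j ∈ Ico J N, 1 / (j : ℝ) ^ 2 ≤ 2 / (J : ℝ) := by
    have := sum_sq J N hJ1 hN
    have h' : (0 : ℝ) ≤ 2 / (N : ℝ) := by positivity
    linarith
  have h4 : ∑ j ∈ Ico J N, √((j : ℝ) + 1) / (j : ℝ) ^ 2 ≤ 8 := by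
    have := sum_sqrt J N hJ1 hN
    have h' : (0 : ℝ) ≤ 8 / √(N : ℝ) := by positivity
    have h'' : 8 / √(J : ℝ) ≤ 8 := by
      rw [div_le_iff₀ (by positivity)]
      have := Real.one_le_sqrt.2 hJ0
      linarith
    linarith
  have h5 : ∑ j ∈ Ico J N, ((3 : ℝ) / 4) ^ j ≤ 4 * (3 / 4) ^ J := by
    have := sum_geo J N hN
    have h' : (0 : ℝ) ≤ (3 / 4) ^ N := by positivity
    linarith
  have h6 : C' * C * L * (2 / (J : ℝ)) ≤ C' * C * 2 := by
    have : L * (2 / (J : ℝ)) ≤ 2 := by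
      rw [mul_div_assoc', div_le_iff₀ (by positivity)]
      linarith
    calc C' * C * L * (2 / (J : ℝ)) = C' * C * (L * (2 / (J : ℝ))) := by ring
      _ ≤ C' * C * 2 := by gcongr
  have h7 : A * (3 / 4 : ℝ) ^ J ≤ 1 := pow_bound J A (by linarith) hJA
  have h8 : (1 + Real.log a) * (3 / 4 : ℝ) ^ J ≤ 1 := pow_bound J _ (by linarith) hJa
  have h9 : (0 : ℝ) ≤ (3 / 4) ^ J := by positivity
  calc ∑ j ∈ Ico J N, ∑ p ∈ SJ n j, 1 / (p : ℝ)
      ≤ C' * C * L * ∑ j ∈ Ico J N, 1 / (j : ℝ) ^ 2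
        + C' * C * ∑ j ∈ Ico J N, √((j : ℝ) + 1) / (j : ℝ) ^ 2
        + (A + 2 * Real.log a) * ∑ j ∈ Ico J N, ((3 : ℝ) / 4) ^ j := h1
    _ ≤ C' * C * L * (2 / (J : ℝ)) + C' * C * 8 + (A + 2 * Real.log a) * (4 * (3 / 4) ^ J) := by
        gcongr
    _ ≤ C' * C * 2 + C' * C * 8 + (4 + 8) := by
        have : (A + 2 * Real.log a) * (4 * (3 / 4 : ℝ) ^ J) ≤ 4 + 8 := by nlinarith
        linarith
    _ = 10 * (C' * C) + 12 := by ring

end FIN

open FIN in
theorem stmt_MAIN (h1 : Stmt_AP) (h2 : Stmt_RL) (h3 : Stmt_CMB) (h4 : Stmt_PP) (h5 : Stmt_MER) :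
    Stmt_MAIN := by
  obtain ⟨W, C, hW⟩ := h1
  obtain ⟨C', M, hC', hM, hRL⟩ := h2 W C hW
  obtain ⟨Cm, hCm⟩ := h5
  have hC : 0 ≤ C := le_trans zero_le_one hW.one_le
  set K : ℝ := |Cm| + 10 * (C' * C) + 13 with hK
  have hK0 : 0 ≤ K := by positivity
  set C3 : ℝ := 5 * Real.exp K with hC3
  have hC35 : 5 ≤ C3 := by
    have := Real.one_le_exp hK0
    linarith
  have hlog3 : 0 ≤ Real.log (2 * C3) := Real.log_nonneg (by linarith)
  refine ⟨2 * C3 + 2 * C3 * Real.log (2 * C3), ?_⟩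
  intro n a b A L hn hb hs hA hL hv hl
  have ha : a ≠ 0 := by
    rintro rfl
    rw [zero_mul] at hs
    have hσ : 0 < ArithmeticFunction.sigma 1 n := by
      rw [ArithmeticFunction.sigma_one_apply]
      exact Finset.sum_pos (fun d hd => Nat.pos_of_mem_divisors hd)
        ⟨1, Nat.one_mem_divisors.2 hn⟩
    rcases Nat.mul_eq_zero.1 hs with h | h
    · omega
    · exact hb h
  have ha1 : (1 : ℝ) ≤ a := by exact_mod_cast Nat.one_le_iff_ne_zero.2 ha
  have hla : 0 ≤ Real.log a := Real.log_nonneg ha1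
  have hlA : 0 ≤ Real.log A := Real.log_nonneg hA
  have hlla : 0 ≤ Real.log (1 + Real.log a) := Real.log_nonneg (by linarith)
  set X : ℝ := L + 4 * Real.log A + 4 * Real.log (1 + Real.log a) with hX
  have hX1 : 1 ≤ X := by rw [hX]; linarith
  set J : ℕ := ⌈X⌉₊ with hJ
  have hJX : X ≤ J := Nat.le_ceil X
  have hJX' : (J : ℝ) ≤ X + 1 := (Nat.ceil_lt_add_one (by linarith)).le
  have hJ1 : 1 ≤ J := by
    have : (1 : ℝ) ≤ J := hX1.trans hJX
    exact_mod_cast this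
  have hJ0 : (0 : ℝ) < J := by exact_mod_cast hJ1
  have htail := tail W C C' M hW hC' hM hRL h3 n a b A L hn hb hs hA hL hv hl J hJ1
    (by linarith) (by linarith) (by linarith) (max J n) (le_max_left _ _)
  have hsplit := split n J (fun p => 1 / (p : ℝ)) (max J n) (le_max_left _ _)
  rw [full n (max J n) (le_max_right _ _)] at hsplit
  have hmer : ∑ p ∈ n.primeFactors.filter (fun p => p ≤ 2 ^ J), 1 / (p : ℝ)
      ≤ Real.log J + |Cm| := by
    refine le_trans ?_ ((hCm J hJ1).trans (by linarith [le_abs_self Cm]))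
    apply Finset.sum_le_sum_of_subset_of_nonneg
    · intro p hp
      simp only [Finset.mem_filter] at hp
      simp only [Finset.mem_filter, Finset.mem_Icc]
      have := Nat.prime_of_mem_primeFactors hp.1
      exact ⟨⟨this.one_lt.le, hp.2⟩, this⟩
    · intro p _ _
      positivity
  have hpp := h4 n a b hn hb hs
  have hlogab : Real.log ((a : ℝ) / b) ≤ Real.log J + K := by
    rw [hK]
    linarith
  have hb0 : (0 : ℝ) < b := by exact_mod_cast Nat.pos_of_ne_zero hb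
  have hab0 : (0 : ℝ) < (a : ℝ) / b := by positivity
  have hab : (a : ℝ) / b ≤ J * Real.exp K := by
    rw [← Real.exp_log hab0]
    calc Real.exp (Real.log ((a : ℝ) / b)) ≤ Real.exp (Real.log J + K) := Real.exp_le_exp.2 hlogab
      _ = J * Real.exp K := by rw [Real.exp_add, Real.exp_log hJ0]
  have hmain : (a : ℝ) / b ≤ C3 * (L + Real.log A + Real.log (1 + Real.log a)) := by
    have hJ5 : (J : ℝ) ≤ 5 * (L + Real.log A + Real.log (1 + Real.log a)) := by
      rw [hX] at hJX'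
      linarith
    calc (a : ℝ) / b ≤ J * Real.exp K := hab
      _ ≤ (5 * (L + Real.log A + Real.log (1 + Real.log a))) * Real.exp K := by gcongr
      _ = C3 * (L + Real.log A + Real.log (1 + Real.log a)) := by rw [hC3]; ring
  have hC3l : 0 ≤ C3 * Real.log (2 * C3) := by positivity
  constructor
  · refine hmain.trans ?_
    apply mul_le_mul_of_nonneg_right _ (by positivity)
    linarith
  · rintro rfl
    rw [Nat.cast_one, div_one] at hmain
    have h6 : Real.log (1 + Real.log a) ≤ a / (2 * C3) + Real.log (2 * C3) := by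
      have e1 : Real.log (1 + Real.log a) ≤ Real.log a := by
        have := Real.log_le_sub_one_of_pos (by linarith : (0 : ℝ) < 1 + Real.log a)
        linarith
      have e2 : Real.log ((a : ℝ) / (2 * C3)) ≤ a / (2 * C3) - 1 :=
        Real.log_le_sub_one_of_pos (by positivity)
      rw [Real.log_div (by positivity) (by positivity)] at e2
      linarith
    have h7 : C3 * Real.log (1 + Real.log a) ≤ a / 2 + C3 * Real.log (2 * C3) := by
      calc C3 * Real.log (1 + Real.log a) ≤ C3 * (a / (2 * C3) + Real.log (2 * C3)) := by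
            gcongr
        _ = a / 2 + C3 * Real.log (2 * C3) := by
            field_simp
    have h8 : (a : ℝ) ≤ 2 * C3 * (L + Real.log A) + 2 * C3 * Real.log (2 * C3) := by
      nlinarith
    refine h8.trans ?_
    have h9 : 1 ≤ L + Real.log A := by linarith
    have h10 : 2 * C3 * Real.log (2 * C3) ≤ 2 * C3 * Real.log (2 * C3) * (L + Real.log A) := by
      have : 0 ≤ 2 * C3 * Real.log (2 * C3) := by positivity
      nlinarith
    calc 2 * C3 * (L + Real.log A) + 2 * C3 * Real.log (2 * C3)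
        ≤ 2 * C3 * (L + Real.log A) + 2 * C3 * Real.log (2 * C3) * (L + Real.log A) := by linarith
      _ = _ := by ring

end Pool.Agent.Work.MP_495a89_nt
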