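import Pool.Agent.Work.MP_495a89_nt.Interface2
import Pool.Agent.Work.MP_495a89_nt.FIN

/-!
# Block FIN2 of MP_495a89_nt: the main theorem, strong form, from AP, RL2, CMB2, PP and MER
-/

set_option autoImplicit false

namespace Pool.Agent.Work.MP_495a89_nt

open Finset

namespace FIN2

lemma z_le (K M j : ℕ) (hM : 2 * (K + 1) + 20 ≤ M) :
    (((2 : ℝ) ^ (j / M)) ^ (K + 1)) / 2 ^ j ≤ (3 / 4) ^ j := by
  have h1 : 2 * (K + 1) * (j / M) ≤ j := by
    have h2 : j / M * M ≤ j := Nat.div_mul_le_self j M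
    calc 2 * (K + 1) * (j / M) ≤ M * (j / M) := Nat.mul_le_mul_right _ (by omega)
      _ = j / M * M := Nat.mul_comm _ _
      _ ≤ j := h2
  have h3 : ((((2 : ℝ) ^ (j / M)) ^ (K + 1)) / 2 ^ j) ^ 2 ≤ ((3 / 4) ^ j) ^ 2 := by
    have e1 : (((((2 : ℝ) ^ (j / M)) ^ (K + 1)) / 2 ^ j)) ^ 2
        = 2 ^ (2 * (K + 1) * (j / M)) / 2 ^ j * (1 / 2 ^ j) := by
      rw [div_pow, ← pow_mul, ← pow_mul, ← pow_mul, div_mul_div_comm, mul_one, ← pow_add]
      congr 2 <;> ring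
    rw [e1]
    have e2 : (2 : ℝ) ^ (2 * (K + 1) * (j / M)) / 2 ^ j ≤ 1 := by
      rw [div_le_one (by positivity)]
      exact pow_le_pow_right₀ (by norm_num) h1
    have e3 : (1 : ℝ) / 2 ^ j ≤ ((3 / 4) ^ j) ^ 2 := by
      rw [← one_div_pow, ← pow_mul, mul_comm j 2, pow_mul]
      exact pow_le_pow_left₀ (by norm_num) (by norm_num) j
    calc (2 : ℝ) ^ (2 * (K + 1) * (j / M)) / 2 ^ j * (1 / 2 ^ j) ≤ 1 * (1 / 2 ^ j) := by
          apply mul_le_mul_of_nonneg_right e2 (by positivity)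
      _ ≤ _ := by rw [one_mul]; exact e3
  have h4 : (0 : ℝ) ≤ (3 / 4) ^ j := by positivity
  exact le_of_abs_le (by simpa [abs_of_nonneg h4] using sq_le_sq.1 h3)

open Classical in
lemma fac_a (a R z : ℕ) (H : Finset ℕ) :
    ∑ r ∈ (Ioc R z).filter (fun r : ℕ => r.Prime ∧ r ∉ H), (a.factorization r : ℝ)
      ≤ 2 * Real.log a := by
  refine le_trans ?_ (FIN.fac_a a z)
  apply Finset.sum_le_sum_of_subset_of_nonneg
  · intro r hr
    simp only [Finset.mem_filter, Finset.mem_Ioc] at hr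
    simp only [Finset.mem_filter, Finset.mem_Icc]
    exact ⟨⟨by omega, hr.1.2⟩, hr.2.1⟩
  · intro r _ _
    positivity

open Classical in
lemma fac_n (n K z R' : ℕ) (A R : ℝ) (hA : 0 ≤ A) (hR : R < R' + 1) :
    ∑ r ∈ (Ioc R' z).filter (fun r : ℕ => r.Prime ∧ r ∉ HU n K A R), (n.factorization r : ℝ)
      ≤ A * (z : ℝ) ^ (K + 1) := by
  calc ∑ r ∈ (Ioc R' z).filter (fun r : ℕ => r.Prime ∧ r ∉ HU n K A R), (n.factorization r : ℝ)
      ≤ ∑ r ∈ (Ioc R' z).filter (fun r : ℕ => r.Prime ∧ r ∉ HU n K A R), A * (z : ℝ) ^ K := by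
        apply Finset.sum_le_sum
        intro r hr
        simp only [Finset.mem_filter, Finset.mem_Ioc, HU] at hr
        obtain ⟨⟨hr1, hr2⟩, hr3, hr4⟩ := hr
        have h2 : (r : ℝ) ≤ z := by exact_mod_cast hr2
        have h3 : R < r := by
          have : ((R' + 1 : ℕ) : ℝ) ≤ r := by exact_mod_cast hr1
          push_cast at this
          linarith
        by_cases h4 : r ∈ n.primeFactors
        · have h5 : (n.factorization r : ℝ) ≤ A * (r : ℝ) ^ K := by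
            by_contra h6
            exact hr4 ⟨h4, h3, not_le.1 h6⟩
          calc (n.factorization r : ℝ) ≤ A * (r : ℝ) ^ K := h5
            _ ≤ A * (z : ℝ) ^ K := by gcongr
        · have h5 : n.factorization r = 0 := by
            rw [← Nat.support_factorization] at h4
            exact Finsupp.notMem_support_iff.1 h4
          rw [h5, Nat.cast_zero]
          positivity
    _ = (((Ioc R' z).filter (fun r : ℕ => r.Prime ∧ r ∉ HU n K A R)).card : ℝ)
          * (A * (z : ℝ) ^ K) := by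
        rw [Finset.sum_const, nsmul_eq_mul]
    _ ≤ (z : ℝ) * (A * (z : ℝ) ^ K) := by
        gcongr
        have := Finset.card_filter_le (Ioc R' z) (fun r : ℕ => r.Prime ∧ r ∉ HU n K A R)
        rw [Nat.card_Ioc] at this
        omega
    _ = A * (z : ℝ) ^ (K + 1) := by ring

open Classical in
/-- one dyadic block -/
lemma block (W : ℕ → ℝ) (C C' : ℝ) (K M : ℕ) (θ : ℝ) (hθ : 0 ≤ θ) (hW : APW W C) (hC' : 0 < C')
    (hM : 2 * (K + 1) + 20 ≤ M)
    (hRL : ∀ l : ℕ, l.Prime → ∀ j R : ℕ, 1 ≤ j → 1 ≤ R → ∀ (H : Finset ℕ) (h : ℝ),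
      ((l : ℝ) - 1) * ∑ r ∈ H.filter (fun r => r % l = 1), 1 / (r : ℝ) ≤ h →
      ((RR2 l M j R H).card : ℝ) ≤ C' * 2 ^ j * Real.exp h * (W l + Real.log R) / (j : ℝ) ^ 2)
    (h3 : Stmt_CMB2) (n a b : ℕ) (A L R P h : ℝ) (hn : n ≠ 0) (hb : b ≠ 0)
    (hs : ArithmeticFunction.sigma 1 n * b = a * n) (hA : 1 ≤ A) (hL : 1 ≤ L) (hR : 1 ≤ R)
    (hl : ∀ p : ℕ, p.Prime → p ∣ n → P < p → ∃ l : ℕ, l.Prime ∧ l ∣ n.factorization p + 1 ∧
      ((l : ℝ) - 1) * ∑ r ∈ (HU n K A R).filter (fun r => r % l = 1), 1 / (r : ℝ) ≤ h ∧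
      ((l : ℝ) ≤ L ∨ Real.exp h * (1 + Real.log R) * l ≤ Real.log p ^ θ))
    (j : ℕ) (hj : 1 ≤ j) (hP : P ≤ 2 ^ j) :
    ∑ p ∈ SJ n j, 1 / (p : ℝ) ≤ C' * C * (Real.exp h * (1 + Real.log R) * L) * (1 / (j : ℝ) ^ 2)
      + C' * C * (((j : ℝ) + 1) ^ θ / (j : ℝ) ^ 2) + (A + 2 * Real.log a) * (3 / 4) ^ j := by
  have hC1 : 1 ≤ C := hW.one_le
  have hC : 0 ≤ C := le_trans zero_le_one hC1
  have hj' : (1 : ℝ) ≤ j := by exact_mod_cast hj
  have hla : 0 ≤ Real.log a := Real.log_natCast_nonneg a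
  have hlR : 0 ≤ Real.log R := Real.log_nonneg hR
  set E : ℝ := Real.exp h * (1 + Real.log R) with hE
  have hE0 : 0 < E := by positivity
  have hθj : 0 ≤ ((j : ℝ) + 1) ^ θ := by positivity
  set Lj : ℝ := L + ((j : ℝ) + 1) ^ θ / E with hLj
  have hLj0 : 0 ≤ Lj := by positivity
  set Lb : ℕ := ⌊Lj⌋₊ with hLb
  set R' : ℕ := ⌊R⌋₊ with hR'
  have hR'1 : 1 ≤ R' := Nat.le_floor (by simpa using hR)
  have hR'R : (R' : ℝ) ≤ R := Nat.floor_le (by linarith)
  have hRR' : R < R' + 1 := Nat.lt_floor_add_one R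
  have hlR' : Real.log R' ≤ Real.log R :=
    Real.log_le_log (by exact_mod_cast hR'1) hR'R
  have hlR'0 : 0 ≤ Real.log R' := Real.log_natCast_nonneg R'
  have hcmb := h3 n a b M j Lb R' (HU n K A R)
    (fun l => ((l : ℝ) - 1) * ∑ r ∈ (HU n K A R).filter (fun r => r % l = 1), 1 / (r : ℝ) ≤ h)
    hn hb hR'1 hs (by
    intro p hp
    simp only [SJ, Finset.mem_filter] at hp
    obtain ⟨hp1, hp2, hp3⟩ := hp
    have hPp : P < p := by
      refine hP.trans_lt ?_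
      exact_mod_cast hp2
    obtain ⟨l, hl1, hl2, hlG, hl3⟩ := hl p (Nat.prime_of_mem_primeFactors hp1)
      (Nat.dvd_of_mem_primeFactors hp1) hPp
    refine ⟨l, hl1, hlG, ?_, hl2⟩
    apply Nat.le_floor
    rcases hl3 with hl3 | hl3
    · have : 0 ≤ ((j : ℝ) + 1) ^ θ / E := by positivity
      linarith
    · have h5 : Real.log p ≤ (j : ℝ) + 1 := by
        have h6 : Real.log p ≤ Real.log ((2 : ℝ) ^ (j + 1)) := by
          apply Real.log_le_log
          · exact_mod_cast (Nat.prime_of_mem_primeFactors hp1).pos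
          · exact_mod_cast hp3
        rw [Real.log_pow] at h6
        have h7 := Real.log_two_lt_d9
        push_cast at h6
        nlinarith
      have h8 : Real.log p ^ θ ≤ ((j : ℝ) + 1) ^ θ :=
        Real.rpow_le_rpow (Real.log_natCast_nonneg p) h5 hθ
      have h9 : (l : ℝ) ≤ ((j : ℝ) + 1) ^ θ / E := by
        rw [le_div_iff₀ hE0, mul_comm]
        exact hl3.trans h8
      linarith)
  have hcmb' : ((SJ n j).card : ℝ) ≤ ∑ l ∈ (Icc 1 Lb).filter (fun l : ℕ => l.Prime ∧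
        ((l : ℝ) - 1) * ∑ r ∈ (HU n K A R).filter (fun r => r % l = 1), 1 / (r : ℝ) ≤ h),
        ((RR2 l M j R' (HU n K A R)).card : ℝ)
      + ∑ r ∈ (Ioc R' (2 ^ (j / M))).filter (fun r : ℕ => r.Prime ∧ r ∉ HU n K A R),
        ((a.factorization r : ℝ) + (n.factorization r : ℝ)) := by
    exact_mod_cast hcmb
  have hA1 : ∑ l ∈ (Icc 1 Lb).filter (fun l : ℕ => l.Prime ∧
        ((l : ℝ) - 1) * ∑ r ∈ (HU n K A R).filter (fun r => r % l = 1), 1 / (r : ℝ) ≤ h),
        ((RR2 l M j R' (HU n K A R)).card : ℝ)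
      ≤ C' * 2 ^ j * Real.exp h / (j : ℝ) ^ 2 * (C * (1 + Real.log R) * Lj) := by
    calc ∑ l ∈ (Icc 1 Lb).filter (fun l : ℕ => l.Prime ∧
        ((l : ℝ) - 1) * ∑ r ∈ (HU n K A R).filter (fun r => r % l = 1), 1 / (r : ℝ) ≤ h),
        ((RR2 l M j R' (HU n K A R)).card : ℝ)
        ≤ ∑ l ∈ (Icc 1 Lb).filter (fun l : ℕ => l.Prime ∧
        ((l : ℝ) - 1) * ∑ r ∈ (HU n K A R).filter (fun r => r % l = 1), 1 / (r : ℝ) ≤ h),
          C' * 2 ^ j * Real.exp h / (j : ℝ) ^ 2 * (W l + Real.log R) := by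
          apply Finset.sum_le_sum
          intro l hl'
          have hl'' := (Finset.mem_filter.1 hl').2
          refine (hRL l hl''.1 j R' hj hR'1 (HU n K A R) h hl''.2).trans ?_
          have e1 : C' * 2 ^ j * Real.exp h * (W l + Real.log R') / (j : ℝ) ^ 2
              = C' * 2 ^ j * Real.exp h / (j : ℝ) ^ 2 * (W l + Real.log R') := by ring
          rw [e1]
          gcongr
      _ ≤ ∑ l ∈ (Icc 1 Lb).filter Nat.Prime,
          C' * 2 ^ j * Real.exp h / (j : ℝ) ^ 2 * (W l + Real.log R) := by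
          apply Finset.sum_le_sum_of_subset_of_nonneg
          · intro l hl'
            simp only [Finset.mem_filter] at hl' ⊢
            exact ⟨hl'.1, hl'.2.1⟩
          · intro l hl' _
            have h6 := hW.three_le l (Finset.mem_filter.1 hl').2
            have h7 : 0 ≤ W l + Real.log R := by linarith
            positivity
      _ = C' * 2 ^ j * Real.exp h / (j : ℝ) ^ 2 * (∑ l ∈ (Icc 1 Lb).filter Nat.Prime, W l
            + (((Icc 1 Lb).filter Nat.Prime).card : ℝ) * Real.log R) := by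
          rw [← Finset.mul_sum, Finset.sum_add_distrib, Finset.sum_const, nsmul_eq_mul]
      _ ≤ C' * 2 ^ j * Real.exp h / (j : ℝ) ^ 2 * (C * (1 + Real.log R) * Lj) := by
          apply mul_le_mul_of_nonneg_left _ (by positivity)
          have h6 : (Lb : ℝ) ≤ Lj := Nat.floor_le hLj0
          have h7 : (((Icc 1 Lb).filter Nat.Prime).card : ℝ) ≤ Lb := by
            have := Finset.card_filter_le (Icc 1 Lb) Nat.Prime
            rw [Nat.card_Icc] at this
            exact_mod_cast (by omega : ((Icc 1 Lb).filter Nat.Prime).card ≤ Lb)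
          have h8 : C * (Lb : ℝ) ≤ C * Lj := mul_le_mul_of_nonneg_left h6 hC
          have h9 : (((Icc 1 Lb).filter Nat.Prime).card : ℝ) * Real.log R ≤ C * Lj * Real.log R := by
            apply mul_le_mul_of_nonneg_right _ hlR
            nlinarith
          have h10 := hW.sum_le Lb
          nlinarith
  have hA2 : ∑ r ∈ (Ioc R' (2 ^ (j / M))).filter (fun r : ℕ => r.Prime ∧ r ∉ HU n K A R),
        ((a.factorization r : ℝ) + (n.factorization r : ℝ))
      ≤ 2 * Real.log a + A * (((2 : ℝ) ^ (j / M)) ^ (K + 1)) := by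
    rw [Finset.sum_add_distrib]
    have e1 := fac_a a R' (2 ^ (j / M)) (HU n K A R)
    have e2 := fac_n n K (2 ^ (j / M)) R' A R (by linarith) hRR'
    push_cast at e2
    linarith
  have hsum : ∑ p ∈ SJ n j, 1 / (p : ℝ) ≤ ((SJ n j).card : ℝ) / 2 ^ j := by
    calc ∑ p ∈ SJ n j, 1 / (p : ℝ) ≤ ∑ p ∈ SJ n j, 1 / (2 : ℝ) ^ j := by
          apply Finset.sum_le_sum
          intro p hp
          simp only [SJ, Finset.mem_filter] at hp
          apply one_div_le_one_div_of_le (by positivity)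
          exact_mod_cast hp.2.1.le
      _ = ((SJ n j).card : ℝ) / 2 ^ j := by
          rw [Finset.sum_const, nsmul_eq_mul]; ring
  have h2j : (0 : ℝ) < 2 ^ j := by positivity
  have hz := z_le K M j hM
  have hh := FIN.half_le j
  calc ∑ p ∈ SJ n j, 1 / (p : ℝ) ≤ ((SJ n j).card : ℝ) / 2 ^ j := hsum
    _ ≤ (C' * 2 ^ j * Real.exp h / (j : ℝ) ^ 2 * (C * (1 + Real.log R) * Lj)
        + (2 * Real.log a + A * (((2 : ℝ) ^ (j / M)) ^ (K + 1)))) / 2 ^ j := by
        apply div_le_div_of_nonneg_right _ h2j.le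
        linarith
    _ = C' * C * (E * Lj) * (1 / (j : ℝ) ^ 2)
        + (2 * Real.log a) * (1 / 2 ^ j) + A * ((((2 : ℝ) ^ (j / M)) ^ (K + 1)) / 2 ^ j) := by
        rw [hE]
        field_simp
        ring
    _ = C' * C * (E * L) * (1 / (j : ℝ) ^ 2) + C' * C * (((j : ℝ) + 1) ^ θ / (j : ℝ) ^ 2)
        + (2 * Real.log a) * (1 / 2 ^ j) + A * ((((2 : ℝ) ^ (j / M)) ^ (K + 1)) / 2 ^ j) := by
        have e3 : E * Lj = E * L + ((j : ℝ) + 1) ^ θ := by
          rw [hLj, mul_add, mul_div_cancel₀ _ hE0.ne']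
        rw [e3]
        ring
    _ ≤ C' * C * (E * L) * (1 / (j : ℝ) ^ 2) + C' * C * (((j : ℝ) + 1) ^ θ / (j : ℝ) ^ 2)
        + (2 * Real.log a) * ((3 / 4) ^ j) + A * ((3 / 4) ^ j) := by
        gcongr
    _ = _ := by ring

/-- the sum of `(j+1) ^ θ / j ^ 2` -/
lemma sum_theta (θ : ℝ) (hθ : 0 ≤ θ) (hθ1 : θ < 1) : ∃ D : ℝ, 0 ≤ D ∧ ∀ J N : ℕ, 1 ≤ J →
    ∑ j ∈ Ico J N, ((j : ℝ) + 1) ^ θ / (j : ℝ) ^ 2 ≤ D := by
  have hsum : Summable (fun j : ℕ => 2 * (j : ℝ) ^ (θ - 2)) :=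
    (Real.summable_nat_rpow.2 (by linarith)).mul_left 2
  refine ⟨∑' j : ℕ, 2 * (j : ℝ) ^ (θ - 2), tsum_nonneg (fun j => by positivity), ?_⟩
  intro J N hJ
  calc ∑ j ∈ Ico J N, ((j : ℝ) + 1) ^ θ / (j : ℝ) ^ 2
      ≤ ∑ j ∈ Ico J N, 2 * (j : ℝ) ^ (θ - 2) := by
        apply Finset.sum_le_sum
        intro j hj
        have hj1 : 1 ≤ j := hJ.trans (Finset.mem_Ico.1 hj).1
        have hj' : (1 : ℝ) ≤ j := by exact_mod_cast hj1
        have hj0 : (0 : ℝ) < j := by linarith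
        have e1 : (j : ℝ) ^ (θ - 2) = (j : ℝ) ^ θ / (j : ℝ) ^ 2 := by
          rw [Real.rpow_sub hj0, Real.rpow_two]
        have e2 : ((j : ℝ) + 1) ^ θ ≤ 2 * (j : ℝ) ^ θ := by
          calc ((j : ℝ) + 1) ^ θ ≤ (2 * (j : ℝ)) ^ θ :=
                Real.rpow_le_rpow (by linarith) (by linarith) hθ
            _ = 2 ^ θ * (j : ℝ) ^ θ := Real.mul_rpow (by norm_num) hj0.le
            _ ≤ 2 * (j : ℝ) ^ θ := by
                apply mul_le_mul_of_nonneg_right _ (by positivity)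
                calc (2 : ℝ) ^ θ ≤ 2 ^ (1 : ℝ) :=
                      Real.rpow_le_rpow_of_exponent_le (by norm_num) hθ1.le
                  _ = 2 := Real.rpow_one 2
        rw [e1, ← mul_div_assoc]
        apply div_le_div_of_nonneg_right e2 (by positivity)
    _ ≤ ∑' j : ℕ, 2 * (j : ℝ) ^ (θ - 2) :=
        hsum.sum_le_tsum _ (fun j _ => by positivity)

/-- the tail of the dyadic blocks -/
lemma tail (W : ℕ → ℝ) (C C' : ℝ) (K M : ℕ) (θ D : ℝ) (hθ : 0 ≤ θ)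
    (hD : ∀ J N : ℕ, 1 ≤ J → ∑ j ∈ Ico J N, ((j : ℝ) + 1) ^ θ / (j : ℝ) ^ 2 ≤ D)
    (hW : APW W C) (hC' : 0 < C') (hM : 2 * (K + 1) + 20 ≤ M)
    (hRL : ∀ l : ℕ, l.Prime → ∀ j R : ℕ, 1 ≤ j → 1 ≤ R → ∀ (H : Finset ℕ) (h : ℝ),
      ((l : ℝ) - 1) * ∑ r ∈ H.filter (fun r => r % l = 1), 1 / (r : ℝ) ≤ h →
      ((RR2 l M j R H).card : ℝ) ≤ C' * 2 ^ j * Real.exp h * (W l + Real.log R) / (j : ℝ) ^ 2)
    (h3 : Stmt_CMB2) (n a b : ℕ) (A L R P h : ℝ) (hn : n ≠ 0) (hb : b ≠ 0)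
    (hs : ArithmeticFunction.sigma 1 n * b = a * n) (hA : 1 ≤ A) (hL : 1 ≤ L) (hR : 1 ≤ R)
    (hP1 : 1 ≤ P)
    (hl : ∀ p : ℕ, p.Prime → p ∣ n → P < p → ∃ l : ℕ, l.Prime ∧ l ∣ n.factorization p + 1 ∧
      ((l : ℝ) - 1) * ∑ r ∈ (HU n K A R).filter (fun r => r % l = 1), 1 / (r : ℝ) ≤ h ∧
      ((l : ℝ) ≤ L ∨ Real.exp h * (1 + Real.log R) * l ≤ Real.log p ^ θ))
    (J : ℕ) (hJ1 : 1 ≤ J) (hJL : Real.exp h * (1 + Real.log R) * L ≤ J)
    (hJA : 4 * Real.log A ≤ J) (hJa : 4 * Real.log (1 + Real.log a) ≤ J)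
    (hJP : 2 * Real.log P ≤ J) (N : ℕ) (hN : J ≤ N) :
    ∑ j ∈ Ico J N, ∑ p ∈ SJ n j, 1 / (p : ℝ) ≤ (2 + D) * (C' * C) + 12 := by
  have hC : 0 ≤ C := le_trans zero_le_one hW.one_le
  have hla : 0 ≤ Real.log a := Real.log_natCast_nonneg a
  have hJ0 : (1 : ℝ) ≤ J := by exact_mod_cast hJ1
  have hlR : 0 ≤ Real.log R := Real.log_nonneg hR
  have hPJ : P ≤ 2 ^ J := by
    have e1 : Real.log P ≤ Real.log ((2 : ℝ) ^ J) := by
      rw [Real.log_pow]
      have := Real.log_two_gt_d9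
      nlinarith
    exact (Real.log_le_log_iff (by linarith) (by positivity)).1 e1
  set E : ℝ := Real.exp h * (1 + Real.log R) with hE
  have hE0 : 0 < E := by positivity
  have h1 : ∑ j ∈ Ico J N, ∑ p ∈ SJ n j, 1 / (p : ℝ)
      ≤ C' * C * (E * L) * ∑ j ∈ Ico J N, 1 / (j : ℝ) ^ 2
        + C' * C * ∑ j ∈ Ico J N, ((j : ℝ) + 1) ^ θ / (j : ℝ) ^ 2
        + (A + 2 * Real.log a) * ∑ j ∈ Ico J N, ((3 : ℝ) / 4) ^ j := by
    rw [Finset.mul_sum, Finset.mul_sum, Finset.mul_sum, ← Finset.sum_add_distrib,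
      ← Finset.sum_add_distrib]
    apply Finset.sum_le_sum
    intro j hj
    have hj1 := (Finset.mem_Ico.1 hj).1
    exact block W C C' K M θ hθ hW hC' hM hRL h3 n a b A L R P h hn hb hs hA hL hR hl j
      (hJ1.trans hj1) (hPJ.trans (pow_le_pow_right₀ (by norm_num) hj1))
  have h2 : ∑ j ∈ Ico J N, 1 / (j : ℝ) ^ 2 ≤ 2 / (J : ℝ) := by
    have := FIN.sum_sq J N hJ1 hN
    have h' : (0 : ℝ) ≤ 2 / (N : ℝ) := by positivity
    linarith
  have h4 := hD J N hJ1
  have h5 : ∑ j ∈ Ico J N, ((3 : ℝ) / 4) ^ j ≤ 4 * (3 / 4) ^ J := by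
    have := FIN.sum_geo J N hN
    have h' : (0 : ℝ) ≤ (3 / 4) ^ N := by positivity
    linarith
  have h6 : C' * C * (E * L) * (2 / (J : ℝ)) ≤ C' * C * 2 := by
    have : (E * L) * (2 / (J : ℝ)) ≤ 2 := by
      rw [mul_div_assoc', div_le_iff₀ (by positivity)]
      linarith
    calc C' * C * (E * L) * (2 / (J : ℝ)) = C' * C * ((E * L) * (2 / (J : ℝ))) := by ring
      _ ≤ C' * C * 2 := by gcongr
  have h7 : A * (3 / 4 : ℝ) ^ J ≤ 1 := FIN.pow_bound J A (by linarith) hJA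
  have h8 : (1 + Real.log a) * (3 / 4 : ℝ) ^ J ≤ 1 := FIN.pow_bound J _ (by linarith) hJa
  have h9 : (0 : ℝ) ≤ (3 / 4) ^ J := by positivity
  calc ∑ j ∈ Ico J N, ∑ p ∈ SJ n j, 1 / (p : ℝ)
      ≤ C' * C * (E * L) * ∑ j ∈ Ico J N, 1 / (j : ℝ) ^ 2
        + C' * C * ∑ j ∈ Ico J N, ((j : ℝ) + 1) ^ θ / (j : ℝ) ^ 2
        + (A + 2 * Real.log a) * ∑ j ∈ Ico J N, ((3 : ℝ) / 4) ^ j := h1
    _ ≤ C' * C * (E * L) * (2 / (J : ℝ)) + C' * C * D
        + (A + 2 * Real.log a) * (4 * (3 / 4) ^ J) := by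
        gcongr
    _ ≤ C' * C * 2 + C' * C * D + (4 + 8) := by
        have : (A + 2 * Real.log a) * (4 * (3 / 4 : ℝ) ^ J) ≤ 4 + 8 := by nlinarith
        linarith
    _ = (2 + D) * (C' * C) + 12 := by ring

end FIN2

open FIN2 in
theorem stmt_MAIN2 (h1 : Stmt_AP) (h2 : Stmt_RL2) (h3 : Stmt_CMB2) (h4 : Stmt_PP)
    (h5 : Stmt_MER) : Stmt_MAIN2 := by
  intro K θ hθ hθ1
  obtain ⟨W, C, hW⟩ := h1
  obtain ⟨C', M, hC', hM, hRL⟩ := h2 W C hW (2 * (K + 1) + 20)
  obtain ⟨Cm, hCm⟩ := h5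
  obtain ⟨D, hD0, hD⟩ := sum_theta θ hθ hθ1
  have hC : 0 ≤ C := le_trans zero_le_one hW.one_le
  set Q : ℝ := |Cm| + (2 + D) * (C' * C) + 13 with hQ
  have hQ0 : 0 ≤ Q := by positivity
  set C3 : ℝ := 5 * Real.exp Q with hC3
  have hC35 : 5 ≤ C3 := by
    have := Real.one_le_exp hQ0
    linarith
  have hlog3 : 0 ≤ Real.log (2 * C3) := Real.log_nonneg (by linarith)
  refine ⟨2 * C3 + 2 * C3 * Real.log (2 * C3), ?_⟩
  intro n a b A L R P h hn hb hs hA hL hR hP hh hl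
  have ha : a ≠ 0 := by
    rintro rfl
    rw [zero_mul] at hs
    have hσ : 0 < ArithmeticFunction.sigma 1 n := by
      rw [ArithmeticFunction.sigma_one_apply]
      exact Finset.sum_pos (fun d hd => Nat.pos_of_mem_divisors hd)
        ⟨1, Nat.one_mem_divisors.2 hn⟩
    rcases Nat.mul_eq_zero.1 hs with h | h
    · omega
    · exact hb h
  have ha1 : (1 : ℝ) ≤ a := by exact_mod_cast Nat.one_le_iff_ne_zero.2 ha
  have hla : 0 ≤ Real.log a := Real.log_nonneg ha1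
  have hlA : 0 ≤ Real.log A := Real.log_nonneg hA
  have hlR : 0 ≤ Real.log R := Real.log_nonneg hR
  have hlP : 0 ≤ Real.log P := Real.log_nonneg hP
  have hlla : 0 ≤ Real.log (1 + Real.log a) := Real.log_nonneg (by linarith)
  set EL : ℝ := Real.exp h * (1 + Real.log R) * L with hEL
  have hEL1 : 1 ≤ EL := by
    have e1 : 1 ≤ Real.exp h := Real.one_le_exp hh
    have e2 : 1 ≤ Real.exp h * (1 + Real.log R) := one_le_mul_of_one_le_of_one_le e1 (by linarith)
    exact one_le_mul_of_one_le_of_one_le e2 hL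
  set X : ℝ := EL + 4 * Real.log A + 4 * Real.log (1 + Real.log a) + 2 * Real.log P with hX
  have hX1 : 1 ≤ X := by rw [hX]; linarith
  set J : ℕ := ⌈X⌉₊ with hJ
  have hJX : X ≤ J := Nat.le_ceil X
  have hJX' : (J : ℝ) ≤ X + 1 := (Nat.ceil_lt_add_one (by linarith)).le
  have hJ1 : 1 ≤ J := by
    have : (1 : ℝ) ≤ J := hX1.trans hJX
    exact_mod_cast this
  have hJ0 : (0 : ℝ) < J := by exact_mod_cast hJ1
  have htail := tail W C C' K M θ D hθ hD hW hC' hM hRL h3 n a b A L R P h hn hb hs hA hL hR hP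
    hl J hJ1 (by linarith) (by linarith) (by linarith) (by linarith) (max J n) (le_max_left _ _)
  have hsplit := FIN.split n J (fun p => 1 / (p : ℝ)) (max J n) (le_max_left _ _)
  rw [FIN.full n (max J n) (le_max_right _ _)] at hsplit
  have hmer : ∑ p ∈ n.primeFactors.filter (fun p => p ≤ 2 ^ J), 1 / (p : ℝ)
      ≤ Real.log J + |Cm| := by
    refine le_trans ?_ ((hCm J hJ1).trans (by linarith [le_abs_self Cm]))
    apply Finset.sum_le_sum_of_subset_of_nonneg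
    · intro p hp
      simp only [Finset.mem_filter] at hp
      simp only [Finset.mem_filter, Finset.mem_Icc]
      have := Nat.prime_of_mem_primeFactors hp.1
      exact ⟨⟨this.one_lt.le, hp.2⟩, this⟩
    · intro p _ _
      positivity
  have hpp := h4 n a b hn hb hs
  have hlogab : Real.log ((a : ℝ) / b) ≤ Real.log J + Q := by
    rw [hQ]
    linarith
  have hb0 : (0 : ℝ) < b := by exact_mod_cast Nat.pos_of_ne_zero hb
  have hab0 : (0 : ℝ) < (a : ℝ) / b := by positivity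
  have hab : (a : ℝ) / b ≤ J * Real.exp Q := by
    rw [← Real.exp_log hab0]
    calc Real.exp (Real.log ((a : ℝ) / b)) ≤ Real.exp (Real.log J + Q) := Real.exp_le_exp.2 hlogab
      _ = J * Real.exp Q := by rw [Real.exp_add, Real.exp_log hJ0]
  have hmain : (a : ℝ) / b
      ≤ C3 * (EL + Real.log A + Real.log P + Real.log (1 + Real.log a)) := by
    have hJ5 : (J : ℝ) ≤ 5 * (EL + Real.log A + Real.log P + Real.log (1 + Real.log a)) := by
      rw [hX] at hJX'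
      linarith
    calc (a : ℝ) / b ≤ J * Real.exp Q := hab
      _ ≤ (5 * (EL + Real.log A + Real.log P + Real.log (1 + Real.log a))) * Real.exp Q := by
          gcongr
      _ = C3 * (EL + Real.log A + Real.log P + Real.log (1 + Real.log a)) := by rw [hC3]; ring
  have hC3l : 0 ≤ C3 * Real.log (2 * C3) := by positivity
  constructor
  · refine hmain.trans ?_
    apply mul_le_mul_of_nonneg_right _ (by positivity)
    linarith
  · rintro rfl
    rw [Nat.cast_one, div_one] at hmain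
    have h6 : Real.log (1 + Real.log a) ≤ a / (2 * C3) + Real.log (2 * C3) := by
      have e1 : Real.log (1 + Real.log a) ≤ Real.log a := by
        have := Real.log_le_sub_one_of_pos (by linarith : (0 : ℝ) < 1 + Real.log a)
        linarith
      have e2 : Real.log ((a : ℝ) / (2 * C3)) ≤ a / (2 * C3) - 1 :=
        Real.log_le_sub_one_of_pos (by positivity)
      rw [Real.log_div (by positivity) (by positivity)] at e2
      linarith
    have h7 : C3 * Real.log (1 + Real.log a) ≤ a / 2 + C3 * Real.log (2 * C3) := by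
      calc C3 * Real.log (1 + Real.log a) ≤ C3 * (a / (2 * C3) + Real.log (2 * C3)) := by
            gcongr
        _ = a / 2 + C3 * Real.log (2 * C3) := by
            field_simp
    have h8 : (a : ℝ) ≤ 2 * C3 * (EL + Real.log A + Real.log P)
        + 2 * C3 * Real.log (2 * C3) := by
      nlinarith
    refine h8.trans ?_
    have h9 : 1 ≤ EL + Real.log A + Real.log P := by linarith
    have h10 : 2 * C3 * Real.log (2 * C3)
        ≤ 2 * C3 * Real.log (2 * C3) * (EL + Real.log A + Real.log P) := by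
      have : 0 ≤ 2 * C3 * Real.log (2 * C3) := by positivity
      nlinarith
    calc 2 * C3 * (EL + Real.log A + Real.log P) + 2 * C3 * Real.log (2 * C3)
        ≤ 2 * C3 * (EL + Real.log A + Real.log P)
          + 2 * C3 * Real.log (2 * C3) * (EL + Real.log A + Real.log P) := by linarith
      _ = _ := by ring

end Pool.Agent.Work.MP_495a89_nt
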