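import Pool.Agent.Work.MP_495a89_nt.Interface
import Pool.Agent.Work.MP_b0c12c_nt_helper41.Mert

/-!
# Block MER: upper bound in Mertens' second theorem at powers of two
-/

set_option autoImplicit false

namespace Pool.Agent.Work.MP_495a89_nt

open Finset

theorem stmt_MER : Stmt_MER := by
  obtain ⟨C, _, h⟩ := Pool.Agent.Work.MP_b0c12c_nt_helper41.mertens2
  refine ⟨1 / 2 + C / Real.log 2, fun J hJ => ?_⟩
  have h2 : 2 ≤ 2 ^ J := by
    calc 2 = 2 ^ 1 := by norm_num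
      _ ≤ 2 ^ J := Nat.pow_le_pow_right (by norm_num) hJ
  have key := (abs_le.1 (h 2 (2 ^ J) le_rfl h2)).2
  have hset : (Icc 1 (2 ^ J)).filter Nat.Prime
      = insert 2 ((Ioc 2 (2 ^ J)).filter Nat.Prime) := by
    ext p
    simp only [mem_filter, mem_Icc, mem_insert, mem_Ioc]
    constructor
    · rintro ⟨⟨_, hp2⟩, hp⟩
      rcases eq_or_lt_of_le hp.two_le with h' | h'
      · exact Or.inl h'.symm
      · exact Or.inr ⟨⟨h', hp2⟩, hp⟩
    · rintro (rfl | ⟨⟨hp1, hp2⟩, hp⟩)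
      · exact ⟨⟨by norm_num, h2⟩, Nat.prime_two⟩
      · exact ⟨⟨by omega, hp2⟩, hp⟩
  have hsum : ∑ p ∈ (Icc 1 (2 ^ J)).filter Nat.Prime, 1 / (p : ℝ)
      = 1 / 2 + ∑ p ∈ (Ioc 2 (2 ^ J)).filter Nat.Prime, 1 / (p : ℝ) := by
    rw [hset, sum_insert (by simp)]
    norm_num
  have hlog2 : 0 < Real.log 2 := Real.log_pos (by norm_num)
  have hJ0 : (0 : ℝ) < J := by exact_mod_cast hJ
  have hloglog : Real.log (Real.log ((2 ^ J : ℕ) : ℝ)) = Real.log J + Real.log (Real.log 2) := by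
    rw [Nat.cast_pow, Real.log_pow, Real.log_mul hJ0.ne' (by
      have : ((2 : ℕ) : ℝ) = 2 := by norm_num
      rw [this]; exact hlog2.ne')]
    norm_num
  rw [hloglog] at key
  rw [hsum]
  have h22 : ((2 : ℕ) : ℝ) = 2 := by norm_num
  rw [h22] at key
  linarith

end Pool.Agent.Work.MP_495a89_nt
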