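import Pool.Agent.Work.MP_495a89_nt.Interface

set_option autoImplicit false

namespace Pool.Agent.Work.MP_495a89_nt

open Finset

namespace PP_

theorem pow_le (p : ℕ) (hp : p.Prime) (i : ℕ) :
    ((ArithmeticFunction.sigma 1 (p ^ i) : ℕ) : ℝ) ≤ (p : ℝ) ^ i * ((p : ℝ) / (p - 1)) := by
  rw [ArithmeticFunction.sigma_one_apply_prime_pow hp]
  push_cast
  have h1 : (1 : ℝ) < p := by exact_mod_cast hp.one_lt
  have h2 : (0 : ℝ) < (p : ℝ) - 1 := by linarith
  rw [← mul_div_assoc, le_div_iff₀ h2, geom_sum_mul, pow_succ]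
  linarith

theorem sig_le (n : ℕ) (hn : n ≠ 0) :
    ((ArithmeticFunction.sigma 1 n : ℕ) : ℝ)
      ≤ n * ∏ p ∈ n.primeFactors, ((p : ℝ) / (p - 1)) := by
  have h1 : ArithmeticFunction.sigma 1 n
      = n.factorization.prod (fun p k => ArithmeticFunction.sigma 1 (p ^ k)) :=
    ArithmeticFunction.isMultiplicative_sigma.multiplicative_factorization _ hn
  have h2 : (n : ℝ) = ∏ p ∈ n.primeFactors, (p : ℝ) ^ n.factorization p := by
    have h3 := Nat.prod_factorization_pow_eq_self hn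
    have h4 : ((n.factorization.prod (fun p k => p ^ k) : ℕ) : ℝ) = (n : ℝ) := by rw [h3]
    rw [← h4, Finsupp.prod, Nat.support_factorization]
    push_cast
    rfl
  rw [h1, Finsupp.prod, Nat.support_factorization]
  conv_rhs => rw [h2]
  rw [← Finset.prod_mul_distrib]
  push_cast
  refine Finset.prod_le_prod (fun p _ => by positivity) (fun p hp => ?_)
  exact pow_le p (Nat.prime_of_mem_primeFactors hp) _

theorem tele (n : ℕ) : ∑ m ∈ Icc 2 (n + 1), 1 / ((m : ℝ) * (m - 1)) = 1 - 1 / ((n : ℝ) + 1) := by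
  induction n with
  | zero => simp
  | succ k ih =>
    rw [Finset.sum_Icc_succ_top (by omega), ih]
    push_cast
    field_simp
    ring

theorem small (n : ℕ) (hn : n ≠ 0) :
    ∑ p ∈ n.primeFactors, 1 / ((p : ℝ) * (p - 1)) ≤ 1 := by
  have h1 : n.primeFactors ⊆ Icc 2 (n + 1) := by
    intro p hp
    rw [Finset.mem_Icc]
    refine ⟨(Nat.prime_of_mem_primeFactors hp).two_le, ?_⟩
    exact (Nat.le_of_dvd (Nat.pos_of_ne_zero hn) (Nat.dvd_of_mem_primeFactors hp)).trans
      (Nat.le_succ n)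
  have h2 : ∑ p ∈ n.primeFactors, 1 / ((p : ℝ) * (p - 1))
      ≤ ∑ m ∈ Icc 2 (n + 1), 1 / ((m : ℝ) * (m - 1)) := by
    refine Finset.sum_le_sum_of_subset_of_nonneg h1 (fun m hm _ => ?_)
    have h3 : (2 : ℝ) ≤ m := by exact_mod_cast (Finset.mem_Icc.1 hm).1
    have h4 : (0 : ℝ) ≤ (m : ℝ) - 1 := by linarith
    positivity
  rw [tele] at h2
  have h5 : (0 : ℝ) ≤ 1 / ((n : ℝ) + 1) := by positivity
  linarith

end PP_

open PP_ in
theorem stmt_PP : Stmt_PP := by
  intro n a b hn hb h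
  have hnR : (0 : ℝ) < n := by exact_mod_cast Nat.pos_of_ne_zero hn
  have hbR : (0 : ℝ) < b := by exact_mod_cast Nat.pos_of_ne_zero hb
  have hR : ((ArithmeticFunction.sigma 1 n : ℕ) : ℝ) * b = a * n := by exact_mod_cast h
  have hab : (a : ℝ) / b = ((ArithmeticFunction.sigma 1 n : ℕ) : ℝ) / n := by
    rw [div_eq_div_iff hbR.ne' hnR.ne', hR]
  have hspos : (0 : ℝ) < ((ArithmeticFunction.sigma 1 n : ℕ) : ℝ) := by
    have : 0 < ArithmeticFunction.sigma 1 n :=
      ArithmeticFunction.sigma_pos 1 n hn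
    exact_mod_cast this
  have hle : (a : ℝ) / b ≤ ∏ p ∈ n.primeFactors, ((p : ℝ) / (p - 1)) := by
    rw [hab, div_le_iff₀ hnR, mul_comm]
    exact sig_le n hn
  have hpos : 0 < (a : ℝ) / b := by rw [hab]; positivity
  have h1 : Real.log ((a : ℝ) / b) ≤ Real.log (∏ p ∈ n.primeFactors, ((p : ℝ) / (p - 1))) :=
    Real.log_le_log hpos hle
  have hp1 : ∀ p ∈ n.primeFactors, (0 : ℝ) < (p : ℝ) - 1 := by
    intro p hp
    have : (1 : ℝ) < p := by exact_mod_cast (Nat.prime_of_mem_primeFactors hp).one_lt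
    linarith
  rw [Real.log_prod (fun p hp => by
    have := hp1 p hp
    have h3 : (0 : ℝ) < (p : ℝ) := by linarith
    exact (div_pos h3 this).ne')] at h1
  have h2 : ∑ p ∈ n.primeFactors, Real.log ((p : ℝ) / (p - 1))
      ≤ ∑ p ∈ n.primeFactors, (1 / (p : ℝ) + 1 / ((p : ℝ) * (p - 1))) := by
    refine Finset.sum_le_sum (fun p hp => ?_)
    have h3 := hp1 p hp
    have h4 : (0 : ℝ) < (p : ℝ) := by linarith
    have h5 := Real.log_le_sub_one_of_pos (div_pos h4 h3)
    refine h5.trans (le_of_eq ?_)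
    field_simp
    ring
  rw [Finset.sum_add_distrib] at h2
  have h3 := small n hn
  linarith

end Pool.Agent.Work.MP_495a89_nt
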