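import Pool.Agent.Work.MP_495a89_nt.Interface

/-!
# MP_495a89_nt: block RL (the sieve bound for the primes without prime divisors `1 mod l`)
-/

set_option autoImplicit false

namespace Pool.Agent.Work.MP_495a89_nt

open Finset

namespace RL

/-- the trivial bound: primes in a dyadic interval -/
theorem dyadic_primes (j : ℕ) (hj : 1 ≤ j) :
    ((((Ioc (2 ^ j) (2 ^ (j + 1))).filter Nat.Prime).card : ℕ) : ℝ) ≤ 4 * 2 ^ j / j := by
  have hlog2 : 0 < Real.log 2 := Real.log_pos (by norm_num)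
  have hj' : (0 : ℝ) < j := by exact_mod_cast hj
  have h1 : ((((Ioc (2 ^ j) (2 ^ (j + 1))).filter Nat.Prime).card : ℕ) : ℝ) * (j * Real.log 2) ≤
      Chebyshev.theta ((2 : ℝ) ^ (j + 1)) := by
    rw [Chebyshev.theta_eq_sum_Icc, ← nsmul_eq_mul, ← Finset.sum_const]
    have h2 : ∀ p ∈ (Ioc (2 ^ j) (2 ^ (j + 1))).filter Nat.Prime, (j * Real.log 2 : ℝ) ≤
        Real.log p := by
      intro p hp
      rw [mem_filter, mem_Ioc] at hp
      rw [← Real.log_pow]
      apply Real.log_le_log (by positivity)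
      exact_mod_cast hp.1.1.le
    refine (Finset.sum_le_sum h2).trans ?_
    refine Finset.sum_le_sum_of_subset_of_nonneg ?_ ?_
    · intro p hp
      rw [mem_filter, mem_Ioc] at hp
      rw [mem_filter, mem_Icc]
      refine ⟨⟨Nat.zero_le _, ?_⟩, hp.2⟩
      apply Nat.le_floor
      exact_mod_cast hp.1.2
    · intro p hp _
      rw [mem_filter] at hp
      exact Real.log_nonneg (by exact_mod_cast hp.2.one_lt.le)
  have h3 := Chebyshev.theta_le_log4_mul_x (x := (2 : ℝ) ^ (j + 1)) (by positivity)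
  have h4 : Real.log 4 = 2 * Real.log 2 := by
    rw [show (4 : ℝ) = 2 ^ 2 by norm_num, Real.log_pow]
    norm_num
  rw [h4] at h3
  rw [le_div_iff₀ hj']
  have h5 : ((((Ioc (2 ^ j) (2 ^ (j + 1))).filter Nat.Prime).card : ℕ) : ℝ) * j * Real.log 2 ≤
      (4 * 2 ^ j) * Real.log 2 := by
    calc _ = ((((Ioc (2 ^ j) (2 ^ (j + 1))).filter Nat.Prime).card : ℕ) : ℝ) *
        (j * Real.log 2) := by ring
      _ ≤ _ := h1
      _ ≤ 2 * Real.log 2 * 2 ^ (j + 1) := h3
      _ = _ := by rw [pow_succ]; ring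
  exact le_of_mul_le_mul_right h5 hlog2

/-- the point `⌈exp x⌉` -/
theorem ceil_exp {x : ℝ} (hx : 3 ≤ x) : x ≤ Real.log (⌈Real.exp x⌉₊ : ℝ) ∧
    Real.log (⌈Real.exp x⌉₊ : ℝ) ≤ x + 1 ∧ 8 ≤ ⌈Real.exp x⌉₊ := by
  have h1 : Real.exp x ≤ (⌈Real.exp x⌉₊ : ℝ) := Nat.le_ceil _
  have h2 : (⌈Real.exp x⌉₊ : ℝ) ≤ Real.exp x + 1 := (Nat.ceil_lt_add_one (Real.exp_pos _).le).le
  have h0 : (0 : ℝ) < (⌈Real.exp x⌉₊ : ℝ) := lt_of_lt_of_le (Real.exp_pos _) h1
  have he : (2 : ℝ) ≤ Real.exp 1 := by linarith [Real.exp_one_gt_d9]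
  have h3 : (8 : ℝ) ≤ Real.exp x := by
    calc (8 : ℝ) = 2 ^ 3 := by norm_num
      _ ≤ Real.exp 1 ^ 3 := pow_le_pow_left₀ (by norm_num) he 3
      _ = Real.exp 3 := by rw [← Real.exp_nat_mul]; norm_num
      _ ≤ Real.exp x := Real.exp_le_exp.2 hx
  refine ⟨?_, ?_, ?_⟩
  · rw [← Real.log_exp x]
    exact Real.log_le_log (Real.exp_pos _) (by rw [Real.log_exp]; exact h1)
  · rw [← Real.log_exp (x + 1)]
    refine Real.log_le_log h0 (h2.trans ?_)
    rw [Real.exp_add]
    nlinarith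
  · have : (8 : ℝ) ≤ (⌈Real.exp x⌉₊ : ℝ) := h3.trans h1
    exact_mod_cast this

/-- the sifting primes -/
def P (Y : ℕ) : Finset ℕ := (range (Y + 1)).filter Nat.Prime

/-- the sifted classes -/
def B (l w r : ℕ) : Finset ℕ := if r % l = 1 ∧ w < r then
  (range r).filter (fun c => c = 0 ∨ (c ^ l % r = 1 ∧ c ≠ 1)) else {0}

theorem card_B (hRT : Stmt_RT) {l w Y r : ℕ} (hl : l.Prime) (hr : r ∈ P Y) :
    ((B l w r).card : ℝ) = 1 + ((l : ℝ) - 1) * (if r ∈ PR l w Y then 1 else 0) := by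
  rw [P, mem_filter, mem_range] at hr
  unfold B
  by_cases h : r % l = 1 ∧ w < r
  · rw [if_pos h, hRT l r hl hr.2 h.1, if_pos]
    · ring
    · rw [PR, mem_filter, mem_Ioc]
      exact ⟨⟨h.2, by omega⟩, hr.2, h.1⟩
  · rw [if_neg h, card_singleton, if_neg]
    · simp
    · intro h2
      rw [PR, mem_filter, mem_Ioc] at h2
      exact h ⟨h2.2.2, h2.1.1⟩

theorem PR_sub (l w Y : ℕ) : PR l w Y ⊆ P Y := by
  intro r hr
  rw [PR, mem_filter, mem_Ioc] at hr
  rw [P, mem_filter, mem_range]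
  exact ⟨by omega, hr.2.1⟩

theorem sum_B (hRT : Stmt_RT) {l w Y : ℕ} (hl : l.Prime) (f : ℕ → ℝ) :
    ∑ r ∈ P Y, ((B l w r).card : ℝ) * f r =
      ∑ r ∈ P Y, f r + ((l : ℝ) - 1) * ∑ r ∈ PR l w Y, f r := by
  have h1 : ∀ r ∈ P Y, ((B l w r).card : ℝ) * f r =
      f r + ((l : ℝ) - 1) * (if r ∈ PR l w Y then f r else 0) := by
    intro r hr
    rw [card_B hRT hl hr]
    split_ifs <;> ring
  rw [sum_congr rfl h1, sum_add_distrib, ← mul_sum, sum_ite_mem,
    inter_eq_right.2 (PR_sub l w Y)]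

theorem mem_RR {l M j m : ℕ} (hm : m ∈ RR l M j) : m ∈ Ioc (2 ^ j) (2 ^ (j + 1)) ∧ m.Prime ∧
    ∀ r ∈ PR l 1 (2 ^ (j / M)), m ^ l % r = 1 → m % r = 1 := by
  unfold RR at hm
  simp only [Finset.mem_filter] at hm
  exact hm

/-- the members of `RR` are sifted -/
theorem RR_sub {l M j w : ℕ} :
    RR l M j ⊆ (Ioc (2 ^ j) (2 ^ j + 2 ^ j)).filter
      (fun m => ∀ p ∈ P (2 ^ (j / M)), m % p ∉ B l w p) := by
  intro m hm
  obtain ⟨hm1, h3, h4⟩ := mem_RR hm
  obtain ⟨h1, h2⟩ := mem_Ioc.1 hm1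
  rw [mem_filter, mem_Ioc]
  refine ⟨⟨h1, by rw [pow_succ] at h2; omega⟩, fun p hp => ?_⟩
  rw [P, mem_filter, mem_range] at hp
  have hle : 2 ^ (j / M) ≤ 2 ^ j := Nat.pow_le_pow_right (by norm_num) (Nat.div_le_self _ _)
  have hne : m % p ≠ 0 := by
    intro h0
    have hd : p ∣ m := Nat.dvd_of_mod_eq_zero h0
    rcases (Nat.dvd_prime h3).1 hd with h5 | h5
    · exact hp.2.one_lt.ne' h5
    · omega
  unfold B
  split_ifs with h5
  · rw [mem_filter]
    rintro ⟨_, h6 | ⟨h6, h7⟩⟩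
    · exact hne h6
    · have h8 : m ^ l % p = 1 := by rw [Nat.pow_mod]; exact h6
      exact h7 (h4 p (by
        rw [PR, mem_filter, mem_Ioc]
        exact ⟨⟨hp.2.one_lt, by omega⟩, hp.2, h5.1⟩) h8)
  · rw [mem_singleton]
    exact hne

/-- the product against the exponential -/
theorem prod_le (hRT : Stmt_RT) {l w Y : ℕ} (hl : l.Prime)
    (hB : ∀ p ∈ P Y, 2 * (B l w p).card ≤ p) :
    ∏ p ∈ P Y, (1 - ((B l w p).card : ℝ) / p) ≤
      Real.exp (-(∑ r ∈ P Y, 1 / (r : ℝ)) - ((l : ℝ) - 1) * ∑ r ∈ PR l w Y, 1 / (r : ℝ)) := by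
  have h1 : ∏ p ∈ P Y, (1 - ((B l w p).card : ℝ) / p) ≤
      ∏ p ∈ P Y, Real.exp (-(((B l w p).card : ℝ) / p)) := by
    refine prod_le_prod (fun p hp => ?_) (fun p hp => ?_)
    · have hp0 : (0 : ℝ) < p := by
        rw [P, mem_filter] at hp
        exact_mod_cast hp.2.pos
      have h2 : (2 : ℝ) * ((B l w p).card : ℝ) ≤ p := by exact_mod_cast hB p hp
      rw [sub_nonneg, div_le_one hp0]
      have : (0 : ℝ) ≤ ((B l w p).card : ℝ) := by positivity
      linarith
    · have := Real.add_one_le_exp (-(((B l w p).card : ℝ) / p))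
      linarith
  refine h1.trans (le_of_eq ?_)
  rw [← Real.exp_sum, sum_neg_distrib]
  congr 1
  have h2 := sum_B hRT (w := w) (Y := Y) hl (fun r => 1 / (r : ℝ))
  have h3 : ∑ p ∈ P Y, ((B l w p).card : ℝ) / p =
      ∑ r ∈ P Y, ((B l w r).card : ℝ) * (1 / (r : ℝ)) :=
    sum_congr rfl fun p _ => by rw [mul_one_div]
  rw [h3, h2]
  ring

/-- the sum of `log p / p` -/
theorem sum_log {CB : ℝ} (hCB : ∀ l : ℕ, l.Prime → ∀ w z : ℕ, l ^ 3 ≤ w → w ≤ z →
    ((l : ℝ) - 1) * ∑ r ∈ PR l w z, Real.log r / r ≤ CB * Real.log z) {Y : ℕ} (hY : 8 ≤ Y) :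
    ∑ r ∈ P Y, Real.log r / r ≤ 9 + CB * Real.log Y := by
  have h2 := hCB 2 Nat.prime_two 8 Y (by norm_num) hY
  have h3 : P Y ⊆ range 9 ∪ PR 2 8 Y := by
    intro r hr
    rw [P, mem_filter, mem_range] at hr
    rw [mem_union, mem_range, PR, mem_filter, mem_Ioc]
    by_cases h : r < 9
    · exact Or.inl h
    · refine Or.inr ⟨⟨by omega, by omega⟩, hr.2, ?_⟩
      rcases hr.2.eq_two_or_odd with h4 | h4
      · omega
      · exact h4
  have h4 : ∀ r : ℕ, 0 ≤ Real.log r / r := fun r => by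
    rcases Nat.eq_zero_or_pos r with h | h
    · simp [h]
    · exact div_nonneg (Real.log_nonneg (by exact_mod_cast h)) (by positivity)
  have h5 : ∀ r : ℕ, Real.log r / r ≤ 1 := fun r => by
    rcases Nat.eq_zero_or_pos r with h | h
    · simp [h]
    · have : (0 : ℝ) < r := by exact_mod_cast h
      rw [div_le_one this]
      have := Real.log_le_sub_one_of_pos this
      linarith
  calc ∑ r ∈ P Y, Real.log r / r ≤ ∑ r ∈ range 9 ∪ PR 2 8 Y, Real.log r / r :=
        sum_le_sum_of_subset_of_nonneg h3 fun r _ _ => h4 r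
    _ ≤ ∑ r ∈ range 9, Real.log r / r + ∑ r ∈ PR 2 8 Y, Real.log r / r := by
        rw [← sum_union_inter]
        have : 0 ≤ ∑ r ∈ range 9 ∩ PR 2 8 Y, Real.log r / r := sum_nonneg fun r _ => h4 r
        linarith
    _ ≤ ∑ _r ∈ range 9, (1 : ℝ) + CB * Real.log Y := by
        refine add_le_add (sum_le_sum fun r _ => h5 r) ?_
        norm_num at h2
        exact h2
    _ = 9 + CB * Real.log Y := by simp

end RL

set_option maxHeartbeats 4000000 in
theorem stmt_RL (hSV : Stmt_SV) (hBTS : Stmt_BTS) (hRT : Stmt_RT) : Stmt_RL := by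
  intro W C hW
  obtain ⟨CB, hCB0, hCB⟩ := hBTS
  obtain ⟨D, hD⟩ := hSV (9 + 3 * CB) (by positivity)
  have hlog2 : 0 < Real.log 2 := Real.log_pos (by norm_num)
  have hlog2' : (0.69 : ℝ) < Real.log 2 := by linarith [Real.log_two_gt_d9]
  set M : ℕ := max 20 D with hM
  have hM20 : 20 ≤ M := le_max_left _ _
  have hMD : D ≤ M := le_max_right _ _
  have hMr : (20 : ℝ) ≤ M := by exact_mod_cast hM20
  set w2 : ℕ := ⌈Real.exp (W 2)⌉₊ with hw2
  have hW2 := hW.three_le 2 Nat.prime_two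
  obtain ⟨a1, a2, a3⟩ := RL.ceil_exp hW2
  rw [← hw2] at a1 a2 a3
  set C1 : ℝ := 12 * M * W 2 with hC1
  set C2 : ℝ := 3 * Real.exp (2 * C) * Real.log w2 * (4 / 3) * (4 * M ^ 2 / Real.log 2 ^ 2)
    with hC2
  have hC1p : 0 < C1 := by positivity
  have hlw2 : 0 < Real.log w2 := by linarith
  have hC2p : 0 ≤ C2 := by positivity
  refine ⟨C1 + C2, M, by positivity, hM20, ?_⟩
  intro l hl j hj
  have hj0 : (0 : ℝ) < j := by exact_mod_cast hj
  have hWl := hW.three_le l hl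
  have hWl0 : 0 < W l := by linarith
  rw [show (C1 + C2) * 2 ^ j * W l / (j : ℝ) ^ 2 = C1 * 2 ^ j * W l / (j : ℝ) ^ 2 +
    C2 * 2 ^ j * W l / (j : ℝ) ^ 2 by ring]
  have hp1 : 0 ≤ C1 * 2 ^ j * W l / (j : ℝ) ^ 2 := by positivity
  have hp2 : 0 ≤ C2 * 2 ^ j * W l / (j : ℝ) ^ 2 := by positivity
  rcases le_or_gt (j : ℝ) (3 * M * W 2 * W l) with hcase | hcase
  · -- the trivial range
    have h1 : RR l M j ⊆ (Ioc (2 ^ j) (2 ^ (j + 1))).filter Nat.Prime := by
      intro m hm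
      obtain ⟨hm1, h3, _⟩ := RL.mem_RR hm
      exact Finset.mem_filter.2 ⟨hm1, h3⟩
    have h2 : ((RR l M j).card : ℝ) ≤ 4 * 2 ^ j / j :=
      le_trans (by exact_mod_cast card_le_card h1) (RL.dyadic_primes j hj)
    have h3 : 4 * 2 ^ j / (j : ℝ) ≤ C1 * 2 ^ j * W l / (j : ℝ) ^ 2 := by
      rw [div_le_div_iff₀ hj0 (by positivity), hC1]
      have : (0 : ℝ) < 2 ^ j := by positivity
      have h4 : 4 * 2 ^ j * (j : ℝ) * j ≤ 4 * 2 ^ j * j * (3 * M * W 2 * W l) :=
        mul_le_mul_of_nonneg_left hcase (by positivity)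
      calc 4 * 2 ^ j * (j : ℝ) ^ 2 = 4 * 2 ^ j * (j : ℝ) * j := by ring
        _ ≤ _ := h4
        _ = _ := by ring
    linarith
  · -- the sieve range
    set Y : ℕ := 2 ^ (j / M) with hY
    set w : ℕ := ⌈Real.exp (W l)⌉₊ with hw
    obtain ⟨b1, b2, b3⟩ := RL.ceil_exp hWl
    rw [← hw] at b1 b2 b3
    have hMpos : (0 : ℝ) < M := by linarith
    have hdiv : (j : ℝ) / M - 1 < ((j / M : ℕ) : ℝ) := by
      have h1 : j < M * (j / M + 1) := by
        have := Nat.lt_mul_div_succ j (show 0 < M by omega)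
        exact this
      have h2 : (j : ℝ) < M * (((j / M : ℕ) : ℝ) + 1) := by exact_mod_cast h1
      have h3 : (j : ℝ) / M < ((j / M : ℕ) : ℝ) + 1 := by
        rw [div_lt_iff₀ hMpos]; linarith
      linarith
    have hlogY : Real.log Y = ((j / M : ℕ) : ℝ) * Real.log 2 := by
      rw [hY]
      push_cast
      rw [Real.log_pow]
    have hjM : 3 * W 2 * W l < (j : ℝ) / M := by
      rw [lt_div_iff₀ hMpos]
      linarith
    have hWW : 3 * W l ≤ W 2 * W l := mul_le_mul_of_nonneg_right hW2 hWl0.le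
    have hWW2 : 3 * W 2 ≤ W 2 * W l := by
      have := mul_le_mul_of_nonneg_left hWl (show 0 ≤ W 2 by linarith)
      linarith
    have hYlow : ((j : ℝ) / M - 1) * Real.log 2 ≤ Real.log Y := by
      rw [hlogY]
      exact mul_le_mul_of_nonneg_right hdiv.le hlog2.le
    -- `Y` is large
    have hYw : w ≤ Y := by
      have h1 : Real.log w ≤ Real.log Y := by
        have : W l + 1 ≤ ((j : ℝ) / M - 1) * Real.log 2 := by nlinarith
        linarith
      have hY0 : (0 : ℝ) < Y := by rw [hY]; positivity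
      have hw0 : (0 : ℝ) < w := by exact_mod_cast (by omega : 0 < w)
      have := (Real.log_le_log_iff hw0 hY0).1 h1
      exact_mod_cast this
    have hYw2 : w2 ≤ Y := by
      have h1 : Real.log w2 ≤ Real.log Y := by
        have : W 2 + 1 ≤ ((j : ℝ) / M - 1) * Real.log 2 := by nlinarith
        linarith
      have hY0 : (0 : ℝ) < Y := by rw [hY]; positivity
      have hw0 : (0 : ℝ) < w2 := by exact_mod_cast (by omega : 0 < w2)
      have := (Real.log_le_log_iff hw0 hY0).1 h1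
      exact_mod_cast this
    have hY8 : 8 ≤ Y := b3.trans hYw
    have hl3 : l ^ 3 ≤ w := by
      have h1 : Real.log ((l : ℝ) ^ 3) ≤ Real.log w := by
        rw [Real.log_pow]
        have := hW.log_le l hl
        push_cast
        linarith
      have hl0 : (0 : ℝ) < (l : ℝ) ^ 3 := by
        have := hl.pos
        positivity
      have hw0 : (0 : ℝ) < w := by exact_mod_cast (by omega : 0 < w)
      have := (Real.log_le_log_iff hl0 hw0).1 h1
      exact_mod_cast this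
    have hl2 := hl.two_le
    have hlr : (2 : ℝ) ≤ l := by exact_mod_cast hl2
    have hlogY3 : 3 ≤ Real.log Y := by
      have : (3 : ℝ) ≤ ((j : ℝ) / M - 1) * Real.log 2 := by nlinarith
      linarith
    -- the classes
    have hB : ∀ p ∈ RL.P Y, 2 * (RL.B l w p).card ≤ p := by
      intro p hp
      have hpp : p.Prime := (mem_filter.1 hp).2
      by_cases h : p % l = 1 ∧ w < p
      · unfold RL.B
        rw [if_pos h, hRT l p hl hpp h.1]
        have h1 : 2 * l ≤ l ^ 3 := by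
          have : 2 * 2 ≤ l * l := Nat.mul_le_mul hl2 hl2
          nlinarith
        omega
      · unfold RL.B
        rw [if_neg h, card_singleton]
        have := hpp.two_le
        omega
    have hSVc : ∀ p ∈ RL.P Y, p.Prime ∧ p ≤ Y ∧ RL.B l w p ⊆ range p ∧
        2 * (RL.B l w p).card ≤ p := by
      intro p hp
      have hp' := mem_filter.1 hp
      refine ⟨hp'.2, by have := mem_range.1 hp'.1; omega, ?_, hB p hp⟩
      unfold RL.B
      split_ifs
      · exact filter_subset _ _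
      · rw [singleton_subset_iff, mem_range]
        exact hp'.2.pos
    have hdens : ∑ p ∈ RL.P Y, ((RL.B l w p).card : ℝ) / p * Real.log p ≤
        (9 + 3 * CB) * Real.log Y := by
      have h1 : ∑ p ∈ RL.P Y, ((RL.B l w p).card : ℝ) / p * Real.log p =
          ∑ p ∈ RL.P Y, ((RL.B l w p).card : ℝ) * (Real.log p / p) :=
        sum_congr rfl fun p _ => by ring
      rw [h1, RL.sum_B hRT hl]
      have h2 := RL.sum_log hCB hY8
      have h3 := hCB l hl w Y hl3 hYw
      nlinarith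
    have hYD : Y ^ D ≤ 2 ^ j := by
      rw [hY, ← pow_mul]
      refine Nat.pow_le_pow_right (by norm_num) ?_
      calc j / M * D ≤ j / M * M := Nat.mul_le_mul_left _ hMD
        _ ≤ j := Nat.div_mul_le_self _ _
    have hsieve := hD Y (2 ^ j) (2 ^ j) (RL.P Y) (RL.B l w) (by omega) hSVc hdens hYD
    have hcard : ((RR l M j).card : ℝ) ≤
        3 * ((2 ^ j : ℕ) : ℝ) * ∏ p ∈ RL.P Y, (1 - ((RL.B l w p).card : ℝ) / p) := by
      refine le_trans ?_ hsieve
      exact_mod_cast card_le_card (RL.RR_sub (w := w))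
    -- the product
    have hprod := RL.prod_le hRT (w := w) (Y := Y) hl hB
    have hlow1 : Real.log (Real.log Y / Real.log w2) - C ≤ ∑ r ∈ RL.P Y, 1 / (r : ℝ) := by
      have h1 := hW.lower 2 Nat.prime_two w2 Y a1 hYw2
      have h2 : ∑ r ∈ PR 2 w2 Y, 1 / (r : ℝ) ≤ ∑ r ∈ RL.P Y, 1 / (r : ℝ) :=
        sum_le_sum_of_subset_of_nonneg (RL.PR_sub 2 w2 Y) fun r _ _ => by positivity
      norm_num at h1 h2 ⊢
      linarith
    have hlow2 := hW.lower l hl w Y b1 hYw
    have hlw : 0 < Real.log w := by linarith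
    have hlY : 0 < Real.log Y := by linarith
    have hexp : Real.exp (-(∑ r ∈ RL.P Y, 1 / (r : ℝ)) -
        ((l : ℝ) - 1) * ∑ r ∈ PR l w Y, 1 / (r : ℝ)) ≤
        Real.exp (2 * C) * Real.log w2 * Real.log w / Real.log Y ^ 2 := by
      have h1 : Real.exp (2 * C) * Real.log w2 * Real.log w / Real.log Y ^ 2 =
          Real.exp (-(Real.log (Real.log Y / Real.log w2) - C) -
            (Real.log (Real.log Y / Real.log w) - C)) := by
        rw [show -(Real.log (Real.log Y / Real.log w2) - C) -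
            (Real.log (Real.log Y / Real.log w) - C) =
            2 * C - Real.log (Real.log Y / Real.log w2) - Real.log (Real.log Y / Real.log w) by
          ring, Real.exp_sub, Real.exp_sub, Real.exp_log (by positivity),
          Real.exp_log (by positivity)]
        field_simp
      rw [h1]
      apply Real.exp_le_exp.2
      linarith
    have hYlow2 : (j : ℝ) / (2 * M) * Real.log 2 ≤ Real.log Y := by
      have h1 : (j : ℝ) / (2 * M) ≤ (j : ℝ) / M - 1 := by
        have h2 : (j : ℝ) / (2 * M) = (j : ℝ) / M / 2 := by field_simp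
        rw [h2]
        nlinarith
      exact (mul_le_mul_of_nonneg_right h1 hlog2.le).trans hYlow
    have hinv : 1 / Real.log Y ^ 2 ≤ (4 * M ^ 2 / Real.log 2 ^ 2) / (j : ℝ) ^ 2 := by
      have h1 : ((j : ℝ) / (2 * M) * Real.log 2) ^ 2 ≤ Real.log Y ^ 2 :=
        pow_le_pow_left₀ (by positivity) hYlow2 2
      have h2 : (4 * (M : ℝ) ^ 2 / Real.log 2 ^ 2) / (j : ℝ) ^ 2 =
          1 / ((j : ℝ) / (2 * M) * Real.log 2) ^ 2 := by
        field_simp
        ring
      rw [h2]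
      exact one_div_le_one_div_of_le (by positivity) h1
    have hfin : ((RR l M j).card : ℝ) ≤ C2 * 2 ^ j * W l / (j : ℝ) ^ 2 := by
      calc ((RR l M j).card : ℝ) ≤
          3 * ((2 ^ j : ℕ) : ℝ) * ∏ p ∈ RL.P Y, (1 - ((RL.B l w p).card : ℝ) / p) := hcard
        _ ≤ 3 * ((2 ^ j : ℕ) : ℝ) *
            (Real.exp (2 * C) * Real.log w2 * Real.log w / Real.log Y ^ 2) :=
          mul_le_mul_of_nonneg_left (hprod.trans hexp) (by positivity)
        _ = 3 * Real.exp (2 * C) * Real.log w2 * 2 ^ j * (Real.log w * (1 / Real.log Y ^ 2)) := by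
          push_cast
          ring
        _ ≤ 3 * Real.exp (2 * C) * Real.log w2 * 2 ^ j * ((4 / 3 * W l) *
            ((4 * M ^ 2 / Real.log 2 ^ 2) / (j : ℝ) ^ 2)) := by
          apply mul_le_mul_of_nonneg_left _ (by positivity)
          apply mul_le_mul _ hinv (by positivity) (by positivity)
          linarith
        _ = C2 * 2 ^ j * W l / (j : ℝ) ^ 2 := by
          rw [hC2]
          ring
    linarith

end Pool.Agent.Work.MP_495a89_nt
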