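import Pool.Agent.Work.MP_495a89_nt.Interface2
import Pool.Agent.Work.MP_495a89_nt.RL

/-!
# MP_495a89_nt: block RL2 (the strong form of RL)
-/

set_option autoImplicit false

namespace Pool.Agent.Work.MP_495a89_nt

open Finset

namespace RL2

open RL (P)

open Classical in
/-- the sifted classes -/
noncomputable def B (l w : ℕ) (H : Finset ℕ) (r : ℕ) : Finset ℕ := if r % l = 1 ∧ w < r ∧ r ∉ H then
  (range r).filter (fun c => c = 0 ∨ (c ^ l % r = 1 ∧ c ≠ 1)) else {0}

open Classical in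
/-- the primes with `l` classes -/
noncomputable def PH (l w Y : ℕ) (H : Finset ℕ) : Finset ℕ := (PR l w Y).filter (fun r => r ∉ H)

theorem mem_PH {l w Y r : ℕ} {H : Finset ℕ} : r ∈ PH l w Y H ↔ r ∈ PR l w Y ∧ r ∉ H := by
  unfold PH
  rw [mem_filter]

theorem card_B (hRT : Stmt_RT) {l w Y r : ℕ} {H : Finset ℕ} (hl : l.Prime) (hr : r ∈ P Y) :
    ((B l w H r).card : ℝ) = 1 + ((l : ℝ) - 1) * (if r ∈ PH l w Y H then 1 else 0) := by
  rw [P, mem_filter, mem_range] at hr
  unfold B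
  by_cases h : r % l = 1 ∧ w < r ∧ r ∉ H
  · rw [if_pos h, hRT l r hl hr.2 h.1, if_pos]
    · ring
    · rw [mem_PH, PR, mem_filter, mem_Ioc]
      exact ⟨⟨⟨h.2.1, by omega⟩, hr.2, h.1⟩, h.2.2⟩
  · rw [if_neg h, card_singleton, if_neg]
    · simp
    · intro h2
      rw [mem_PH, PR, mem_filter, mem_Ioc] at h2
      exact h ⟨h2.1.2.2, h2.1.1.1, h2.2⟩

theorem PH_sub (l w Y : ℕ) (H : Finset ℕ) : PH l w Y H ⊆ P Y := by
  intro r hr
  exact RL.PR_sub l w Y (mem_PH.1 hr).1

theorem sum_B (hRT : Stmt_RT) {l w Y : ℕ} {H : Finset ℕ} (hl : l.Prime) (f : ℕ → ℝ) :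
    ∑ r ∈ P Y, ((B l w H r).card : ℝ) * f r =
      ∑ r ∈ P Y, f r + ((l : ℝ) - 1) * ∑ r ∈ PH l w Y H, f r := by
  classical
  have h1 : ∀ r ∈ P Y, ((B l w H r).card : ℝ) * f r =
      f r + ((l : ℝ) - 1) * (if r ∈ PH l w Y H then f r else 0) := by
    intro r hr
    rw [card_B hRT hl hr]
    split_ifs <;> ring
  rw [sum_congr rfl h1, sum_add_distrib, ← mul_sum, sum_ite_mem,
    inter_eq_right.2 (PH_sub l w Y H)]

theorem mem_RR2 {l M j R m : ℕ} {H : Finset ℕ} (hm : m ∈ RR2 l M j R H) :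
    m ∈ Ioc (2 ^ j) (2 ^ (j + 1)) ∧ m.Prime ∧
    ∀ r ∈ PR l R (2 ^ (j / M)), r ∉ H → m ^ l % r = 1 → m % r = 1 := by
  unfold RR2 at hm
  simp only [Finset.mem_filter] at hm
  exact hm

/-- the members of `RR2` are sifted -/
theorem RR2_sub {l M j w R : ℕ} {H : Finset ℕ} (hR : R ≤ w) :
    RR2 l M j R H ⊆ (Ioc (2 ^ j) (2 ^ j + 2 ^ j)).filter
      (fun m => ∀ p ∈ P (2 ^ (j / M)), m % p ∉ B l w H p) := by
  intro m hm
  obtain ⟨hm1, h3, h4⟩ := mem_RR2 hm
  obtain ⟨h1, h2⟩ := mem_Ioc.1 hm1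
  rw [mem_filter, mem_Ioc]
  refine ⟨⟨h1, by rw [pow_succ] at h2; omega⟩, fun p hp => ?_⟩
  rw [P, mem_filter, mem_range] at hp
  have hle : 2 ^ (j / M) ≤ 2 ^ j := Nat.pow_le_pow_right (by norm_num) (Nat.div_le_self _ _)
  have hne : m % p ≠ 0 := by
    intro h0
    have hd : p ∣ m := Nat.dvd_of_mod_eq_zero h0
    rcases (Nat.dvd_prime h3).1 hd with h5 | h5
    · exact hp.2.one_lt.ne' h5
    · omega
  unfold B
  split_ifs with h5
  · rw [mem_filter]
    rintro ⟨_, h6 | ⟨h6, h7⟩⟩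
    · exact hne h6
    · have h8 : m ^ l % p = 1 := by rw [Nat.pow_mod]; exact h6
      exact h7 (h4 p (by
        rw [PR, mem_filter, mem_Ioc]
        exact ⟨⟨by omega, by omega⟩, hp.2, h5.1⟩) h5.2.2 h8)
  · rw [mem_singleton]
    exact hne

/-- the product against the exponential -/
theorem prod_le (hRT : Stmt_RT) {l w Y : ℕ} {H : Finset ℕ} (hl : l.Prime)
    (hB : ∀ p ∈ P Y, 2 * (B l w H p).card ≤ p) :
    ∏ p ∈ P Y, (1 - ((B l w H p).card : ℝ) / p) ≤
      Real.exp (-(∑ r ∈ P Y, 1 / (r : ℝ)) - ((l : ℝ) - 1) * ∑ r ∈ PH l w Y H, 1 / (r : ℝ)) := by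
  have h1 : ∏ p ∈ P Y, (1 - ((B l w H p).card : ℝ) / p) ≤
      ∏ p ∈ P Y, Real.exp (-(((B l w H p).card : ℝ) / p)) := by
    refine prod_le_prod (fun p hp => ?_) (fun p hp => ?_)
    · have hp0 : (0 : ℝ) < p := by
        rw [P, mem_filter] at hp
        exact_mod_cast hp.2.pos
      have h2 : (2 : ℝ) * ((B l w H p).card : ℝ) ≤ p := by exact_mod_cast hB p hp
      rw [sub_nonneg, div_le_one hp0]
      have : (0 : ℝ) ≤ ((B l w H p).card : ℝ) := by positivity
      linarith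
    · have := Real.add_one_le_exp (-(((B l w H p).card : ℝ) / p))
      linarith
  refine h1.trans (le_of_eq ?_)
  rw [← Real.exp_sum, sum_neg_distrib]
  congr 1
  have h2 := sum_B hRT (w := w) (Y := Y) (H := H) hl (fun r => 1 / (r : ℝ))
  have h3 : ∑ p ∈ P Y, ((B l w H p).card : ℝ) / p =
      ∑ r ∈ P Y, ((B l w H r).card : ℝ) * (1 / (r : ℝ)) :=
    sum_congr rfl fun p _ => by rw [mul_one_div]
  rw [h3, h2]
  ring

/-- removing `H` costs at most `h` -/
theorem sum_PH {l w Y : ℕ} {H : Finset ℕ} {h : ℝ} (hl : 1 ≤ l)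
    (hh : ((l : ℝ) - 1) * ∑ r ∈ H.filter (fun r => r % l = 1), 1 / (r : ℝ) ≤ h) :
    ((l : ℝ) - 1) * ∑ r ∈ PR l w Y, 1 / (r : ℝ) - h ≤
      ((l : ℝ) - 1) * ∑ r ∈ PH l w Y H, 1 / (r : ℝ) := by
  classical
  have h1 : ∑ r ∈ PR l w Y, 1 / (r : ℝ) ≤ ∑ r ∈ PH l w Y H, 1 / (r : ℝ) +
      ∑ r ∈ H.filter (fun r => r % l = 1), 1 / (r : ℝ) := by
    have h2 : PR l w Y ⊆ PH l w Y H ∪ H.filter (fun r => r % l = 1) := by
      intro r hr
      rw [mem_union, mem_PH, mem_filter]
      by_cases hrH : r ∈ H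
      · right
        refine ⟨hrH, ?_⟩
        rw [PR, mem_filter] at hr
        exact hr.2.2
      · exact Or.inl ⟨hr, hrH⟩
    refine (sum_le_sum_of_subset_of_nonneg h2 fun r _ _ => by positivity).trans ?_
    rw [← sum_union_inter]
    have : 0 ≤ ∑ r ∈ PH l w Y H ∩ H.filter (fun r => r % l = 1), 1 / (r : ℝ) :=
      sum_nonneg fun r _ => by positivity
    linarith
  have hl' : (0 : ℝ) ≤ (l : ℝ) - 1 := by
    have : (1 : ℝ) ≤ l := by exact_mod_cast hl
    linarith
  nlinarith [mul_le_mul_of_nonneg_left h1 hl']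

end RL2

set_option maxHeartbeats 4000000 in
theorem stmt_RL2 (hSV : Stmt_SV) (hBTS : Stmt_BTS) (hRT : Stmt_RT) : Stmt_RL2 := by
  intro W C hW M0
  obtain ⟨CB, hCB0, hCB⟩ := hBTS
  obtain ⟨D, hD⟩ := hSV (9 + 3 * CB) (by positivity)
  have hlog2 : 0 < Real.log 2 := Real.log_pos (by norm_num)
  have hlog2' : (0.69 : ℝ) < Real.log 2 := by linarith [Real.log_two_gt_d9]
  set M : ℕ := max (max 20 M0) D with hM
  have hM20 : 20 ≤ M := (le_max_left _ _).trans (le_max_left _ _)
  have hMM0 : M0 ≤ M := (le_max_right _ _).trans (le_max_left _ _)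
  have hMD : D ≤ M := le_max_right _ _
  have hMr : (20 : ℝ) ≤ M := by exact_mod_cast hM20
  set w2 : ℕ := ⌈Real.exp (W 2)⌉₊ with hw2
  have hW2 := hW.three_le 2 Nat.prime_two
  obtain ⟨a1, a2, a3⟩ := RL.ceil_exp hW2
  rw [← hw2] at a1 a2 a3
  set C1 : ℝ := 12 * M * W 2 with hC1
  set C2 : ℝ := 3 * Real.exp (2 * C) * Real.log w2 * (4 / 3) * (4 * M ^ 2 / Real.log 2 ^ 2)
    with hC2
  have hC1p : 0 < C1 := by positivity
  have hlw2 : 0 < Real.log w2 := by linarith
  have hC2p : 0 ≤ C2 := by positivity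
  refine ⟨C1 + C2, M, by positivity, hMM0, ?_⟩
  intro l hl j R hj hR H h hh
  have hj0 : (0 : ℝ) < j := by exact_mod_cast hj
  have hR1 : (1 : ℝ) ≤ R := by exact_mod_cast hR
  have hlR : 0 ≤ Real.log R := Real.log_nonneg hR1
  set V : ℝ := W l + Real.log R with hVdef
  have hWlV : W l ≤ V := by linarith
  have hWl : 3 ≤ V := (hW.three_le l hl).trans hWlV
  have hWl0 : 0 < V := by linarith
  have hl1 : 1 ≤ l := hl.one_lt.le
  have hh0 : 0 ≤ h := by
    refine le_trans ?_ hh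
    have : (1 : ℝ) ≤ l := by exact_mod_cast hl1
    exact mul_nonneg (by linarith) (sum_nonneg fun r _ => by positivity)
  have heh : 1 ≤ Real.exp h := Real.one_le_exp hh0
  rw [show (C1 + C2) * 2 ^ j * Real.exp h * V / (j : ℝ) ^ 2 =
    Real.exp h * (C1 * 2 ^ j * V / (j : ℝ) ^ 2) +
    C2 * 2 ^ j * Real.exp h * V / (j : ℝ) ^ 2 by ring]
  have hp0 : 0 ≤ C1 * 2 ^ j * V / (j : ℝ) ^ 2 := by positivity
  have hp1 : C1 * 2 ^ j * V / (j : ℝ) ^ 2 ≤ Real.exp h * (C1 * 2 ^ j * V / (j : ℝ) ^ 2) :=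
    le_mul_of_one_le_left hp0 heh
  have hp2 : 0 ≤ C2 * 2 ^ j * Real.exp h * V / (j : ℝ) ^ 2 := by positivity
  rcases le_or_gt (j : ℝ) (3 * M * W 2 * V) with hcase | hcase
  · -- the trivial range
    have h1 : RR2 l M j R H ⊆ (Ioc (2 ^ j) (2 ^ (j + 1))).filter Nat.Prime := by
      intro m hm
      obtain ⟨hm1, h3, _⟩ := RL2.mem_RR2 hm
      exact Finset.mem_filter.2 ⟨hm1, h3⟩
    have h2 : ((RR2 l M j R H).card : ℝ) ≤ 4 * 2 ^ j / j :=
      le_trans (by exact_mod_cast card_le_card h1) (RL.dyadic_primes j hj)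
    have h3 : 4 * 2 ^ j / (j : ℝ) ≤ C1 * 2 ^ j * V / (j : ℝ) ^ 2 := by
      rw [div_le_div_iff₀ hj0 (by positivity), hC1]
      have : (0 : ℝ) < 2 ^ j := by positivity
      have h4 : 4 * 2 ^ j * (j : ℝ) * j ≤ 4 * 2 ^ j * j * (3 * M * W 2 * V) :=
        mul_le_mul_of_nonneg_left hcase (by positivity)
      calc 4 * 2 ^ j * (j : ℝ) ^ 2 = 4 * 2 ^ j * (j : ℝ) * j := by ring
        _ ≤ _ := h4
        _ = _ := by ring
    linarith
  · -- the sieve range
    set Y : ℕ := 2 ^ (j / M) with hY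
    set w : ℕ := ⌈Real.exp V⌉₊ with hw
    obtain ⟨b1, b2, b3⟩ := RL.ceil_exp hWl
    rw [← hw] at b1 b2 b3
    have hMpos : (0 : ℝ) < M := by linarith
    have hdiv : (j : ℝ) / M - 1 < ((j / M : ℕ) : ℝ) := by
      have h1 : j < M * (j / M + 1) := by
        have := Nat.lt_mul_div_succ j (show 0 < M by omega)
        exact this
      have h2 : (j : ℝ) < M * (((j / M : ℕ) : ℝ) + 1) := by exact_mod_cast h1
      have h3 : (j : ℝ) / M < ((j / M : ℕ) : ℝ) + 1 := by
        rw [div_lt_iff₀ hMpos]; linarith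
      linarith
    have hlogY : Real.log Y = ((j / M : ℕ) : ℝ) * Real.log 2 := by
      rw [hY]
      push_cast
      rw [Real.log_pow]
    have hRw : R ≤ w := by
      have h1 : (R : ℝ) ≤ w := by
        calc (R : ℝ) = Real.exp (Real.log R) := (Real.exp_log (by linarith)).symm
          _ ≤ Real.exp V := Real.exp_le_exp.2 (by linarith [hW.three_le l hl])
          _ ≤ w := Nat.le_ceil _
      exact_mod_cast h1
    have hjM : 3 * W 2 * V < (j : ℝ) / M := by
      rw [lt_div_iff₀ hMpos]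
      linarith
    have hWW : 3 * V ≤ W 2 * V := mul_le_mul_of_nonneg_right hW2 hWl0.le
    have hWW2 : 3 * W 2 ≤ W 2 * V := by
      have := mul_le_mul_of_nonneg_left hWl (show 0 ≤ W 2 by linarith)
      linarith
    have hYlow : ((j : ℝ) / M - 1) * Real.log 2 ≤ Real.log Y := by
      rw [hlogY]
      exact mul_le_mul_of_nonneg_right hdiv.le hlog2.le
    -- `Y` is large
    have hYw : w ≤ Y := by
      have h1 : Real.log w ≤ Real.log Y := by
        have : V + 1 ≤ ((j : ℝ) / M - 1) * Real.log 2 := by nlinarith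
        linarith
      have hY0 : (0 : ℝ) < Y := by rw [hY]; positivity
      have hw0 : (0 : ℝ) < w := by exact_mod_cast (by omega : 0 < w)
      have := (Real.log_le_log_iff hw0 hY0).1 h1
      exact_mod_cast this
    have hYw2 : w2 ≤ Y := by
      have h1 : Real.log w2 ≤ Real.log Y := by
        have : W 2 + 1 ≤ ((j : ℝ) / M - 1) * Real.log 2 := by nlinarith
        linarith
      have hY0 : (0 : ℝ) < Y := by rw [hY]; positivity
      have hw0 : (0 : ℝ) < w2 := by exact_mod_cast (by omega : 0 < w2)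
      have := (Real.log_le_log_iff hw0 hY0).1 h1
      exact_mod_cast this
    have hY8 : 8 ≤ Y := b3.trans hYw
    have hl3 : l ^ 3 ≤ w := by
      have h1 : Real.log ((l : ℝ) ^ 3) ≤ Real.log w := by
        rw [Real.log_pow]
        have := hW.log_le l hl
        push_cast
        linarith
      have hl0 : (0 : ℝ) < (l : ℝ) ^ 3 := by
        have := hl.pos
        positivity
      have hw0 : (0 : ℝ) < w := by exact_mod_cast (by omega : 0 < w)
      have := (Real.log_le_log_iff hl0 hw0).1 h1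
      exact_mod_cast this
    have hl2 := hl.two_le
    have hlr : (2 : ℝ) ≤ l := by exact_mod_cast hl2
    have hlogY3 : 3 ≤ Real.log Y := by
      have : (3 : ℝ) ≤ ((j : ℝ) / M - 1) * Real.log 2 := by nlinarith
      linarith
    -- the classes
    have hB : ∀ p ∈ RL.P Y, 2 * (RL2.B l w H p).card ≤ p := by
      intro p hp
      have hpp : p.Prime := (mem_filter.1 hp).2
      by_cases h : p % l = 1 ∧ w < p ∧ p ∉ H
      · unfold RL2.B
        rw [if_pos h, hRT l p hl hpp h.1]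
        have h1 : 2 * l ≤ l ^ 3 := by
          have : 2 * 2 ≤ l * l := Nat.mul_le_mul hl2 hl2
          nlinarith
        omega
      · unfold RL2.B
        rw [if_neg h, card_singleton]
        have := hpp.two_le
        omega
    have hSVc : ∀ p ∈ RL.P Y, p.Prime ∧ p ≤ Y ∧ RL2.B l w H p ⊆ range p ∧
        2 * (RL2.B l w H p).card ≤ p := by
      intro p hp
      have hp' := mem_filter.1 hp
      refine ⟨hp'.2, by have := mem_range.1 hp'.1; omega, ?_, hB p hp⟩
      unfold RL2.B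
      split_ifs
      · exact filter_subset _ _
      · rw [singleton_subset_iff, mem_range]
        exact hp'.2.pos
    have hdens : ∑ p ∈ RL.P Y, ((RL2.B l w H p).card : ℝ) / p * Real.log p ≤
        (9 + 3 * CB) * Real.log Y := by
      have h1 : ∑ p ∈ RL.P Y, ((RL2.B l w H p).card : ℝ) / p * Real.log p =
          ∑ p ∈ RL.P Y, ((RL2.B l w H p).card : ℝ) * (Real.log p / p) :=
        sum_congr rfl fun p _ => by ring
      rw [h1, RL2.sum_B hRT hl]
      have h2 := RL.sum_log hCB hY8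
      have h3 := hCB l hl w Y hl3 hYw
      have h4 : ((l : ℝ) - 1) * ∑ r ∈ RL2.PH l w Y H, Real.log r / r ≤
          ((l : ℝ) - 1) * ∑ r ∈ PR l w Y, Real.log r / r := by
        apply mul_le_mul_of_nonneg_left _ (by linarith)
        apply sum_le_sum_of_subset_of_nonneg
        · intro r hr
          exact (RL2.mem_PH.1 hr).1
        · intro r hr _
          rw [PR, mem_filter, mem_Ioc] at hr
          exact div_nonneg (Real.log_nonneg (by exact_mod_cast hr.2.1.one_lt.le)) (by positivity)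
      nlinarith
    have hYD : Y ^ D ≤ 2 ^ j := by
      rw [hY, ← pow_mul]
      refine Nat.pow_le_pow_right (by norm_num) ?_
      calc j / M * D ≤ j / M * M := Nat.mul_le_mul_left _ hMD
        _ ≤ j := Nat.div_mul_le_self _ _
    have hsieve := hD Y (2 ^ j) (2 ^ j) (RL.P Y) (RL2.B l w H) (by omega) hSVc hdens hYD
    have hcard : ((RR2 l M j R H).card : ℝ) ≤
        3 * ((2 ^ j : ℕ) : ℝ) * ∏ p ∈ RL.P Y, (1 - ((RL2.B l w H p).card : ℝ) / p) := by
      refine le_trans ?_ hsieve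
      exact_mod_cast card_le_card (RL2.RR2_sub (w := w) (H := H) hRw)
    -- the product
    have hprod := RL2.prod_le hRT (w := w) (Y := Y) (H := H) hl hB
    have hlow1 : Real.log (Real.log Y / Real.log w2) - C ≤ ∑ r ∈ RL.P Y, 1 / (r : ℝ) := by
      have h1 := hW.lower 2 Nat.prime_two w2 Y a1 hYw2
      have h2 : ∑ r ∈ PR 2 w2 Y, 1 / (r : ℝ) ≤ ∑ r ∈ RL.P Y, 1 / (r : ℝ) :=
        sum_le_sum_of_subset_of_nonneg (RL.PR_sub 2 w2 Y) fun r _ _ => by positivity
      norm_num at h1 h2 ⊢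
      linarith
    have hlow2' := hW.lower l hl w Y (hWlV.trans b1) hYw
    have hPH := RL2.sum_PH (w := w) (Y := Y) hl1 hh
    have hlow2 : Real.log (Real.log Y / Real.log w) - C - h ≤
        ((l : ℝ) - 1) * ∑ r ∈ RL2.PH l w Y H, 1 / (r : ℝ) := by linarith
    have hlw : 0 < Real.log w := by linarith
    have hlY : 0 < Real.log Y := by linarith
    have hexp : Real.exp (-(∑ r ∈ RL.P Y, 1 / (r : ℝ)) -
        ((l : ℝ) - 1) * ∑ r ∈ RL2.PH l w Y H, 1 / (r : ℝ)) ≤
        Real.exp (2 * C) * Real.exp h * Real.log w2 * Real.log w / Real.log Y ^ 2 := by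
      have h1 : Real.exp (2 * C) * Real.exp h * Real.log w2 * Real.log w / Real.log Y ^ 2 =
          Real.exp (-(Real.log (Real.log Y / Real.log w2) - C) -
            (Real.log (Real.log Y / Real.log w) - C - h)) := by
        rw [show -(Real.log (Real.log Y / Real.log w2) - C) -
            (Real.log (Real.log Y / Real.log w) - C - h) =
            (2 * C + h) - Real.log (Real.log Y / Real.log w2) -
              Real.log (Real.log Y / Real.log w) by
          ring, Real.exp_sub, Real.exp_sub, Real.exp_add, Real.exp_log (by positivity),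
          Real.exp_log (by positivity)]
        field_simp
      rw [h1]
      apply Real.exp_le_exp.2
      linarith
    have hYlow2 : (j : ℝ) / (2 * M) * Real.log 2 ≤ Real.log Y := by
      have h1 : (j : ℝ) / (2 * M) ≤ (j : ℝ) / M - 1 := by
        have h2 : (j : ℝ) / (2 * M) = (j : ℝ) / M / 2 := by field_simp
        rw [h2]
        nlinarith
      exact (mul_le_mul_of_nonneg_right h1 hlog2.le).trans hYlow
    have hinv : 1 / Real.log Y ^ 2 ≤ (4 * M ^ 2 / Real.log 2 ^ 2) / (j : ℝ) ^ 2 := by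
      have h1 : ((j : ℝ) / (2 * M) * Real.log 2) ^ 2 ≤ Real.log Y ^ 2 :=
        pow_le_pow_left₀ (by positivity) hYlow2 2
      have h2 : (4 * (M : ℝ) ^ 2 / Real.log 2 ^ 2) / (j : ℝ) ^ 2 =
          1 / ((j : ℝ) / (2 * M) * Real.log 2) ^ 2 := by
        field_simp
        ring
      rw [h2]
      exact one_div_le_one_div_of_le (by positivity) h1
    have hfin : ((RR2 l M j R H).card : ℝ) ≤ C2 * 2 ^ j * Real.exp h * V / (j : ℝ) ^ 2 := by
      calc ((RR2 l M j R H).card : ℝ) ≤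
          3 * ((2 ^ j : ℕ) : ℝ) * ∏ p ∈ RL.P Y, (1 - ((RL2.B l w H p).card : ℝ) / p) := hcard
        _ ≤ 3 * ((2 ^ j : ℕ) : ℝ) *
            (Real.exp (2 * C) * Real.exp h * Real.log w2 * Real.log w / Real.log Y ^ 2) :=
          mul_le_mul_of_nonneg_left (hprod.trans hexp) (by positivity)
        _ = 3 * Real.exp (2 * C) * Real.exp h * Real.log w2 * 2 ^ j *
            (Real.log w * (1 / Real.log Y ^ 2)) := by
          push_cast
          ring
        _ ≤ 3 * Real.exp (2 * C) * Real.exp h * Real.log w2 * 2 ^ j * ((4 / 3 * V) *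
            ((4 * M ^ 2 / Real.log 2 ^ 2) / (j : ℝ) ^ 2)) := by
          apply mul_le_mul_of_nonneg_left _ (by positivity)
          apply mul_le_mul _ hinv (by positivity) (by positivity)
          linarith
        _ = C2 * 2 ^ j * Real.exp h * V / (j : ℝ) ^ 2 := by
          rw [hC2]
          ring
    linarith

end Pool.Agent.Work.MP_495a89_nt
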