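import Pool.Agent.Work.MP_495a89_nt.Interface

/-!
# Block RT: the classes `0` and the nontrivial `l`-th roots of unity modulo `r`
-/

set_option autoImplicit false

namespace Pool.Agent.Work.MP_495a89_nt

open Finset

theorem rt_exists_root (l r : ℕ) (hl : l.Prime) (hr : r.Prime) (hlr : r % l = 1) :
    haveI : Fact r.Prime := ⟨hr⟩
    ∃ ζ : ZMod r, IsPrimitiveRoot ζ l := by
  haveI : Fact r.Prime := ⟨hr⟩
  obtain ⟨g, hg⟩ := IsCyclic.exists_ofOrder_eq_natCard (α := (ZMod r)ˣ)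
  have hcard : Nat.card (ZMod r)ˣ = r - 1 := by
    rw [Nat.card_eq_fintype_card, ZMod.card_units]
  have hg' : IsPrimitiveRoot g (r - 1) := by
    have := IsPrimitiveRoot.orderOf g
    rwa [hg, hcard] at this
  have hgu : IsPrimitiveRoot (g : ZMod r) (r - 1) := IsPrimitiveRoot.coe_units_iff.2 hg'
  have hdvd : l ∣ r - 1 := (Nat.modEq_iff_dvd' hr.one_lt.le).1 (by
    rw [Nat.ModEq, Nat.mod_eq_of_lt hl.one_lt, hlr])
  obtain ⟨m, hm⟩ := hdvd
  exact ⟨(g : ZMod r) ^ m, hgu.pow (by have := hr.two_le; omega) (by rw [hm, mul_comm])⟩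

theorem stmt_RT : Stmt_RT := by
  classical
  intro l r hl hr hlr
  haveI : Fact r.Prime := ⟨hr⟩
  obtain ⟨ζ, hζ⟩ := rt_exists_root l r hl hr hlr
  have hcard := hζ.card_nthRootsFinset
  have hl0 : 0 < l := hl.pos
  set N : Finset (ZMod r) := Polynomial.nthRootsFinset l (1 : ZMod r) with hN
  have hmem : ∀ x : ZMod r, x ∈ N ↔ x ^ l = 1 := fun x => Polynomial.mem_nthRootsFinset hl0 1
  have h1N : (1 : ZMod r) ∈ N := by rw [hmem, one_pow]
  have h0N : (0 : ZMod r) ∉ N.erase 1 := by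
    intro h
    have := (hmem 0).1 (mem_of_mem_erase h)
    rw [zero_pow hl0.ne'] at this
    exact zero_ne_one this
  have hins : (insert (0 : ZMod r) (N.erase 1)).card = l := by
    rw [card_insert_of_notMem h0N, card_erase_of_mem h1N, hcard]
    omega
  refine Eq.trans ?_ hins
  have hcast : ∀ c : ℕ, c ^ l % r = 1 ↔ ((c : ZMod r)) ^ l = 1 := by
    intro c
    have h := (ZMod.natCast_eq_natCast_iff' (c ^ l) 1 r)
    rw [Nat.mod_eq_of_lt hr.one_lt] at h
    rw [← h]
    push_cast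
    exact Iff.rfl
  refine card_bij (fun c _ => (c : ZMod r)) ?_ ?_ ?_
  · intro c hc
    rw [mem_filter, mem_range] at hc
    obtain ⟨hcr, h | ⟨h, h1⟩⟩ := hc
    · subst h
      simp
    · refine mem_insert_of_mem (mem_erase.2 ⟨?_, (hmem _).2 ((hcast c).1 h)⟩)
      intro h2
      have h3 := (ZMod.natCast_eq_natCast_iff' c 1 r).1 (by rw [h2, Nat.cast_one])
      rw [Nat.mod_eq_of_lt hcr, Nat.mod_eq_of_lt hr.one_lt] at h3
      exact h1 h3
  · intro c hc d hd hcd
    rw [mem_filter, mem_range] at hc hd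
    have h3 := (ZMod.natCast_eq_natCast_iff' c d r).1 hcd
    rwa [Nat.mod_eq_of_lt hc.1, Nat.mod_eq_of_lt hd.1] at h3
  · intro x hx
    rcases mem_insert.1 hx with h | h
    · exact ⟨0, by simp [hr.pos], by rw [h]; simp⟩
    · have hx1 := (mem_erase.1 h).1
      have hxl := (hmem x).1 (mem_erase.1 h).2
      refine ⟨x.val, ?_, by simp⟩
      rw [mem_filter, mem_range]
      refine ⟨ZMod.val_lt x, Or.inr ⟨(hcast x.val).2 (by simpa using hxl), ?_⟩⟩
      intro h2
      apply hx1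
      have : ((x.val : ℕ) : ZMod r) = 1 := by rw [h2, Nat.cast_one]
      simpa using this

end Pool.Agent.Work.MP_495a89_nt
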