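import Pool.Agent.Work.MP_495a89_nt.AB
import Pool.Agent.Work.MP_495a89_nt.AP
import Pool.Agent.Work.MP_495a89_nt.AP1
import Pool.Agent.Work.MP_495a89_nt.BTB
import Pool.Agent.Work.MP_495a89_nt.BTS
import Pool.Agent.Work.MP_495a89_nt.CMB2
import Pool.Agent.Work.MP_495a89_nt.FIN2
import Pool.Agent.Work.MP_495a89_nt.MER
import Pool.Agent.Work.MP_495a89_nt.PP
import Pool.Agent.Work.MP_495a89_nt.RL2
import Pool.Agent.Work.MP_495a89_nt.RT
import Pool.Agent.Work.MP_495a89_nt.SV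

/-!
# MP_495a89_nt: assembly of the strong form, and two corollaries
-/

set_option autoImplicit false

namespace Pool.Agent.Work.MP_495a89_nt

open Finset

theorem main2 : Stmt_MAIN2 :=
  stmt_MAIN2 (stmt_AP stmt_AP1 stmt_AB stmt_BTB) (stmt_RL2 stmt_SV stmt_BTS stmt_RT) stmt_CMB2
    stmt_PP stmt_MER

end Pool.Agent.Work.MP_495a89_nt
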