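import Pool.Agent.Work.MP_495a89_nt.Interface

/-!
# MP_495a89_nt, strong form: statements of the blocks RL2, CMB2, FIN2

New against `Stmt_MAIN`: only the primes `r > R` are used, primes with a large exponent are allowed
(set `HU`), at the price of a factor `exp h` with `h ≥ (l - 1) ∑ 1 / r` over `r ∈ HU`, `r ≡ 1` modulo
`l`; `r ^ 8` becomes `r ^ K` and `√(log p)` becomes `(log p) ^ θ`, `θ < 1`; nothing is assumed on
`v_p(n) + 1` for `p ≤ P`.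
-/

set_option autoImplicit false

namespace Pool.Agent.Work.MP_495a89_nt

open Finset

open Classical in
/-- the primes `m ∈ (2 ^ j, 2 ^ (j+1)]` such that `(m ^ l - 1) / (m - 1)` has no prime factor
`r ≡ 1` modulo `l`, `R < r ≤ 2 ^ (j / M)`, `r ∉ H`, with `m ≢ 1` modulo `r` -/
noncomputable def RR2 (l M j R : ℕ) (H : Finset ℕ) : Finset ℕ :=
  (Ioc (2 ^ j) (2 ^ (j + 1))).filter
    (fun m => m.Prime ∧ ∀ r ∈ PR l R (2 ^ (j / M)), r ∉ H → m ^ l % r = 1 → m % r = 1)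

/-- **RL2** (from SV, BTS, RT; the proof of RL with `W l + log R` in place of `W l`). -/
def Stmt_RL2 : Prop := ∀ (W : ℕ → ℝ) (C : ℝ), APW W C → ∀ M0 : ℕ, ∃ (C' : ℝ) (M : ℕ), 0 < C' ∧
  M0 ≤ M ∧ ∀ l : ℕ, l.Prime → ∀ j R : ℕ, 1 ≤ j → 1 ≤ R → ∀ (H : Finset ℕ) (h : ℝ),
    ((l : ℝ) - 1) * ∑ r ∈ H.filter (fun r => r % l = 1), 1 / (r : ℝ) ≤ h →
    ((RR2 l M j R H).card : ℝ) ≤ C' * 2 ^ j * Real.exp h * (W l + Real.log R) / (j : ℝ) ^ 2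

open Classical in
/-- **CMB2** -/
def Stmt_CMB2 : Prop := ∀ (n a b M j Lb R : ℕ) (H : Finset ℕ) (G : ℕ → Prop), n ≠ 0 → b ≠ 0 →
  1 ≤ R → ArithmeticFunction.sigma 1 n * b = a * n →
  (∀ p ∈ SJ n j, ∃ l : ℕ, l.Prime ∧ G l ∧ l ≤ Lb ∧ l ∣ n.factorization p + 1) →
  (SJ n j).card ≤ ∑ l ∈ (Icc 1 Lb).filter (fun l => l.Prime ∧ G l), (RR2 l M j R H).card
    + ∑ r ∈ (Ioc R (2 ^ (j / M))).filter (fun r => r.Prime ∧ r ∉ H),
        (a.factorization r + n.factorization r)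

open Classical in
/-- the prime factors `r > R` of `n` with `v_r(n) > A r ^ K` -/
noncomputable def HU (n K : ℕ) (A R : ℝ) : Finset ℕ :=
  n.primeFactors.filter (fun r => R < r ∧ A * (r : ℝ) ^ K < n.factorization r)

/-- **FIN2** (from AP, RL2, CMB2, PP, MER): the main theorem, strong form. -/
def Stmt_MAIN2 : Prop := ∀ (K : ℕ) (θ : ℝ), 0 ≤ θ → θ < 1 → ∃ C : ℝ,
  ∀ (n a b : ℕ) (A L R P h : ℝ), n ≠ 0 → b ≠ 0 →
  ArithmeticFunction.sigma 1 n * b = a * n → 1 ≤ A → 1 ≤ L → 1 ≤ R → 1 ≤ P → 0 ≤ h →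
  (∀ p : ℕ, p.Prime → p ∣ n → P < p → ∃ l : ℕ, l.Prime ∧ l ∣ n.factorization p + 1 ∧
    ((l : ℝ) - 1) * ∑ r ∈ (HU n K A R).filter (fun r => r % l = 1), 1 / (r : ℝ) ≤ h ∧
    ((l : ℝ) ≤ L ∨ Real.exp h * (1 + Real.log R) * l ≤ Real.log p ^ θ)) →
  (a : ℝ) / b ≤ C * (Real.exp h * (1 + Real.log R) * L + Real.log A + Real.log P
      + Real.log (1 + Real.log a)) ∧
    (b = 1 → (a : ℝ) ≤ C * (Real.exp h * (1 + Real.log R) * L + Real.log A + Real.log P))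

end Pool.Agent.Work.MP_495a89_nt
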